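import Mathlib
import Pool.Agent.H20R2.EN.FLem
import Pool.Agent.H373R2.T7.Cnt
import Pool.Agent.V7H99.CD.Sv

set_option autoImplicit false

/-! The two-sided sieve in a residue class. -/

namespace Pool.Agent.V7H99.LG
open Finset
open Pool.Agent.V7H99.CD (JJ JJ_lt JJ_le JJ_small Pd mem_Pd nu nu_le)

open Classical in
/-- **the two-sided sieve in a residue class** -/
theorem sift_two : ∃ C0 E : ℕ, 1 ≤ C0 ∧ ∀ (z0 y V : ℕ), C0 ≤ z0 → 3 ≤ y →
    ∀ hit : ℕ → ℕ → Prop, (∀ p n, hit p n ↔ hit p (n % p)) → (∀ p, p.Prime → nu hit p ≤ 3) →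
    ∀ P : Finset ℕ, P ⊆ Pd z0 y → ∀ m : ℕ, 1 ≤ m → (∀ p ∈ P, ¬ p ∣ m) → ∀ r : ℕ,
    |(((Icc 1 V).filter (fun v => v ≡ r [MOD m] ∧ ∀ p ∈ P, ¬ hit p v)).card : ℝ) -
      (V : ℝ) / m * ∏ p ∈ P, (1 - (nu hit p : ℝ) / p)| ≤
      1 / 2 * ((V : ℝ) / m * ∏ p ∈ P, (1 - (nu hit p : ℝ) / p)) + (y : ℝ) ^ E := by
  obtain ⟨C0, hC0, hFL⟩ := Pool.Agent.H20R2.fLem 3
  refine ⟨C0, 4 * (C0 * C0) + 2, hC0, ?_⟩
  intro z0 y V hz0 hy hit per few P hPsub m hm hPm r
  set J := JJ y with hJ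
  set Y : ℕ := 2 ^ 2 ^ J with hY
  have hyY : y < Y := JJ_lt y
  have hYy : Y ≤ y ^ 2 := JJ_le y (by omega)
  set D : ℕ := Y ^ (C0 * C0) with hD
  have hDy : D ≤ y ^ (2 * (C0 * C0)) := by
    calc D ≤ (y ^ 2) ^ (C0 * C0) := Nat.pow_le_pow_left hYy _
      _ = _ := by rw [← pow_mul]
  have hPp : ∀ p ∈ P, p.Prime ∧ z0 < p ∧ p ≤ Y := by
    intro p hp
    obtain ⟨h1, h2, h3⟩ := mem_Pd.1 (hPsub hp)
    exact ⟨h1, h2, by omega⟩
  have hfac : ∀ p ∈ P, 0 ≤ 1 - (nu hit p : ℝ) / p := by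
    intro p hp
    have hp0 : (0 : ℝ) < p := by exact_mod_cast (hPp p hp).1.pos
    have h1 : (nu hit p : ℝ) / p ≤ 1 := by rw [div_le_one hp0]; exact_mod_cast nu_le hit p
    linarith
  have hPi : (0 : ℝ) ≤ ∏ p ∈ P, (1 - (nu hit p : ℝ) / p) :=
    Finset.prod_nonneg (fun p hp => hfac p hp)
  have hm0 : (0 : ℝ) < m := by exact_mod_cast hm
  have hX0 : (0 : ℝ) ≤ (V : ℝ) / m := by positivity
  have hg : ∀ p ∈ P, 0 ≤ (nu hit p : ℝ) / p ∧
      (nu hit p : ℝ) / p ≤ ((3 : ℕ) : ℝ) / ((p : ℝ) - 1) := by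
    intro p hp
    have hp0 : (0 : ℝ) < p := by exact_mod_cast (hPp p hp).1.pos
    have hp1 : (1 : ℝ) < p := by exact_mod_cast (hPp p hp).1.one_lt
    refine ⟨by positivity, ?_⟩
    apply div_le_div₀ (Nat.cast_nonneg _) (by exact_mod_cast few p (hPp p hp).1) (by linarith)
      (by linarith)
  have key := hFL C0 J z0 P (fun p => (nu hit p : ℝ) / p) le_rfl hz0 hPp hg
    ((Icc 1 V).filter (fun v => v ≡ r [MOD m])) (fun _ => 1) hit ((V : ℝ) / m)
    (fun T => (∏ p ∈ T, (p : ℝ)))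
    (fun v _ => zero_le_one) hX0 (by
      intro T hT hTD
      have h2 := Pool.Agent.H373R2.T7.count_sys (fun p a => hit p a) V T
        (fun p hp => (hPp p (hT hp)).1) m hm (fun p hp => hPm p (hT hp)) r
      have e3 : ∑ v ∈ ((Icc 1 V).filter (fun v => v ≡ r [MOD m])).filter
          (fun v => ∀ p ∈ T, hit p v), (1 : ℝ) =
          (((Icc 1 V).filter (fun n => n ≡ r [MOD m] ∧ ∀ p ∈ T, hit p (n % p))).card : ℝ) := by
        rw [sum_const, nsmul_eq_mul, mul_one, filter_filter]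
        congr 2
        apply filter_congr
        intro n _
        apply and_congr_right
        intro _
        exact ⟨fun h p hp => (per p n).1 (h p hp), fun h p hp => (per p n).2 (h p hp)⟩
      rw [e3]
      refine h2.trans ?_
      apply prod_le_prod (fun _ _ => Nat.cast_nonneg _)
      intro p _
      have := nu_le hit p
      unfold nu at this
      exact_mod_cast this)
  have e4 : ∑ v ∈ ((Icc 1 V).filter (fun v => v ≡ r [MOD m])).filter
      (fun v => ∀ p ∈ P, ¬ hit p v), (1 : ℝ) =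
      (((Icc 1 V).filter (fun v => v ≡ r [MOD m] ∧ ∀ p ∈ P, ¬ hit p v)).card : ℝ) := by
    rw [sum_const, nsmul_eq_mul, mul_one, filter_filter]
  rw [e4] at key
  refine key.trans ?_
  have hb : (1 / 2 : ℝ) ^ C0 ≤ 1 / 2 := by
    calc (1 / 2 : ℝ) ^ C0 ≤ (1 / 2 : ℝ) ^ 1 := pow_le_pow_of_le_one (by norm_num) (by norm_num) hC0
      _ = 1 / 2 := pow_one _
  have hM0 : 0 ≤ (V : ℝ) / m * ∏ p ∈ P, (1 - (nu hit p : ℝ) / p) := mul_nonneg hX0 hPi
  have h2 : (1 / 2 : ℝ) ^ C0 * ((V : ℝ) / m * ∏ p ∈ P, (1 - (nu hit p : ℝ) / p)) ≤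
      1 / 2 * ((V : ℝ) / m * ∏ p ∈ P, (1 - (nu hit p : ℝ) / p)) :=
    mul_le_mul_of_nonneg_right hb hM0
  -- the error
  have hcard : (P.powerset.filter (fun T : Finset ℕ => ∏ p ∈ T, p ≤ D)).card ≤ D := by
    calc _ ≤ (Icc 1 D).card := by
          apply card_le_card_of_injOn (fun T : Finset ℕ => ∏ p ∈ T, p)
          · intro T hT
            rw [mem_coe, mem_filter, mem_powerset] at hT
            have h5 : 1 ≤ ∏ p ∈ T, p :=
              Nat.pos_of_ne_zero (prod_ne_zero_iff.2 fun p hp => (hPp p (hT.1 hp)).1.ne_zero)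
            exact mem_coe.2 (mem_Icc.2 ⟨h5, hT.2⟩)
          · intro T hT T' hT' h
            rw [mem_coe, mem_filter, mem_powerset] at hT hT'
            have e1 := Nat.primeFactors_prod (fun p hp => (hPp p (hT.1 hp)).1 : ∀ p ∈ T, p.Prime)
            have e2 := Nat.primeFactors_prod (fun p hp => (hPp p (hT'.1 hp)).1 : ∀ p ∈ T', p.Prime)
            have h' : ∏ p ∈ T, p = ∏ p ∈ T', p := h
            rw [← e1, ← e2, h']
      _ = D := by rw [Nat.card_Icc]; omega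
  have hJy : J + 2 ≤ 2 * y := JJ_small y hy
  have hDr : (D : ℝ) ≤ (y : ℝ) ^ (2 * (C0 * C0)) := by exact_mod_cast hDy
  have hsum : ∑ T ∈ P.powerset.filter (fun T : Finset ℕ => ∏ p ∈ T, p ≤ D),
      (∏ p ∈ T, (p : ℝ)) ≤ D * D := by
    calc _ ≤ ∑ T ∈ P.powerset.filter (fun T : Finset ℕ => ∏ p ∈ T, p ≤ D), (D : ℝ) := by
          apply sum_le_sum
          intro T hT
          rw [mem_filter] at hT
          have h6 : ((∏ p ∈ T, p : ℕ) : ℝ) ≤ D := by exact_mod_cast hT.2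
          push_cast at h6
          exact h6
      _ = ((((P.powerset.filter (fun T : Finset ℕ => ∏ p ∈ T, p ≤ D)).card : ℕ) : ℝ)) * D := by
          rw [sum_const, nsmul_eq_mul]
      _ ≤ D * D := mul_le_mul_of_nonneg_right (by exact_mod_cast hcard) (by positivity)
  have hJr : (J : ℝ) + 2 ≤ 2 * y := by exact_mod_cast hJy
  have hy2 : (2 : ℝ) ≤ y := by exact_mod_cast (by omega : 2 ≤ y)
  have herr : ((J : ℝ) + 2) *
      ∑ T ∈ P.powerset.filter (fun T : Finset ℕ => ∏ p ∈ T, p ≤ D), (∏ p ∈ T, (p : ℝ)) ≤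
      (y : ℝ) ^ (4 * (C0 * C0) + 2) := by
    calc _ ≤ (2 * (y : ℝ)) * ((y : ℝ) ^ (2 * (C0 * C0)) * (y : ℝ) ^ (2 * (C0 * C0))) := by
          apply mul_le_mul hJr _ _ (by positivity)
          · refine hsum.trans ?_
            gcongr
          · apply sum_nonneg
            intro T _
            positivity
      _ ≤ ((y : ℝ) * y) * ((y : ℝ) ^ (2 * (C0 * C0)) * (y : ℝ) ^ (2 * (C0 * C0))) := by
          apply mul_le_mul_of_nonneg_right _ (by positivity)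
          nlinarith
      _ = _ := by rw [← pow_add, ← pow_two, ← pow_add]; congr 1; ring
  linarith

end Pool.Agent.V7H99.LG
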