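import Mathlib
import Pool.Agent.V7H99.LG.S1
import Pool.Agent.V7H99.CD.Ht

set_option autoImplicit false

/-! Three linear forms: almost primes without squares of primes. -/

namespace Pool.Agent.V7H99.LG
open Finset
open Pool.Agent.V7H99.CD (JJ JJ_lt JJ_le JJ_small Pd mem_Pd nu nu_le cls_card sum_sq_le)

/-- the condition of the sieve -/
def hitI (z0 : ℕ) (I : Finset (Fin 3)) (α β : Fin 3 → ℕ) (p k : ℕ) : Prop :=
  z0 < p ∧ ∃ i ∈ I, p ∣ α i + β i * k

/-- the linear forms have no fixed prime divisor greater than `z0` -/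
def Ok (z0 : ℕ) (α β : Fin 3 → ℕ) : Prop := ∀ i p, p.Prime → z0 < p → p ∣ β i → ¬ p ∣ α i

lemma lin_uniq {z0 : ℕ} {α β : Fin 3 → ℕ} (h : Ok z0 α β) {p : ℕ} (hp : p.Prime) (hz : z0 < p)
    {e : ℕ} (he : 1 ≤ e) (i : Fin 3) {k k' : ℕ} (h1 : p ^ e ∣ α i + β i * k)
    (h2 : p ^ e ∣ α i + β i * k') : k ≡ k' [MOD p ^ e] := by
  have hpe : p ∣ p ^ e := dvd_pow_self p (by omega)
  by_cases hb : p ∣ β i
  · exact absurd ((Nat.dvd_add_left (hb.mul_right k)).1 (hpe.trans h1)) (h i p hp hz hb)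
  · have h3 : α i + β i * k ≡ α i + β i * k' [MOD p ^ e] :=
      (Nat.modEq_zero_iff_dvd.2 h1).trans (Nat.modEq_zero_iff_dvd.2 h2).symm
    have h4 : β i * k ≡ β i * k' [MOD p ^ e] := Nat.ModEq.add_left_cancel' _ h3
    exact Nat.ModEq.cancel_left_of_coprime
      (Nat.Coprime.pow_left e ((Nat.Prime.coprime_iff_not_dvd hp).2 hb)) h4

lemma hitI_per (z0 : ℕ) (I : Finset (Fin 3)) (α β : Fin 3 → ℕ) (p k : ℕ) :
    hitI z0 I α β p k ↔ hitI z0 I α β p (k % p) := by
  unfold hitI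
  apply and_congr_right
  intro _
  apply exists_congr
  intro i
  apply and_congr_right
  intro _
  have h1 : α i + β i * k ≡ α i + β i * (k % p) [MOD p] :=
    Nat.ModEq.add_left _ (Nat.ModEq.mul_left _ (Nat.mod_modEq k p).symm)
  exact h1.dvd_iff dvd_rfl

lemma nu_hitI {z0 : ℕ} (I : Finset (Fin 3)) {α β : Fin 3 → ℕ} (h : Ok z0 α β) (p : ℕ)
    (hp : p.Prime) : nu (hitI z0 I α β) p ≤ I.card := by
  classical
  unfold nu
  by_cases hz : z0 < p
  · have hsub : (range p).filter (fun a => hitI z0 I α β p a) ⊆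
        I.biUnion (fun i => (range p).filter (fun a => p ∣ α i + β i * a)) := by
      intro a ha
      rw [mem_filter] at ha
      obtain ⟨h1, -, i, hi, h2⟩ := ha
      exact mem_biUnion.2 ⟨i, hi, mem_filter.2 ⟨h1, h2⟩⟩
    calc _ ≤ _ := card_le_card hsub
      _ ≤ ∑ i ∈ I, ((range p).filter (fun a => p ∣ α i + β i * a)).card := card_biUnion_le
      _ ≤ ∑ _i ∈ I, 1 := by
          apply sum_le_sum
          intro i _
          rw [card_le_one]
          intro a ha b hb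
          rw [mem_filter, mem_range] at ha hb
          have h1 := lin_uniq h hp hz le_rfl i (k := a) (k' := b) (by rw [pow_one]; exact ha.2)
            (by rw [pow_one]; exact hb.2)
          rw [pow_one] at h1
          exact Nat.ModEq.eq_of_lt_of_lt h1 ha.1 hb.1
      _ = I.card := by simp
  · have : (range p).filter (fun a => hitI z0 I α β p a) = ∅ := by
      rw [filter_eq_empty_iff]
      intro v _ hv
      exact hz hv.1
    rw [this]
    simp

open Classical in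
/-- **sifted values of linear forms without squares of primes** -/
theorem good_count : ∃ C0 E : ℕ, 1 ≤ C0 ∧ ∀ (z0 y V R : ℕ), C0 ≤ z0 → 72 ≤ z0 → z0 ≤ y →
    ∀ (I : Finset (Fin 3)) (α β : Fin 3 → ℕ), Ok z0 α β → (∀ i, 1 ≤ α i) →
    (∀ i, ∀ k ≤ V, α i + β i * k < (R + 1) ^ 2) →
    ∀ Q : Finset ℕ, (∀ p ∈ Q, p.Prime ∧ y < p) →
    3 / 8 * (V * ∏ p ∈ Pd z0 y, (1 - (nu (hitI z0 I α β) p : ℝ) / p)) -
      ((1 + 3 * y) * (y : ℝ) ^ E + (3 * V / y + 3 * R) + (Q.card : ℝ) * (V / y + 1)) ≤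
      (((Icc 1 V).filter (fun k => (∀ p ∈ Pd z0 y, ¬ hitI z0 I α β p k) ∧
        (∀ p : ℕ, p.Prime → z0 < p → ∀ i, ¬ p ^ 2 ∣ α i + β i * k) ∧
        ∀ p ∈ Q, ¬ p ∣ α 0 + β 0 * k)).card : ℝ) := by
  obtain ⟨C0, E, hC0, hS⟩ := sift_two
  refine ⟨C0, E, hC0, ?_⟩
  intro z0 y V R hz0 hz72 hzy I α β hOk hα1 hR Q hQ
  set hit := hitI z0 I α β with hhit
  have per : ∀ p n, hit p n ↔ hit p (n % p) := fun p n => hitI_per z0 I α β p n
  have hI3 : I.card ≤ 3 := by
    have := card_le_univ I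
    simpa using this
  have few : ∀ p, p.Prime → nu hit p ≤ 3 := fun p hp => (nu_hitI I hOk p hp).trans hI3
  set A0 := (Icc 1 V).filter (fun k => ∀ p ∈ Pd z0 y, ¬ hit p k) with hA0
  set G := (Icc 1 V).filter (fun k => (∀ p ∈ Pd z0 y, ¬ hit p k) ∧
        (∀ p : ℕ, p.Prime → z0 < p → ∀ i, ¬ p ^ 2 ∣ α i + β i * k) ∧
        ∀ p ∈ Q, ¬ p ∣ α 0 + β 0 * k) with hG
  set Pr := ∏ p ∈ Pd z0 y, (1 - (nu hit p : ℝ) / p) with hPr
  set B1 : ℕ → Fin 3 → Finset ℕ := fun p i => (Icc 1 V).filter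
    (fun k => (∀ p' ∈ (Pd z0 y).erase p, ¬ hit p' k) ∧ p ^ 2 ∣ α i + β i * k) with hB1
  set B2 : ℕ → Fin 3 → Finset ℕ := fun p i => (Icc 1 V).filter (fun k => p ^ 2 ∣ α i + β i * k)
    with hB2
  set B3 : ℕ → Finset ℕ := fun p => (Icc 1 V).filter (fun k => p ∣ α 0 + β 0 * k) with hB3
  set S2 := (Ioc y R).filter (fun p => p.Prime) with hS2
  have hsub : A0 ⊆ G ∪ ((Pd z0 y).biUnion (fun p => univ.biUnion (fun i => B1 p i)) ∪
      (S2.biUnion (fun p => univ.biUnion (fun i => B2 p i)) ∪ Q.biUnion B3)) := by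
    intro k hk
    rw [hA0, mem_filter] at hk
    obtain ⟨hk1, hk2⟩ := hk
    by_cases hg1 : ∀ p : ℕ, p.Prime → z0 < p → ∀ i, ¬ p ^ 2 ∣ α i + β i * k
    · by_cases hg2 : ∀ p ∈ Q, ¬ p ∣ α 0 + β 0 * k
      · exact mem_union_left _ (mem_filter.2 ⟨hk1, hk2, hg1, hg2⟩)
      · push Not at hg2
        obtain ⟨p, hp, hp2⟩ := hg2
        refine mem_union_right _ (mem_union_right _ (mem_union_right _ ?_))
        exact mem_biUnion.2 ⟨p, hp, mem_filter.2 ⟨hk1, hp2⟩⟩
    · push Not at hg1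
      obtain ⟨p, hp, hpz, i, hi⟩ := hg1
      by_cases hpy : p ≤ y
      · refine mem_union_right _ (mem_union_left _ ?_)
        refine mem_biUnion.2 ⟨p, mem_Pd.2 ⟨hp, hpz, hpy⟩, mem_biUnion.2 ⟨i, mem_univ _, ?_⟩⟩
        exact mem_filter.2 ⟨hk1, fun p' hp' => hk2 p' (mem_of_mem_erase hp'), hi⟩
      · refine mem_union_right _ (mem_union_right _ (mem_union_left _ ?_))
        have h1 : p ^ 2 ≤ α i + β i * k := Nat.le_of_dvd (by have := hα1 i; omega) hi
        have h2 := hR i k (mem_Icc.1 hk1).2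
        have h3 := lt_of_pow_lt_pow_left₀ 2 (by omega) (lt_of_le_of_lt h1 h2)
        refine mem_biUnion.2 ⟨p, mem_filter.2 ⟨mem_Ioc.2 ⟨by omega, by omega⟩, hp⟩,
          mem_biUnion.2 ⟨i, mem_univ _, ?_⟩⟩
        exact mem_filter.2 ⟨hk1, hi⟩
  have hcard : (A0.card : ℝ) ≤ G.card + ((∑ p ∈ Pd z0 y, ∑ i : Fin 3, ((B1 p i).card : ℝ)) +
      ((∑ p ∈ S2, ∑ i : Fin 3, ((B2 p i).card : ℝ)) + ∑ p ∈ Q, ((B3 p).card : ℝ))) := by
    have h1 := card_le_card hsub
    have h2 := card_union_le G ((Pd z0 y).biUnion (fun p => univ.biUnion (fun i => B1 p i)) ∪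
      (S2.biUnion (fun p => univ.biUnion (fun i => B2 p i)) ∪ Q.biUnion B3))
    have h3 := card_union_le ((Pd z0 y).biUnion (fun p => univ.biUnion (fun i => B1 p i)))
      (S2.biUnion (fun p => univ.biUnion (fun i => B2 p i)) ∪ Q.biUnion B3)
    have h4 := card_union_le (S2.biUnion (fun p => univ.biUnion (fun i => B2 p i))) (Q.biUnion B3)
    have h5 : ((Pd z0 y).biUnion (fun p => univ.biUnion (fun i => B1 p i))).card ≤
        ∑ p ∈ Pd z0 y, ∑ i : Fin 3, (B1 p i).card :=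
      card_biUnion_le.trans (sum_le_sum fun p _ => card_biUnion_le)
    have h6 : (S2.biUnion (fun p => univ.biUnion (fun i => B2 p i))).card ≤
        ∑ p ∈ S2, ∑ i : Fin 3, (B2 p i).card :=
      card_biUnion_le.trans (sum_le_sum fun p _ => card_biUnion_le)
    have h7 : (Q.biUnion B3).card ≤ ∑ p ∈ Q, (B3 p).card := card_biUnion_le
    have h8 : A0.card ≤ G.card + ((∑ p ∈ Pd z0 y, ∑ i : Fin 3, (B1 p i).card) +
      ((∑ p ∈ S2, ∑ i : Fin 3, (B2 p i).card) + ∑ p ∈ Q, (B3 p).card)) := by omega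
    exact_mod_cast h8
  -- the main term
  have hy0 : (0 : ℝ) < y := by exact_mod_cast (by omega : 0 < y)
  have hV0 : (0 : ℝ) ≤ V := Nat.cast_nonneg _
  have hmain : 1 / 2 * (V * Pr) - (y : ℝ) ^ E ≤ A0.card := by
    have h1 := hS z0 y V hz0 (by omega) hit per few (Pd z0 y) (subset_refl _) 1 le_rfl
      (fun p hp hd => (mem_Pd.1 hp).1.one_lt.ne' (Nat.dvd_one.1 hd)) 0
    have h2 : (Icc 1 V).filter (fun v => v ≡ 0 [MOD 1] ∧ ∀ p ∈ Pd z0 y, ¬ hit p v) = A0 := by
      rw [hA0]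
      apply filter_congr
      intro v _
      exact ⟨fun h => h.2, fun h => ⟨Nat.modEq_one, h⟩⟩
    rw [h2, Nat.cast_one, div_one] at h1
    have h3 := (abs_le.1 h1).1
    linarith
  -- small primes
  have hPrf : ∀ p ∈ Pd z0 y, 1 / 2 ≤ 1 - (nu hit p : ℝ) / p := by
    intro p hp
    obtain ⟨h1, h2, _⟩ := mem_Pd.1 hp
    have h3 : (nu hit p : ℝ) ≤ 3 := by exact_mod_cast few p h1
    have h4 : (6 : ℝ) ≤ p := by exact_mod_cast (by omega : 6 ≤ p)
    have h5 : (nu hit p : ℝ) / p ≤ 1 / 2 := by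
      rw [div_le_div_iff₀ (by linarith) (by norm_num)]
      linarith
    linarith
  have hPr0 : 0 ≤ Pr := prod_nonneg fun p hp => by have := hPrf p hp; linarith
  have hb1 : ∀ p ∈ Pd z0 y, ∀ i : Fin 3, ((B1 p i).card : ℝ) ≤
      3 * V * Pr * (1 / (p : ℝ) ^ 2) + (y : ℝ) ^ E := by
    intro p hp i
    obtain ⟨hp1, hp2, hp3⟩ := mem_Pd.1 hp
    have hp0 : (0 : ℝ) < p := by exact_mod_cast hp1.pos
    by_cases he : B1 p i = ∅
    · rw [he]
      simp only [card_empty, Nat.cast_zero]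
      positivity
    · obtain ⟨r, hr⟩ := nonempty_iff_ne_empty.2 he
      rw [hB1] at hr
      simp only [mem_filter] at hr
      have h1 := hS z0 y V hz0 (by omega) hit per few ((Pd z0 y).erase p) (erase_subset _ _)
        (p ^ 2) (Nat.pow_pos hp1.pos) (fun p' hp' hd => by
          obtain ⟨h2, h3⟩ := mem_erase.1 hp'
          have h4 := (mem_Pd.1 h3).1
          exact h2 ((Nat.prime_dvd_prime_iff_eq h4 hp1).1 (h4.dvd_of_dvd_pow hd))) r
      have h2 : B1 p i ⊆ (Icc 1 V).filter (fun v => v ≡ r [MOD p ^ 2] ∧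
          ∀ p' ∈ (Pd z0 y).erase p, ¬ hit p' v) := by
        intro k hk
        rw [hB1] at hk
        simp only [mem_filter] at hk ⊢
        exact ⟨hk.1, lin_uniq hOk hp1 hp2 (by norm_num) i hk.2.2 hr.2.2, hk.2.1⟩
      have h3 : ((B1 p i).card : ℝ) ≤ (((Icc 1 V).filter (fun v => v ≡ r [MOD p ^ 2] ∧
          ∀ p' ∈ (Pd z0 y).erase p, ¬ hit p' v)).card : ℝ) := by exact_mod_cast card_le_card h2
      have h4 := (abs_le.1 h1).2
      have h5 : (1 - (nu hit p : ℝ) / p) * ∏ p' ∈ (Pd z0 y).erase p, (1 - (nu hit p' : ℝ) / p') =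
          Pr := mul_prod_erase (Pd z0 y) (fun p' => 1 - (nu hit p' : ℝ) / p') hp
      have h6 := hPrf p hp
      have h7 : (0 : ℝ) ≤ ∏ p' ∈ (Pd z0 y).erase p, (1 - (nu hit p' : ℝ) / p') :=
        prod_nonneg fun p' hp' => by have := hPrf p' (mem_of_mem_erase hp'); linarith
      have h8 : ∏ p' ∈ (Pd z0 y).erase p, (1 - (nu hit p' : ℝ) / p') ≤ 2 * Pr := by
        rw [← h5]
        nlinarith
      have h9 : (V : ℝ) / ((p ^ 2 : ℕ) : ℝ) * ∏ p' ∈ (Pd z0 y).erase p, (1 - (nu hit p' : ℝ) / p') ≤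
          V / ((p ^ 2 : ℕ) : ℝ) * (2 * Pr) := mul_le_mul_of_nonneg_left h8 (by positivity)
      have e1 : (V : ℝ) / ((p ^ 2 : ℕ) : ℝ) * (2 * Pr) = 2 * (V * Pr * (1 / (p : ℝ) ^ 2)) := by
        push_cast
        ring
      rw [e1] at h9
      have e2 : 3 * (V : ℝ) * Pr * (1 / (p : ℝ) ^ 2) = 3 * (V * Pr * (1 / (p : ℝ) ^ 2)) := by ring
      rw [e2]
      linarith
  have hs1 : ∑ p ∈ Pd z0 y, ∑ i : Fin 3, ((B1 p i).card : ℝ) ≤
      1 / 8 * (V * Pr) + 3 * y * (y : ℝ) ^ E := by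
    have hzr : (72 : ℝ) ≤ z0 := by exact_mod_cast hz72
    calc _ ≤ ∑ p ∈ Pd z0 y, ∑ _i : Fin 3, (3 * V * Pr * (1 / (p : ℝ) ^ 2) + (y : ℝ) ^ E) :=
          sum_le_sum fun p hp => sum_le_sum fun i _ => hb1 p hp i
      _ = ∑ p ∈ Pd z0 y, (9 * V * Pr * (1 / (p : ℝ) ^ 2) + 3 * (y : ℝ) ^ E) := by
          apply sum_congr rfl
          intro p _
          rw [sum_const, card_univ, Fintype.card_fin, nsmul_eq_mul]
          push_cast
          ring
      _ = 9 * V * Pr * ∑ p ∈ Pd z0 y, (1 / (p : ℝ) ^ 2) + ((Pd z0 y).card : ℝ) * (3 * (y : ℝ) ^ E) := by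
          rw [sum_add_distrib, ← mul_sum, sum_const, nsmul_eq_mul]
      _ ≤ 9 * V * Pr * (1 / z0) + y * (3 * (y : ℝ) ^ E) := by
          apply add_le_add
          · apply mul_le_mul_of_nonneg_left _ (by positivity)
            apply sum_sq_le z0 y (by omega)
            intro p hp
            obtain ⟨_, h2, h3⟩ := mem_Pd.1 hp
            exact mem_Ioc.2 ⟨h2, h3⟩
          · apply mul_le_mul_of_nonneg_right _ (by positivity)
            have : (Pd z0 y).card ≤ y := by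
              calc (Pd z0 y).card ≤ (Icc 1 y).card := card_le_card (filter_subset _ _)
                _ = y := by rw [Nat.card_Icc]; omega
            exact_mod_cast this
      _ ≤ _ := by
          have h1 : 9 * (V : ℝ) * Pr * (1 / z0) ≤ 1 / 8 * (V * Pr) := by
            have h2 : (1 : ℝ) / z0 ≤ 1 / 72 := one_div_le_one_div_of_le (by norm_num) hzr
            have h3 : 0 ≤ (V : ℝ) * Pr := by positivity
            nlinarith
          linarith
  -- large primes
  have hs2 : ∑ p ∈ S2, ∑ i : Fin 3, ((B2 p i).card : ℝ) ≤ 3 * V / y + 3 * R := by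
    calc _ ≤ ∑ p ∈ S2, ∑ _i : Fin 3, ((V : ℝ) * (1 / (p : ℝ) ^ 2) + 1) := by
          apply sum_le_sum
          intro p hp
          apply sum_le_sum
          intro i _
          rw [hS2, mem_filter, mem_Ioc] at hp
          have h1 := cls_card V (p ^ 2) (Nat.pow_pos hp.2.pos) (fun k => p ^ 2 ∣ α i + β i * k)
            (fun v v' h1 h2 => lin_uniq hOk hp.2 (by omega) (by norm_num) i h1 h2)
          refine h1.trans (le_of_eq ?_)
          push_cast
          ring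
      _ = ∑ p ∈ S2, (3 * V * (1 / (p : ℝ) ^ 2) + 3) := by
          apply sum_congr rfl
          intro p _
          rw [sum_const, card_univ, Fintype.card_fin, nsmul_eq_mul]
          push_cast
          ring
      _ = 3 * V * ∑ p ∈ S2, (1 / (p : ℝ) ^ 2) + (S2.card : ℝ) * 3 := by
          rw [sum_add_distrib, ← mul_sum, sum_const, nsmul_eq_mul]
      _ ≤ 3 * V * (1 / y) + R * 3 := by
          apply add_le_add
          · apply mul_le_mul_of_nonneg_left _ (by positivity)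
            exact sum_sq_le y R (by omega) S2 (filter_subset _ _)
          · have h1 : (S2.card : ℝ) ≤ R := by
              have : S2.card ≤ R := by
                calc S2.card ≤ (Ioc y R).card := card_le_card (filter_subset _ _)
                  _ ≤ R := by rw [Nat.card_Ioc]; omega
              exact_mod_cast this
            linarith
      _ = _ := by ring
  have hs3 : ∑ p ∈ Q, ((B3 p).card : ℝ) ≤ (Q.card : ℝ) * (V / y + 1) := by
    rw [← nsmul_eq_mul, ← sum_const]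
    apply sum_le_sum
    intro p hp
    obtain ⟨hp1, hp2⟩ := hQ p hp
    have h1 := cls_card V p hp1.pos (fun k => p ∣ α 0 + β 0 * k)
      (fun v v' h1 h2 => by
        have := lin_uniq hOk hp1 (by omega) le_rfl 0 (k := v) (k' := v') (by rw [pow_one]; exact h1)
          (by rw [pow_one]; exact h2)
        rwa [pow_one] at this)
    refine h1.trans ?_
    have h2 : (V : ℝ) / p ≤ V / y := by
      apply div_le_div_of_nonneg_left hV0 hy0
      exact_mod_cast (by omega : y ≤ p)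
    linarith
  have e3 : 1 / 2 * (V * Pr) = 3 / 8 * (V * Pr) + 1 / 8 * ((V : ℝ) * Pr) := by ring
  rw [e3] at hmain
  have e4 : (1 + 3 * (y : ℝ)) * (y : ℝ) ^ E = (y : ℝ) ^ E + 3 * y * (y : ℝ) ^ E := by ring
  rw [e4]
  linarith

end Pool.Agent.V7H99.LG
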