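import Mathlib
import Pool.Agent.Helper112.Lp.Kmg
import Pool.Agent.V7H99.CD.Ht

set_option autoImplicit false

/-! Lower bound for the sieve product, right order of magnitude. -/

namespace Pool.Agent.V7H99.LG
open Finset
open Pool.Agent.V7H99.CD (JJ JJ_lt JJ_le JJ_pow Pd mem_Pd sum_sq_le)

theorem prod_one (κ : ℕ) (hκ : κ ≤ 3) : ∃ c : ℝ, 0 < c ∧ ∀ y : ℕ, 64 ≤ y → ∀ z0 : ℕ, 6 ≤ z0 →
    ∀ g : ℕ → ℝ, (∀ p ∈ Pd z0 y, g p ≤ κ / p) →
    c / Real.log y ^ κ ≤ ∏ p ∈ Pd z0 y, (1 - g p) := by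
  classical
  obtain ⟨C0, hC0, hM⟩ := Pool.Agent.Helper112.LP.mertens_group
  refine ⟨Real.exp (-(κ * C0 + (κ : ℝ) ^ 2)) / 4 ^ κ, by positivity, fun y hy z0 hz0 g hg => ?_⟩
  have hy2 : 2 ≤ y := by omega
  have hyr : (64 : ℝ) ≤ y := by exact_mod_cast hy
  set L := Real.log y with hLd
  have hlog2 : 0 < Real.log 2 := Real.log_pos (by norm_num)
  have hlog2' : 2 / 3 < Real.log 2 := by have := Real.log_two_gt_d9; linarith
  have hL : 4 ≤ L := by
    have h1 : Real.log 64 ≤ L := Real.log_le_log (by norm_num) hyr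
    have h2 : Real.log 64 = 6 * Real.log 2 := by
      rw [show (64 : ℝ) = 2 ^ 6 by norm_num, Real.log_pow]; norm_num
    linarith
  have hL0 : 0 < L := by linarith
  have hκ0 : (0 : ℝ) ≤ κ := Nat.cast_nonneg _
  have hκ3 : (κ : ℝ) ≤ 3 := by exact_mod_cast hκ
  have hG : ∀ j, 1 ≤ j → ∑ l ∈ Pool.Agent.Helper112.LP.Gj j, (1 : ℝ) / l ≤
      Real.log 2 + C0 / 2 ^ j := by
    intro j hj
    have h1 := (abs_le.1 (hM j hj)).2
    linarith
  have hsub : Pd z0 y ⊆ (Icc 1 (JJ y)).biUnion (fun j => Pool.Agent.Helper112.LP.Gj j) := by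
    intro p hp
    obtain ⟨h2, _, h1⟩ := mem_Pd.1 hp
    have h3 : p < 2 ^ 2 ^ JJ y := lt_of_le_of_lt h1 (JJ_lt y)
    have hex : ∃ j, p < 2 ^ 2 ^ j := ⟨_, h3⟩
    set j := Nat.find hex with hj
    have h4 : p < 2 ^ 2 ^ j := Nat.find_spec hex
    have h5 : j ≤ JJ y := Nat.find_min' hex h3
    have h6 : 1 ≤ j := by
      by_contra h
      have h7 : j = 0 := by omega
      rw [h7] at h4
      have := h2.two_le
      norm_num at h4
      omega
    have h7 : 2 ^ 2 ^ (j - 1) ≤ p := by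
      by_contra h
      have := Nat.find_min hex (m := j - 1) (by omega)
      omega
    rw [mem_biUnion]
    refine ⟨j, mem_Icc.2 ⟨h6, h5⟩, ?_⟩
    unfold Pool.Agent.Helper112.LP.Gj
    rw [mem_filter, mem_Ico]
    exact ⟨⟨h7, h4⟩, h2⟩
  have hgeo : ∀ J : ℕ, ∑ j ∈ Icc 1 J, C0 / 2 ^ j ≤ C0 * (1 - 1 / 2 ^ J) := by
    intro J
    induction J with
    | zero => simp
    | succ J ih =>
      rw [sum_Icc_succ_top (by omega)]
      have h1 : C0 * (1 - 1 / 2 ^ (J + 1)) = C0 * (1 - 1 / 2 ^ J) + C0 / 2 ^ (J + 1) := by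
        rw [pow_succ]
        field_simp
        ring
      linarith
  have hsum : ∑ p ∈ Pd z0 y, (1 : ℝ) / p ≤ JJ y * Real.log 2 + C0 := by
    calc ∑ p ∈ Pd z0 y, (1 : ℝ) / p ≤ ∑ p ∈ Pd z0 y, ∑ j ∈ Icc 1 (JJ y),
          (if p ∈ Pool.Agent.Helper112.LP.Gj j then (1 : ℝ) / p else 0) := by
          apply sum_le_sum
          intro p hp
          obtain ⟨j, hj, hpj⟩ := mem_biUnion.1 (hsub hp)
          have h1 := single_le_sum
            (f := fun j => if p ∈ Pool.Agent.Helper112.LP.Gj j then (1 : ℝ) / p else 0)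
            (s := Icc 1 (JJ y)) (fun j _ => by split_ifs <;> positivity) hj
          simp only [if_pos hpj] at h1
          exact h1
      _ ≤ ∑ j ∈ Icc 1 (JJ y), ∑ p ∈ Pool.Agent.Helper112.LP.Gj j, (1 : ℝ) / p := by
          rw [sum_comm]
          apply sum_le_sum
          intro j _
          rw [← sum_filter]
          apply sum_le_sum_of_subset_of_nonneg
          · intro p hp
            exact (mem_filter.1 hp).2
          · intro _ _ _
            positivity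
      _ ≤ ∑ j ∈ Icc 1 (JJ y), (Real.log 2 + C0 / 2 ^ j) :=
          sum_le_sum fun j hj => hG j (mem_Icc.1 hj).1
      _ ≤ _ := by
          rw [sum_add_distrib, sum_const, nsmul_eq_mul, Nat.card_Icc, Nat.add_sub_cancel]
          have h1 := hgeo (JJ y)
          have h2 : C0 * (1 - 1 / 2 ^ (JJ y)) ≤ C0 := by
            have : 0 ≤ C0 * (1 / 2 ^ (JJ y)) := by positivity
            linarith
          linarith
  have hsq : ∑ p ∈ Pd z0 y, 1 / (p : ℝ) ^ 2 ≤ 1 := by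
    have h1 := sum_sq_le z0 y (by omega) (Pd z0 y) (by
      intro p hp
      obtain ⟨_, h2, h3⟩ := mem_Pd.1 hp
      exact mem_Ioc.2 ⟨h2, h3⟩)
    have h2 : (1 : ℝ) / z0 ≤ 1 := by
      rw [div_le_one (by exact_mod_cast (by omega : 0 < z0))]
      exact_mod_cast (by omega : 1 ≤ z0)
    linarith
  -- the product
  have hV : Real.exp (-(κ * ∑ p ∈ Pd z0 y, (1 : ℝ) / p + (κ : ℝ) ^ 2 * ∑ p ∈ Pd z0 y, 1 / (p : ℝ) ^ 2)) ≤
      ∏ p ∈ Pd z0 y, (1 - g p) := by
    rw [mul_sum, mul_sum, ← sum_add_distrib, ← sum_neg_distrib, Real.exp_sum]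
    apply prod_le_prod (fun _ _ => (Real.exp_pos _).le)
    intro p hp
    have hp7 : (7 : ℝ) ≤ p := by
      have := (mem_Pd.1 hp).2.1
      exact_mod_cast (by omega : 7 ≤ p)
    have hp0 : (0 : ℝ) < p := by linarith
    have hgp := hg p hp
    have ht : (κ : ℝ) / p ≤ 1 / 2 := by
      rw [div_le_div_iff₀ hp0 (by norm_num)]
      linarith
    have ht0 : 0 ≤ (κ : ℝ) / p := by positivity
    set x := (κ : ℝ) / p with hx
    have e1 : (κ : ℝ) * (1 / p) + (κ : ℝ) ^ 2 * (1 / (p : ℝ) ^ 2) = x + x ^ 2 := by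
      rw [hx]; ring
    rw [e1]
    have h1 : 0 < 1 - x := by linarith
    refine le_trans ?_ (show 1 - x ≤ 1 - g p by linarith)
    rw [← Real.le_log_iff_exp_le h1]
    have h2 := Real.one_sub_inv_le_log_of_pos h1
    -- log (1 - x) >= -x - x^2
    have h3 := Real.abs_log_sub_add_sum_range_le (x := x) (by rw [abs_of_nonneg ht0]; linarith) 1
    rw [sum_range_one] at h3
    norm_num at h3
    rw [abs_of_nonneg ht0] at h3
    have h4 := (abs_le.1 h3).1
    have h5 : x ^ 2 / (1 - x) ≤ 2 * x ^ 2 := by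
      rw [div_le_iff₀ h1]
      nlinarith [sq_nonneg x]
    by_cases hx0 : x ≤ 1 / 4
    · have h7 := Real.one_sub_inv_le_log_of_pos h1
      -- use the cubic bound
      have h6 := Real.abs_log_sub_add_sum_range_le (x := x) (by rw [abs_of_nonneg ht0]; linarith) 2
      rw [sum_range_succ, sum_range_one] at h6
      norm_num at h6
      rw [abs_of_nonneg ht0] at h6
      have h8 := (abs_le.1 h6).1
      have h9 : x ^ 3 / (1 - x) ≤ x ^ 2 / 3 := by
        rw [div_le_iff₀ h1]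
        nlinarith [sq_nonneg x, mul_nonneg ht0 (sq_nonneg x)]
      nlinarith [sq_nonneg x]
    · push Not at hx0
      -- x in (1/4, 1/2]
      have h6 := Real.abs_log_sub_add_sum_range_le (x := x) (by rw [abs_of_nonneg ht0]; linarith) 4
      rw [sum_range_succ, sum_range_succ, sum_range_succ, sum_range_one] at h6
      norm_num at h6
      rw [abs_of_nonneg ht0] at h6
      have h8 := (abs_le.1 h6).1
      have h9 : x ^ 5 / (1 - x) ≤ 2 * x ^ 5 := by
        rw [div_le_iff₀ h1]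
        have : 0 ≤ x ^ 5 := by positivity
        nlinarith
      have hx2 : 0 ≤ x ^ 2 := sq_nonneg x
      have hx3 : x ^ 3 ≤ x ^ 2 / 2 := by nlinarith
      have hx4 : x ^ 4 ≤ x ^ 2 / 4 := by nlinarith
      have hx5 : x ^ 5 ≤ x ^ 2 / 8 := by
        have : x ^ 5 = x ^ 4 * x := by ring
        nlinarith
      linarith
  have h2J : (2 : ℝ) ^ JJ y ≤ 4 * L := by
    have h1 : ((2 ^ JJ y : ℕ) : ℝ) ≤ ((2 * Nat.log 2 y : ℕ) : ℝ) := by exact_mod_cast JJ_pow y hy2
    push_cast at h1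
    have h2 : (Nat.log 2 y : ℝ) * Real.log 2 ≤ L := by
      have h3 : (2 : ℝ) ^ Nat.log 2 y ≤ y := by
        exact_mod_cast Nat.pow_log_le_self 2 (by omega : y ≠ 0)
      have h4 := Real.log_le_log (by positivity) h3
      rwa [Real.log_pow] at h4
    have h3 : (0 : ℝ) ≤ Nat.log 2 y := Nat.cast_nonneg _
    nlinarith
  have hJ : (JJ y : ℝ) * Real.log 2 ≤ Real.log (4 * L) := by
    have := Real.log_le_log (by positivity) h2J
    rwa [Real.log_pow] at this
  refine le_trans ?_ hV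
  have e : Real.exp (-(κ * C0 + (κ : ℝ) ^ 2)) / 4 ^ κ / L ^ κ =
      Real.exp (-(κ * (Real.log (4 * L) + C0) + (κ : ℝ) ^ 2)) := by
    have h1 : -(κ * (Real.log (4 * L) + C0) + (κ : ℝ) ^ 2) =
        -(κ * C0 + (κ : ℝ) ^ 2) - κ * Real.log (4 * L) := by ring
    rw [h1, Real.exp_sub, ← Real.log_pow, Real.exp_log (by positivity), mul_pow, div_div]
  rw [e]
  apply Real.exp_le_exp.2
  have h1 : (κ : ℝ) * ∑ p ∈ Pd z0 y, (1 : ℝ) / p ≤ κ * (Real.log (4 * L) + C0) :=
    mul_le_mul_of_nonneg_left (by linarith) hκ0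
  have h2 : (κ : ℝ) ^ 2 * ∑ p ∈ Pd z0 y, 1 / (p : ℝ) ^ 2 ≤ (κ : ℝ) ^ 2 * 1 :=
    mul_le_mul_of_nonneg_left hsq (by positivity)
  linarith

end Pool.Agent.V7H99.LG
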