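import Mathlib
import Pool.Agent.V7H99.LG.S2
import Pool.Agent.V7H99.LG.S3
import Pool.Agent.V7H99.CD.Pr

set_option autoImplicit false

/-! The number of good values, numerical form. -/

namespace Pool.Agent.V7H99.LG
open Finset
open Pool.Agent.V7H99.CD (Pd mem_Pd nu nu_le ev_nat_pow_log)

open Classical in
theorem good_num (κ : ℕ) (hκ : κ ≤ 3) : ∃ (C0 E : ℕ) (c : ℝ), 72 ≤ C0 ∧ 0 < c ∧ ∀ K : ℕ, ∃ y0 : ℕ,
    64 ≤ y0 ∧ ∀ z0 y V R : ℕ, C0 ≤ z0 → z0 ≤ y → y0 ≤ y → y ^ (E + 3) ≤ V → R * y ≤ V →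
    ∀ (I : Finset (Fin 3)), I.card ≤ κ → ∀ α β : Fin 3 → ℕ, Ok z0 α β → (∀ i, 1 ≤ α i) →
    (∀ i, ∀ k ≤ V, α i + β i * k < (R + 1) ^ 2) →
    ∀ Q : Finset ℕ, (∀ p ∈ Q, p.Prime ∧ y < p) → Q.card ≤ K →
    c * V / Real.log y ^ κ ≤
      (((Icc 1 V).filter (fun k => (∀ p ∈ Pd z0 y, ¬ hitI z0 I α β p k) ∧
        (∀ p : ℕ, p.Prime → z0 < p → ∀ i, ¬ p ^ 2 ∣ α i + β i * k) ∧
        ∀ p ∈ Q, ¬ p ∣ α 0 + β 0 * k)).card : ℝ) := by
  obtain ⟨C0, E, hC0, hG⟩ := good_count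
  obtain ⟨c1, hc1, hP⟩ := prod_one κ hκ
  refine ⟨max C0 72, E, c1 / 4, le_max_right _ _, by positivity, fun K => ?_⟩
  obtain ⟨N0, hN0⟩ := ev_nat_pow_log κ (8 * (10 + 2 * K) / c1)
  refine ⟨max N0 64, le_max_right _ _, ?_⟩
  intro z0 y V R hz0 hzy hy hV hR I hI α β hOk hα hF Q hQ hQK
  have hy64 : 64 ≤ y := (le_max_right _ _).trans hy
  have hyN : N0 ≤ y := (le_max_left _ _).trans hy
  have hz72 : 72 ≤ z0 := (le_max_right _ _).trans hz0
  have h1 := hG z0 y V R ((le_max_left _ _).trans hz0) hz72 hzy I α β hOk hα hF Q hQ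
  have h2 := hP y hy64 z0 (by omega) (fun p => (nu (hitI z0 I α β) p : ℝ) / p) (by
    intro p hp
    apply div_le_div_of_nonneg_right _ (Nat.cast_nonneg _)
    exact_mod_cast (nu_hitI I hOk p (mem_Pd.1 hp).1).trans hI)
  have h3 := hN0 y hyN
  have hyr : (64 : ℝ) ≤ y := by exact_mod_cast hy64
  have hy0 : (0 : ℝ) < y := by linarith
  have hy1 : (1 : ℝ) ≤ y := by linarith
  have hL : 0 < Real.log y := Real.log_pos (by linarith)
  have hLκ : 0 < Real.log y ^ κ := pow_pos hL κ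
  have hVr : (y : ℝ) ^ (E + 3) ≤ V := by exact_mod_cast hV
  have hV0 : (0 : ℝ) ≤ V := Nat.cast_nonneg _
  have hRr : (R : ℝ) * y ≤ V := by exact_mod_cast hR
  have hKr : (Q.card : ℝ) ≤ K := by exact_mod_cast hQK
  have hK0 : (0 : ℝ) ≤ K := Nat.cast_nonneg _
  -- the errors
  have e1 : (1 + 3 * (y : ℝ)) * (y : ℝ) ^ E ≤ 4 * (V / y) := by
    rw [← mul_div_assoc, le_div_iff₀ hy0]
    calc (1 + 3 * (y : ℝ)) * (y : ℝ) ^ E * y ≤ (4 * y) * (y : ℝ) ^ E * y := by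
          apply mul_le_mul_of_nonneg_right _ hy0.le
          apply mul_le_mul_of_nonneg_right _ (by positivity)
          linarith
      _ = 4 * (y : ℝ) ^ (E + 2) := by ring
      _ ≤ 4 * (y : ℝ) ^ (E + 3) := by
          apply mul_le_mul_of_nonneg_left _ (by norm_num)
          exact pow_le_pow_right₀ hy1 (by omega)
      _ ≤ 4 * V := by linarith
  have e2 : (R : ℝ) ≤ V / y := by rwa [le_div_iff₀ hy0]
  have e3 : (1 : ℝ) ≤ V / y := by
    rw [le_div_iff₀ hy0, one_mul]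
    calc (y : ℝ) = (y : ℝ) ^ 1 := (pow_one _).symm
      _ ≤ (y : ℝ) ^ (E + 3) := pow_le_pow_right₀ hy1 (by omega)
      _ ≤ V := hVr
  have e4 : (Q.card : ℝ) * (V / y + 1) ≤ K * (2 * (V / y)) := by
    apply mul_le_mul hKr _ (by positivity) hK0
    linarith
  have e5 : (10 + 2 * (K : ℝ)) * (V / y) ≤ 1 / 8 * (c1 * V / Real.log y ^ κ) := by
    rw [← mul_div_assoc, ← mul_div_assoc, div_le_div_iff₀ hy0 hLκ]
    have h4 : 8 * (10 + 2 * (K : ℝ)) * Real.log y ^ κ ≤ c1 * y := by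
      have h5 : 8 * (10 + 2 * (K : ℝ)) * Real.log y ^ κ =
          c1 * (8 * (10 + 2 * K) / c1 * Real.log y ^ κ) := by field_simp
      rw [h5]
      exact mul_le_mul_of_nonneg_left h3 hc1.le
    nlinarith
  have e6 : c1 * V / Real.log y ^ κ ≤
      V * ∏ p ∈ Pd z0 y, (1 - (nu (hitI z0 I α β) p : ℝ) / p) := by
    have : c1 * V / Real.log y ^ κ = V * (c1 / Real.log y ^ κ) := by ring
    rw [this]
    exact mul_le_mul_of_nonneg_left h2 hV0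
  have e7 : c1 / 4 * V / Real.log y ^ κ = 1 / 4 * (c1 * V / Real.log y ^ κ) := by ring
  rw [e7]
  refine le_trans ?_ h1
  have e8 : 3 * (V : ℝ) / y = 3 * (V / y) := by ring
  rw [e8]
  linarith

end Pool.Agent.V7H99.LG
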