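import Mathlib
import Pool.Agent.V7H99.LG.S2

set_option autoImplicit false

/-! The three linear forms attached to the parameters. -/

namespace Pool.Agent.V7H99.LG
open Finset

/-- the base point of the progression -/
structure Base (z0 y W A B c f t κ : ℕ) : Prop where
  hz : 2 ≤ z0
  hW : ∀ p, p.Prime → (p ∣ W ↔ p ≤ z0)
  hA : ∀ p, p.Prime → p ∣ A → p ≤ y
  hc : ∀ p, p.Prime → p ∣ c → p ≤ y
  hf : ∀ p, p.Prime → p ∣ f → p ≤ y
  hAB : A.Coprime B
  hAc : A.Coprime c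
  hAf : A.Coprime f
  hBc : B.Coprime c
  hBf : B.Coprime f
  hcf : c.Coprime f
  hcW : c.Coprime W
  hfW : f.Coprime W
  hc0 : 0 < c
  hf0 : 0 < f
  ht : ∀ p, p.Prime → p ∣ t → y < p
  k1 : A * κ ≡ B * t [MOD c ^ 2]
  k2 : f ^ 2 ∣ A * κ + B * t
  pos : B * t < A * κ

/-- constant coefficients -/
def al (A B c f t κ : ℕ) (i : Fin 3) : ℕ :=
  if i = 0 then κ else if i = 1 then (A * κ - B * t) / c ^ 2 else (A * κ + B * t) / f ^ 2

/-- linear coefficients -/
def be (W A c f : ℕ) (i : Fin 3) : ℕ :=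
  if i = 0 then c ^ 2 * f ^ 2 * W else if i = 1 then A * f ^ 2 * W else A * c ^ 2 * W

section
variable {z0 y W A B c f t κ : ℕ}

lemma al_zero : al A B c f t κ 0 = κ := by simp [al]
lemma be_zero : be W A c f 0 = c ^ 2 * f ^ 2 * W := by simp [be]
lemma al_one : al A B c f t κ 1 = (A * κ - B * t) / c ^ 2 := by simp [al]
lemma be_one : be W A c f 1 = A * f ^ 2 * W := by simp [be]
lemma al_two : al A B c f t κ 2 = (A * κ + B * t) / f ^ 2 := by simp [al]
lemma be_two : be W A c f 2 = A * c ^ 2 * W := by simp [be]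

lemma Base.one (h : Base z0 y W A B c f t κ) : c ^ 2 * al A B c f t κ 1 + B * t = A * κ := by
  rw [al_one, Nat.mul_div_cancel']
  · have := h.pos
    omega
  · exact (Nat.modEq_iff_dvd' h.pos.le).1 h.k1.symm

lemma Base.two (h : Base z0 y W A B c f t κ) : f ^ 2 * al A B c f t κ 2 = A * κ + B * t := by
  rw [al_two, Nat.mul_div_cancel' h.k2]

/-- the first relation for all `k` -/
lemma Base.one' (h : Base z0 y W A B c f t κ) (k : ℕ) :
    c ^ 2 * (al A B c f t κ 1 + be W A c f 1 * k) + B * t =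
      A * (al A B c f t κ 0 + be W A c f 0 * k) := by
  have h1 := h.one
  rw [al_zero, be_zero, be_one]
  calc c ^ 2 * (al A B c f t κ 1 + A * f ^ 2 * W * k) + B * t =
      (c ^ 2 * al A B c f t κ 1 + B * t) + c ^ 2 * (A * f ^ 2 * W * k) := by ring
    _ = A * κ + c ^ 2 * (A * f ^ 2 * W * k) := by rw [h1]
    _ = _ := by ring

lemma Base.two' (h : Base z0 y W A B c f t κ) (k : ℕ) :
    f ^ 2 * (al A B c f t κ 2 + be W A c f 2 * k) =
      A * (al A B c f t κ 0 + be W A c f 0 * k) + B * t := by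
  have h1 := h.two
  rw [al_zero, be_zero, be_two]
  calc f ^ 2 * (al A B c f t κ 2 + A * c ^ 2 * W * k) =
      f ^ 2 * al A B c f t κ 2 + f ^ 2 * (A * c ^ 2 * W * k) := by ring
    _ = A * κ + B * t + f ^ 2 * (A * c ^ 2 * W * k) := by rw [h1]
    _ = _ := by ring

lemma Base.notBt (h : Base z0 y W A B c f t κ) {p : ℕ} (hp : p.Prime) (hpy : p ≤ y)
    (hpB : ¬ p ∣ B) : ¬ p ∣ B * t := by
  intro hd
  rcases (Nat.Prime.dvd_mul hp).1 hd with h1 | h1
  · exact hpB h1
  · have := h.ht p hp h1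
    omega

lemma cop_not {p m n : ℕ} (hp : p.Prime) (hc : m.Coprime n) (hm : p ∣ m) : ¬ p ∣ n := by
  intro hn
  have := Nat.dvd_gcd hm hn
  rw [hc] at this
  exact hp.one_lt.ne' (Nat.dvd_one.1 this)

lemma Base.ok (h : Base z0 y W A B c f t κ) : Ok z0 (al A B c f t κ) (be W A c f) := by
  intro i p hp hpz
  have hpW : ¬ p ∣ W := fun hd => by have := (h.hW p hp).1 hd; omega
  have hp2 : ¬ p ∣ 2 := fun hd => by
    have := Nat.le_of_dvd (by norm_num) hd
    have := h.hz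
    omega
  have h1 := h.one
  have h2 := h.two
  have kc : p ∣ c → p ∣ A * κ → False := fun hpc hpA => by
    have hn : ¬ p ∣ B * t := h.notBt hp (h.hc p hp hpc) (cop_not hp h.hBc.symm hpc)
    have h3 : p ∣ c ^ 2 * al A B c f t κ 1 := (dvd_pow hpc two_ne_zero).mul_right _
    rw [← h1] at hpA
    exact hn ((Nat.dvd_add_right h3).1 hpA)
  have kf : p ∣ f → p ∣ A * κ → False := fun hpf hpA => by
    have hn : ¬ p ∣ B * t := h.notBt hp (h.hf p hp hpf) (cop_not hp h.hBf.symm hpf)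
    have h3 : p ∣ f ^ 2 * al A B c f t κ 2 := (dvd_pow hpf two_ne_zero).mul_right _
    rw [h2] at h3
    exact hn ((Nat.dvd_add_right hpA).1 h3)
  -- both p | A κ + B t and p | A κ - B t
  have both : ∀ m : ℕ, p ∣ A * κ + B * t → A * κ = m + B * t → p ∣ m → p ≤ y → ¬ p ∣ B → False := by
    intro m hs hm hpm hpy hpB
    have hn : ¬ p ∣ B * t := h.notBt hp hpy hpB
    rw [hm, add_assoc] at hs
    have h3 := (Nat.dvd_add_right hpm).1 hs
    rw [← two_mul] at h3
    rcases (Nat.Prime.dvd_mul hp).1 h3 with h4 | h4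
    · exact hp2 h4
    · exact hn h4
  fin_cases i
  · show p ∣ be W A c f 0 → ¬ p ∣ al A B c f t κ 0
    rw [al_zero, be_zero]
    intro hb ha
    rcases (Nat.Prime.dvd_mul hp).1 hb with hb | hb
    · rcases (Nat.Prime.dvd_mul hp).1 hb with hb | hb
      · exact kc (hp.dvd_of_dvd_pow hb) (ha.mul_left _)
      · exact kf (hp.dvd_of_dvd_pow hb) (ha.mul_left _)
    · exact hpW hb
  · show p ∣ be W A c f 1 → ¬ p ∣ al A B c f t κ 1
    rw [be_one]
    intro hb ha
    rcases (Nat.Prime.dvd_mul hp).1 hb with hb | hb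
    · rcases (Nat.Prime.dvd_mul hp).1 hb with hb | hb
      · have hn : ¬ p ∣ B * t := h.notBt hp (h.hA p hp hb) (cop_not hp h.hAB hb)
        have h3 : p ∣ c ^ 2 * al A B c f t κ 1 + B * t := by rw [h1]; exact hb.mul_right _
        exact hn ((Nat.dvd_add_right (ha.mul_left _)).1 h3)
      · have hpf := hp.dvd_of_dvd_pow hb
        refine both (c ^ 2 * al A B c f t κ 1) ?_ h1.symm (ha.mul_left _) (h.hf p hp hpf)
          (cop_not hp h.hBf.symm hpf)
        rw [← h2]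
        exact hb.mul_right _
    · exact hpW hb
  · show p ∣ be W A c f 2 → ¬ p ∣ al A B c f t κ 2
    rw [be_two]
    intro hb ha
    rcases (Nat.Prime.dvd_mul hp).1 hb with hb | hb
    · rcases (Nat.Prime.dvd_mul hp).1 hb with hb | hb
      · have hn : ¬ p ∣ B * t := h.notBt hp (h.hA p hp hb) (cop_not hp h.hAB hb)
        have h3 : p ∣ A * κ + B * t := by rw [← h2]; exact ha.mul_left _
        exact hn ((Nat.dvd_add_right (hb.mul_right _)).1 h3)
      · have hpc := hp.dvd_of_dvd_pow hb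
        refine both (c ^ 2 * al A B c f t κ 1) ?_ h1.symm (hb.mul_right _) (h.hc p hp hpc)
          (cop_not hp h.hBc.symm hpc)
        rw [← h2]
        exact ha.mul_left _
    · exact hpW hb

lemma Base.al_pos (h : Base z0 y W A B c f t κ) (i : Fin 3) : 1 ≤ al A B c f t κ i := by
  have h1 := h.one
  have h2 := h.two
  have h3 := h.pos
  fin_cases i
  · show 1 ≤ al A B c f t κ 0
    rw [al_zero]
    by_contra hc
    have : κ = 0 := by omega
    rw [this, mul_zero] at h3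
    omega
  · show 1 ≤ al A B c f t κ 1
    by_contra hc
    have : al A B c f t κ 1 = 0 := by omega
    rw [this, mul_zero] at h1
    omega
  · show 1 ≤ al A B c f t κ 2
    by_contra hc
    have : al A B c f t κ 2 = 0 := by omega
    rw [this, mul_zero] at h2
    omega

/-- the values of the forms are bounded by `A s + B t` -/
lemma Base.le (h : Base z0 y W A B c f t κ) (hA : 0 < A) (i : Fin 3) (k : ℕ) :
    al A B c f t κ i + be W A c f i * k ≤ A * (al A B c f t κ 0 + be W A c f 0 * k) + B * t := by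
  have h1 := h.one' k
  have h2 := h.two' k
  have hc : 1 ≤ c ^ 2 := Nat.pow_pos h.hc0
  have hf : 1 ≤ f ^ 2 := Nat.pow_pos h.hf0
  fin_cases i
  · show al A B c f t κ 0 + be W A c f 0 * k ≤ _
    have := Nat.le_mul_of_pos_left (al A B c f t κ 0 + be W A c f 0 * k) hA
    omega
  · show al A B c f t κ 1 + be W A c f 1 * k ≤ _
    have := Nat.le_mul_of_pos_left (al A B c f t κ 1 + be W A c f 1 * k) hc
    omega
  · show al A B c f t κ 2 + be W A c f 2 * k ≤ _
    have := Nat.le_mul_of_pos_left (al A B c f t κ 2 + be W A c f 2 * k) hf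
    omega

end

/-- existence of the base point -/
lemma exists_kappa {W A B c f : ℕ} (hA : A.Coprime c) (hAf : A.Coprime f) (hcf : c.Coprime f)
    (hcW : c.Coprime W) (hfW : f.Coprime W) (hc0 : 0 < c) (hf0 : 0 < f) (hW0 : 0 < W)
    (t σ S : ℕ) : ∃ κ, S ≤ κ ∧ κ < S + c ^ 2 * f ^ 2 * W ∧ κ ≡ σ [MOD W] ∧
      A * κ ≡ B * t [MOD c ^ 2] ∧ f ^ 2 ∣ A * κ + B * t := by
  -- solutions of the two linear congruences
  have sol : ∀ m r : ℕ, 0 < m → A.Coprime m → ∃ x, A * x ≡ r [MOD m] := by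
    intro m r hm hAm
    rcases Nat.lt_or_ge 1 m with h1 | h1
    · obtain ⟨x, hx⟩ := Nat.exists_mul_mod_eq_one_of_coprime hAm h1
      refine ⟨x * r, ?_⟩
      have h2 : A * x ≡ 1 [MOD m] := by
        show A * x % m = 1 % m
        rw [hx.2, Nat.mod_eq_of_lt h1]
      have h3 := h2.mul_right r
      rw [one_mul, mul_assoc] at h3
      exact h3
    · have : m = 1 := by omega
      subst this
      exact ⟨0, Nat.modEq_one⟩
  have hc2 : 0 < c ^ 2 := Nat.pow_pos hc0
  have hf2 : 0 < f ^ 2 := Nat.pow_pos hf0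
  obtain ⟨x1, hx1⟩ := sol (c ^ 2) (B * t) hc2 (hA.pow_right 2)
  obtain ⟨x2, hx2⟩ := sol (f ^ 2) ((f ^ 2 - 1) * (B * t)) hf2 (hAf.pow_right 2)
  have co1 : (c ^ 2).Coprime (f ^ 2) := Nat.Coprime.pow 2 2 hcf
  have co2 : (c ^ 2 * f ^ 2).Coprime W :=
    Nat.Coprime.mul_left (hcW.pow_left 2) (hfW.pow_left 2)
  obtain ⟨x3, hx3⟩ := Nat.chineseRemainder co1 x1 x2
  obtain ⟨x4, hx4⟩ := Nat.chineseRemainder co2 x3 σ
  set q := c ^ 2 * f ^ 2 * W with hq
  have hq0 : 0 < q := by positivity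
  set κ := S + (x4 + (q - 1) * S) % q with hκ
  have hκq : κ ≡ x4 [MOD q] := by
    have h1 : κ ≡ S + (x4 + (q - 1) * S) [MOD q] := Nat.ModEq.add_left _ (Nat.mod_modEq _ _)
    have h2 : S + (x4 + (q - 1) * S) = x4 + q * S := by
      obtain ⟨q', hq'⟩ : ∃ q', q = q' + 1 := ⟨q - 1, by omega⟩
      rw [hq', Nat.add_sub_cancel]
      ring
    rw [h2] at h1
    exact h1.trans (Nat.ModEq.add_left _ (Nat.modEq_zero_iff_dvd.2 (dvd_mul_right _ _)))
  have hκcf : κ ≡ x3 [MOD c ^ 2 * f ^ 2] :=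
    (hκq.of_dvd (dvd_mul_right _ _)).trans hx4.1
  have hκc : κ ≡ x1 [MOD c ^ 2] := (hκcf.of_dvd (dvd_mul_right _ _)).trans hx3.1
  have hκf : κ ≡ x2 [MOD f ^ 2] := (hκcf.of_dvd (dvd_mul_left _ _)).trans hx3.2
  refine ⟨κ, Nat.le_add_right _ _, ?_, ?_, ?_, ?_⟩
  · have := Nat.mod_lt (x4 + (q - 1) * S) hq0
    omega
  · exact (hκq.of_dvd (dvd_mul_left _ _)).trans hx4.2
  · exact (hκc.mul_left A).trans hx1
  · rw [← Nat.modEq_zero_iff_dvd]
    have h1 : A * κ + B * t ≡ (f ^ 2 - 1) * (B * t) + B * t [MOD f ^ 2] :=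
      Nat.ModEq.add_right _ ((hκf.mul_left A).trans hx2)
    have h2 : (f ^ 2 - 1) * (B * t) + B * t = f ^ 2 * (B * t) := by
      obtain ⟨q', hq'⟩ : ∃ q', f ^ 2 = q' + 1 := ⟨f ^ 2 - 1, by omega⟩
      rw [hq', Nat.add_sub_cancel]
      ring
    rw [h2] at h1
    exact h1.trans (Nat.modEq_zero_iff_dvd.2 (dvd_mul_right _ _))

end Pool.Agent.V7H99.LG
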