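import Mathlib
import Pool.Agent.V7H99.CD.Fam

set_option autoImplicit false

/-! Arithmetic of the numbers `n = (g s₁ s) (t₁ t) d e`. -/

namespace Pool.Agent.V7H99.LG
open Pool.Agent.V7H99.CD (Cong)

/-- `n w² = u v (u - v) (u + v)` makes `n` congruent -/
lemma cong_of {n w u v m l : ℕ} (hn : 0 < n) (hw : 0 < w) (hv : 0 < v) (hm : m + v = u)
    (hl : l = u + v) (h : n * w ^ 2 = u * v * m * l) : Cong n := by
  have hm0 : 0 < m := by
    rcases Nat.eq_zero_or_pos m with h0 | h0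
    · exfalso
      rw [h0] at h
      simp at h
      omega
    · exact h0
  have hw0 : (0 : ℚ) < w := by exact_mod_cast hw
  have hv0 : (0 : ℚ) < v := by exact_mod_cast hv
  have hmq : (0 : ℚ) < m := by exact_mod_cast hm0
  have hu : (u : ℚ) = m + v := by rw [← hm]; push_cast; ring
  have hlq : (l : ℚ) = u + v := by rw [hl]; push_cast; ring
  have hq : (n : ℚ) * (w : ℚ) ^ 2 = u * v * m * l := by exact_mod_cast h
  refine ⟨m * l / w, 2 * u * v / w, ((u : ℚ) ^ 2 + (v : ℚ) ^ 2) / w, ?_, ?_, ?_, ?_, ?_⟩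
  · rw [hlq, hu]; positivity
  · rw [hu]; positivity
  · rw [hu]; positivity
  · rw [hlq]
    have : (m : ℚ) = u - v := by rw [hu]; ring
    rw [this]
    field_simp
    ring
  · have h2 : (n : ℚ) = u * v * m * l / (w : ℚ) ^ 2 := by
      rw [← hq]; field_simp
    rw [h2]
    field_simp

/-- coprimality of the four factors -/
lemma four_cop {u v d e c f : ℕ} (huv : u.Coprime v) (hu2 : 2 ∣ u) (h1 : c ^ 2 * d + v = u)
    (h2 : f ^ 2 * e = u + v) :
    d.Coprime u ∧ d.Coprime v ∧ e.Coprime u ∧ e.Coprime v ∧ d.Coprime e := by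
  have key : ∀ p : ℕ, p.Prime → p ∣ u → ¬ p ∣ v := fun p hp hpu hpv => by
    have := Nat.dvd_gcd hpu hpv
    rw [huv] at this
    exact hp.one_lt.ne' (Nat.dvd_one.1 this)
  have du : d.Coprime u := by
    apply Nat.Coprime.symm
    apply Nat.coprime_of_dvd
    intro p hp hpu hpd
    have h3 : p ∣ c ^ 2 * d + v := by rw [h1]; exact hpu
    exact key p hp hpu ((Nat.dvd_add_right (hpd.mul_left _)).1 h3)
  have dv : d.Coprime v := by
    apply Nat.coprime_of_dvd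
    intro p hp hpd hpv
    have h3 : p ∣ u := by rw [← h1]; exact dvd_add (hpd.mul_left _) hpv
    exact key p hp h3 hpv
  have eu : e.Coprime u := by
    apply Nat.coprime_of_dvd
    intro p hp hpe hpu
    have h3 : p ∣ u + v := by rw [← h2]; exact hpe.mul_left _
    exact key p hp hpu ((Nat.dvd_add_right hpu).1 h3)
  have ev : e.Coprime v := by
    apply Nat.coprime_of_dvd
    intro p hp hpe hpv
    have h3 : p ∣ u + v := by rw [← h2]; exact hpe.mul_left _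
    exact key p hp ((Nat.dvd_add_left hpv).1 h3) hpv
  refine ⟨du, dv, eu, ev, ?_⟩
  apply Nat.coprime_of_dvd
  intro p hp hpd hpe
  have hp2 : p ≠ 2 := by
    rintro rfl
    have := Nat.dvd_gcd hpd hu2
    rw [du] at this
    norm_num at this
  have h3 : p ∣ c ^ 2 * d + (v + v) := by
    have h4 : p ∣ u + v := by rw [← h2]; exact hpe.mul_left _
    rw [← h1, add_assoc] at h4
    exact h4
  have h5 := (Nat.dvd_add_right (hpd.mul_left (c ^ 2))).1 h3
  rw [← two_mul] at h5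
  rcases (Nat.Prime.dvd_mul hp).1 h5 with h6 | h6
  · exact hp2 ((Nat.prime_dvd_prime_iff_eq hp Nat.prime_two).1 h6)
  · have := Nat.dvd_gcd hpd h6
    rw [dv] at this
    exact hp.one_lt.ne' (Nat.dvd_one.1 this)

/-- hypotheses on the small parameters -/
structure Sm (z0 y g W a b c f s1 t1 : ℕ) : Prop where
  hz : 2 ≤ z0
  hzy : z0 ≤ y
  hW0 : 0 < W
  hW : ∀ p, p.Prime → (p ∣ W ↔ p ≤ z0)
  hg : Squarefree g
  hgW : g ∣ W
  ma : a ≡ 1 [MOD W]
  mb : b ≡ 1 [MOD W]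
  mc : c ≡ 1 [MOD W]
  mf : f ≡ 1 [MOD W]
  ms : s1 ≡ 1 [MOD W]
  mt : t1 ≡ 1 [MOD W]
  a0 : 0 < a
  b0 : 0 < b
  c0 : 0 < c
  f0 : 0 < f
  s0 : 0 < s1
  t0 : 0 < t1
  ay : a ≤ y
  byy : b ≤ y
  cy : c ≤ y
  fy : f ≤ y
  sy : s1 ≤ y
  ty : t1 ≤ y
  ab : a.Coprime b
  ac : a.Coprime c
  af : a.Coprime f
  at1 : a.Coprime t1
  bc : b.Coprime c
  bf : b.Coprime f
  bs : b.Coprime s1
  cf : c.Coprime f
  cs : c.Coprime s1
  ct : c.Coprime t1
  fs : f.Coprime s1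
  ft : f.Coprime t1
  st : s1.Coprime t1
  sqs : Squarefree s1
  sqt : Squarefree t1

lemma cop_of_mod {a W : ℕ} (h : a ≡ 1 [MOD W]) : a.Coprime W := by
  have := h.gcd_eq
  rw [Nat.gcd_one_left] at this
  exact this

/-- numbers all of whose prime factors exceed `y` -/
def Rgh (y t : ℕ) : Prop := ∀ p, p.Prime → p ∣ t → y < p

lemma Rgh.cop {y t m : ℕ} (h : Rgh y t) (hm0 : 0 < m) (hm : m ≤ y) : t.Coprime m := by
  apply Nat.coprime_of_dvd
  intro p hp hpt hpm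
  have h1 := h p hp hpt
  have h2 := Nat.le_of_dvd hm0 hpm
  omega

section
variable {z0 y g W a b c f s1 t1 s t d e : ℕ}

lemma Sm.two_dvd (h : Sm z0 y g W a b c f s1 t1) : 2 ∣ W := (h.hW 2 Nat.prime_two).2 h.hz

lemma Sm.rcop (h : Sm z0 y g W a b c f s1 t1) (ht : Rgh y t) : t.Coprime W := by
  apply Nat.coprime_of_dvd
  intro p hp hpt hpW
  have h1 := ht p hp hpt
  have h2 := (h.hW p hp).1 hpW
  have := h.hzy
  omega

lemma Sm.gcop (h : Sm z0 y g W a b c f s1 t1) {m : ℕ} (hm : m.Coprime W) : m.Coprime g :=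
  Nat.Coprime.coprime_dvd_right h.hgW hm

lemma Sm.uv (h : Sm z0 y g W a b c f s1 t1) (hs : Rgh y s) (ht : Rgh y t) (hst : s.Coprime t) :
    (g * W ^ 2 * a ^ 2 * s1 * s).Coprime (b ^ 2 * t1 * t) := by
  have ca := cop_of_mod h.ma
  have cb := cop_of_mod h.mb
  have cs := cop_of_mod h.ms
  have ct := cop_of_mod h.mt
  have ctW := h.rcop ht
  have bW : (b ^ 2 * t1 * t).Coprime W :=
    Nat.Coprime.mul_left (Nat.Coprime.mul_left (cb.pow_left 2) ct) ctW
  have e1 : (b ^ 2 * t1 * t).Coprime (g * W ^ 2) :=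
    Nat.Coprime.mul_right (h.gcop bW) (bW.pow_right 2)
  have e2 : (b ^ 2 * t1 * t).Coprime a :=
    Nat.Coprime.mul_left (Nat.Coprime.mul_left (h.ab.symm.pow_left 2) h.at1.symm)
      (ht.cop h.a0 h.ay)
  have e3 : (b ^ 2 * t1 * t).Coprime s1 :=
    Nat.Coprime.mul_left (Nat.Coprime.mul_left (h.bs.pow_left 2) h.st.symm)
      (ht.cop h.s0 h.sy)
  have e4 : (b ^ 2 * t1 * t).Coprime s :=
    Nat.Coprime.mul_left (Nat.Coprime.mul_left ((hs.cop h.b0 h.byy).symm.pow_left 2)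
      (hs.cop h.t0 h.ty).symm) hst.symm
  exact (Nat.Coprime.mul_right (Nat.Coprime.mul_right (Nat.Coprime.mul_right e1
    (e2.pow_right 2)) e3) e4).symm

/-- squarefreeness -/
lemma Sm.sqf (h : Sm z0 y g W a b c f s1 t1) (hs : Rgh y s) (ht : Rgh y t) (hst : s.Coprime t)
    (hss : Squarefree s) (hts : Squarefree t) (hds : Squarefree d) (hes : Squarefree e)
    (h1 : c ^ 2 * d + b ^ 2 * t1 * t = g * W ^ 2 * a ^ 2 * s1 * s)
    (h2 : f ^ 2 * e = g * W ^ 2 * a ^ 2 * s1 * s + b ^ 2 * t1 * t) :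
    Squarefree ((g * s1 * s) * (t1 * t) * d * e) := by
  have huv := h.uv hs ht hst
  have hu2 : 2 ∣ g * W ^ 2 * a ^ 2 * s1 * s := by
    have : W ∣ g * W ^ 2 * a ^ 2 * s1 * s := ⟨g * W * a ^ 2 * s1 * s, by ring⟩
    exact h.two_dvd.trans this
  obtain ⟨du, dv, eu, ev, de⟩ := four_cop huv hu2 h1 h2
  have d1 : (g * s1 * s) ∣ g * W ^ 2 * a ^ 2 * s1 * s := ⟨W ^ 2 * a ^ 2, by ring⟩
  have d2 : (t1 * t) ∣ b ^ 2 * t1 * t := ⟨b ^ 2, by ring⟩
  have c1 : (g * s1 * s).Coprime (t1 * t) :=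
    Nat.Coprime.coprime_dvd_left d1 (Nat.Coprime.coprime_dvd_right d2 huv)
  have c2 : ((g * s1 * s) * (t1 * t)).Coprime d :=
    (Nat.Coprime.mul_right (Nat.Coprime.coprime_dvd_right d1 du)
      (Nat.Coprime.coprime_dvd_right d2 dv)).symm
  have c3 : ((g * s1 * s) * (t1 * t) * d).Coprime e :=
    Nat.Coprime.mul_left (Nat.Coprime.mul_right (Nat.Coprime.coprime_dvd_right d1 eu)
      (Nat.Coprime.coprime_dvd_right d2 ev)).symm de
  have q1 : Squarefree (g * s1 * s) := by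
    have c4 : g.Coprime s1 := (h.gcop (cop_of_mod h.ms)).symm
    have c5 : (g * s1).Coprime s :=
      Nat.Coprime.mul_left (h.gcop (h.rcop hs)).symm (hs.cop h.s0 h.sy).symm
    rw [Nat.squarefree_mul c5, Nat.squarefree_mul c4]
    exact ⟨⟨h.hg, h.sqs⟩, hss⟩
  have q2 : Squarefree (t1 * t) := by
    rw [Nat.squarefree_mul (ht.cop h.t0 h.ty).symm]
    exact ⟨h.sqt, hts⟩
  rw [Nat.squarefree_mul c3, Nat.squarefree_mul c2, Nat.squarefree_mul c1]
  exact ⟨⟨⟨q1, q2⟩, hds⟩, hes⟩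

/-- the fundamental identity -/
lemma ident (g W a b c f s1 t1 s t d e : ℕ) :
    ((g * s1 * s) * (t1 * t) * d * e) * (W * a * b * c * f) ^ 2 =
      (g * W ^ 2 * a ^ 2 * s1 * s) * (b ^ 2 * t1 * t) * (c ^ 2 * d) * (f ^ 2 * e) := by
  ring

lemma Sm.cong (h : Sm z0 y g W a b c f s1 t1) (hs0 : 0 < s) (ht0 : 0 < t) (hd0 : 0 < d)
    (he0 : 0 < e)
    (h1 : c ^ 2 * d + b ^ 2 * t1 * t = g * W ^ 2 * a ^ 2 * s1 * s)
    (h2 : f ^ 2 * e = g * W ^ 2 * a ^ 2 * s1 * s + b ^ 2 * t1 * t) :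
    Cong ((g * s1 * s) * (t1 * t) * d * e) := by
  have hg0 : 0 < g := Nat.pos_of_ne_zero h.hg.ne_zero
  have hW0 := h.hW0
  have ha0 := h.a0
  have hb0 := h.b0
  have hc0 := h.c0
  have hf0 := h.f0
  have hs10 := h.s0
  have ht10 := h.t0
  exact cong_of (by positivity) (by positivity) (by positivity) h1 h2 (ident _ _ _ _ _ _ _ _ _ _ _ _)

/-- the residue class -/
lemma Sm.cls (h : Sm z0 y g W a b c f s1 t1) {ρ : ℕ} (ht : t ≡ 1 [MOD W]) (hs : W ∣ s + ρ)
    (h1 : c ^ 2 * d + b ^ 2 * t1 * t = g * W ^ 2 * a ^ 2 * s1 * s)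
    (h2 : f ^ 2 * e = g * W ^ 2 * a ^ 2 * s1 * s + b ^ 2 * t1 * t) :
    s1 * s * (t1 * t) * d * e ≡ ρ [MOD W] := by
  have hb : (b : ZMod W) = 1 := by
    have := (ZMod.natCast_eq_natCast_iff b 1 W).2 h.mb
    simpa using this
  have hc : (c : ZMod W) = 1 := by
    have := (ZMod.natCast_eq_natCast_iff c 1 W).2 h.mc
    simpa using this
  have hf : (f : ZMod W) = 1 := by
    have := (ZMod.natCast_eq_natCast_iff f 1 W).2 h.mf
    simpa using this
  have hs1 : (s1 : ZMod W) = 1 := by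
    have := (ZMod.natCast_eq_natCast_iff s1 1 W).2 h.ms
    simpa using this
  have ht1 : (t1 : ZMod W) = 1 := by
    have := (ZMod.natCast_eq_natCast_iff t1 1 W).2 h.mt
    simpa using this
  have htt : (t : ZMod W) = 1 := by
    have := (ZMod.natCast_eq_natCast_iff t 1 W).2 ht
    simpa using this
  have hss : (s : ZMod W) + ρ = 0 := by
    have := (ZMod.natCast_eq_zero_iff (s + ρ) W).2 hs
    push_cast at this
    exact this
  have hWW : (W : ZMod W) = 0 := ZMod.natCast_self W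
  have e1 : (d : ZMod W) + 1 = 0 := by
    have := congrArg (Nat.cast : ℕ → ZMod W) h1
    push_cast at this
    rw [hb, hc, hs1, ht1, htt, hWW] at this
    simpa using this
  have e2 : (e : ZMod W) = 1 := by
    have := congrArg (Nat.cast : ℕ → ZMod W) h2
    push_cast at this
    rw [hb, hf, hs1, ht1, htt, hWW] at this
    simpa using this
  rw [← ZMod.natCast_eq_natCast_iff]
  push_cast
  have e3 : (d : ZMod W) = -1 := eq_neg_of_add_eq_zero_left e1
  have e4 : (s : ZMod W) = -ρ := eq_neg_of_add_eq_zero_left hss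
  rw [hs1, ht1, htt, e2, e3, e4]
  ring

end

/-- the size -/
lemma size_le {n w u v m l : ℕ} (hw : 0 < w) (hm : m + v = u) (hl : l = u + v)
    (h : n * w ^ 2 = u * v * m * l) (X U : ℝ) (hX : 0 ≤ X) (hU : 0 ≤ U)
    (hU4 : U ^ 4 = X * (w : ℝ) ^ 2 / 64) (hu : (u : ℝ) ≤ 3 * U) (hv : (v : ℝ) ≤ U) :
    (n : ℝ) ≤ X := by
  have hw0 : (0 : ℝ) < w := by exact_mod_cast hw
  have h1 : (n : ℝ) * (w : ℝ) ^ 2 = u * v * m * l := by exact_mod_cast h
  have hm' : (m : ℝ) ≤ 3 * U := by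
    have : (m : ℝ) + v = u := by exact_mod_cast hm
    have h0 : (0 : ℝ) ≤ v := Nat.cast_nonneg _
    linarith
  have hl' : (l : ℝ) ≤ 4 * U := by
    have : (l : ℝ) = u + v := by exact_mod_cast hl
    linarith
  have h2 : (u : ℝ) * v * m * l ≤ (3 * U) * U * (3 * U) * (4 * U) := by gcongr
  have h3 : (3 * U) * U * (3 * U) * (4 * U) ≤ X * (w : ℝ) ^ 2 := by
    have : (3 * U) * U * (3 * U) * (4 * U) = 36 * U ^ 4 := by ring
    rw [this, hU4]
    have : 0 ≤ X * (w : ℝ) ^ 2 := by positivity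
    linarith
  have h4 : (n : ℝ) * (w : ℝ) ^ 2 ≤ X * (w : ℝ) ^ 2 := by linarith
  exact le_of_mul_le_mul_right h4 (by positivity)

end Pool.Agent.V7H99.LG
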