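import Mathlib
import Pool.Agent.V7H99.LG.S6

set_option autoImplicit false

/-! Uniqueness of the representation. -/

namespace Pool.Agent.V7H99.LG
open Finset

lemma sqf_uniq {m m' a a' : ℕ} (hm : Squarefree m) (hm' : Squarefree m') (ha : 0 < a)
    (ha' : 0 < a') (h : m * a ^ 2 = m' * a' ^ 2) : m = m' ∧ a = a' := by
  obtain ⟨G, a1, a1', hG, hco, h1, h2⟩ := Nat.exists_coprime' (m := a) (n := a')
    (Nat.gcd_pos_of_pos_left a' ha)
  have hG2 : 0 < G ^ 2 := Nat.pow_pos hG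
  have h3 : m * a1 ^ 2 = m' * a1' ^ 2 := by
    have : (m * a1 ^ 2) * G ^ 2 = (m' * a1' ^ 2) * G ^ 2 := by
      calc (m * a1 ^ 2) * G ^ 2 = m * (a1 * G) ^ 2 := by ring
        _ = m' * (a1' * G) ^ 2 := by rw [← h1, ← h2, h]
        _ = _ := by ring
    exact Nat.eq_of_mul_eq_mul_right hG2 this
  have e1 : a1 = 1 := by
    have h4 : a1 ^ 2 ∣ m' := by
      have : a1 ^ 2 ∣ m' * a1' ^ 2 := by rw [← h3]; exact dvd_mul_left _ _
      exact (Nat.Coprime.pow 2 2 hco).dvd_of_dvd_mul_right this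
    have h5 := hm' a1 (by rw [← pow_two]; exact h4)
    exact Nat.isUnit_iff.1 h5
  have e2 : a1' = 1 := by
    have h4 : a1' ^ 2 ∣ m := by
      have : a1' ^ 2 ∣ m * a1 ^ 2 := by rw [h3]; exact dvd_mul_left _ _
      exact (Nat.Coprime.pow 2 2 hco).symm.dvd_of_dvd_mul_right this
    have h5 := hm a1' (by rw [← pow_two]; exact h4)
    exact Nat.isUnit_iff.1 h5
  rw [e1, e2] at h3
  refine ⟨by simpa using h3, ?_⟩
  rw [h1, h2, e1, e2]

/-- a triple in the family -/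
structure Gd (z0 y g W : ℕ) (x : Fin 6 → ℕ) (t s d e : ℕ) : Prop where
  sm : Sm z0 y g W (x 0) (x 1) (x 2) (x 3) (x 4) (x 5)
  rs : Rgh y s
  rt : Rgh y t
  st : s.Coprime t
  ss : Squarefree s
  ts : Squarefree t
  ds : Squarefree d
  es : Squarefree e
  ty : y ^ 6 < t
  h1 : x 2 ^ 2 * d + x 1 ^ 2 * x 5 * t = g * W ^ 2 * x 0 ^ 2 * x 4 * s
  h2 : x 3 ^ 2 * e = g * W ^ 2 * x 0 ^ 2 * x 4 * s + x 1 ^ 2 * x 5 * t

lemma uniq {z0 y g W : ℕ} {x x' : Fin 6 → ℕ} {t s d e d' e' : ℕ} (h : Gd z0 y g W x t s d e)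
    (h' : Gd z0 y g W x' t s d' e')
    (hn : (g * x 4 * s) * (x 5 * t) * d * e = (g * x' 4 * s) * (x' 5 * t) * d' * e') :
    x = x' := by
  have hg0 : 0 < g := Nat.pos_of_ne_zero h.sm.hg.ne_zero
  have hs0 : 0 < s := Nat.pos_of_ne_zero h.ss.ne_zero
  have ht0 : 0 < t := Nat.pos_of_ne_zero h.ts.ne_zero
  have hW0 := h.sm.hW0
  have hN : x 4 * x 5 * d * e = x' 4 * x' 5 * d' * e' := by
    have h3 : (g * s * t) * (x 4 * x 5 * d * e) = (g * s * t) * (x' 4 * x' 5 * d' * e') := by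
      calc (g * s * t) * (x 4 * x 5 * d * e) = (g * x 4 * s) * (x 5 * t) * d * e := by ring
        _ = (g * x' 4 * s) * (x' 5 * t) * d' * e' := hn
        _ = _ := by ring
    exact Nat.eq_of_mul_eq_mul_left (by positivity) h3
  have g1 : (x 2 : ℤ) ^ 2 * d = g * W ^ 2 * x 0 ^ 2 * x 4 * s - x 1 ^ 2 * x 5 * t := by
    have := congrArg (Nat.cast : ℕ → ℤ) h.h1
    push_cast at this
    linarith
  have g2 : (x 3 : ℤ) ^ 2 * e = g * W ^ 2 * x 0 ^ 2 * x 4 * s + x 1 ^ 2 * x 5 * t := by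
    have := congrArg (Nat.cast : ℕ → ℤ) h.h2
    push_cast at this
    linarith
  have g1' : (x' 2 : ℤ) ^ 2 * d' = g * W ^ 2 * x' 0 ^ 2 * x' 4 * s - x' 1 ^ 2 * x' 5 * t := by
    have := congrArg (Nat.cast : ℕ → ℤ) h'.h1
    push_cast at this
    linarith
  have g2' : (x' 3 : ℤ) ^ 2 * e' = g * W ^ 2 * x' 0 ^ 2 * x' 4 * s + x' 1 ^ 2 * x' 5 * t := by
    have := congrArg (Nat.cast : ℕ → ℤ) h'.h2
    push_cast at this
    linarith
  have hNz : (x 4 : ℤ) * x 5 * d * e = x' 4 * x' 5 * d' * e' := by exact_mod_cast hN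
  -- the two products
  set P1 : ℕ := (x' 2 * x' 3) ^ 2 * x 4 ^ 3 * x 5 * x 0 ^ 4 with hP1
  set P2 : ℕ := (x 2 * x 3) ^ 2 * x' 4 ^ 3 * x' 5 * x' 0 ^ 4 with hP2
  set Q1 : ℕ := (x' 2 * x' 3) ^ 2 * x 4 * x 5 ^ 3 * x 1 ^ 4 with hQ1
  set Q2 : ℕ := (x 2 * x 3) ^ 2 * x' 4 * x' 5 ^ 3 * x' 1 ^ 4 with hQ2
  have hrel : ((g : ℤ) * W ^ 2 * s) ^ 2 * ((P1 : ℤ) - P2) = (t : ℤ) ^ 2 * ((Q1 : ℤ) - Q2) := by
    have e1 : ((x' 2 : ℤ) * x' 3) ^ 2 * (x 4 * x 5) * (((x 2 : ℤ) ^ 2 * d) * ((x 3 : ℤ) ^ 2 * e)) =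
        ((x 2 : ℤ) * x 3) ^ 2 * (x' 4 * x' 5) * (((x' 2 : ℤ) ^ 2 * d') * ((x' 3 : ℤ) ^ 2 * e')) := by
      calc ((x' 2 : ℤ) * x' 3) ^ 2 * (x 4 * x 5) * (((x 2 : ℤ) ^ 2 * d) * ((x 3 : ℤ) ^ 2 * e)) =
          ((x' 2 : ℤ) * x' 3) ^ 2 * ((x 2 : ℤ) * x 3) ^ 2 * ((x 4 : ℤ) * x 5 * d * e) := by ring
        _ = ((x' 2 : ℤ) * x' 3) ^ 2 * ((x 2 : ℤ) * x 3) ^ 2 * ((x' 4 : ℤ) * x' 5 * d' * e') := by
            rw [hNz]
        _ = _ := by ring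
    rw [g1, g2, g1', g2'] at e1
    rw [hP1, hP2, hQ1, hQ2]
    push_cast
    linear_combination e1
  have hty : (y : ℤ) ^ 6 < t := by exact_mod_cast h.ty
  have bd : ∀ a b c d e : ℕ, a ≤ y → b ≤ y → c ≤ y → d ≤ y → e ≤ y →
      (a * b) ^ 2 * c ^ 3 * d * e ^ 4 ≤ y ^ 12 := by
    intro a b c d e ha hb hc hd he
    calc (a * b) ^ 2 * c ^ 3 * d * e ^ 4 ≤ (y * y) ^ 2 * y ^ 3 * y * y ^ 4 := by gcongr
      _ = y ^ 12 := by ring
  have b1 : P1 ≤ y ^ 12 := bd _ _ _ _ _ h'.sm.cy h'.sm.fy h.sm.sy h.sm.ty h.sm.ay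
  have b2 : P2 ≤ y ^ 12 := bd _ _ _ _ _ h.sm.cy h.sm.fy h'.sm.sy h'.sm.ty h'.sm.ay
  have hPeq : (P1 : ℤ) - P2 = 0 := by
    have hco : IsCoprime ((t : ℤ) ^ 2) (((g : ℤ) * W ^ 2 * s) ^ 2) := by
      apply IsCoprime.pow
      have h3 : t.Coprime (g * W ^ 2 * s) :=
        Nat.Coprime.mul_right (Nat.Coprime.mul_right (h.sm.gcop (h.sm.rcop h.rt))
          ((h.sm.rcop h.rt).pow_right 2)) h.st.symm
      have := Nat.isCoprime_iff_coprime.2 h3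
      push_cast at this
      exact this
    have hdvd : (t : ℤ) ^ 2 ∣ (P1 : ℤ) - P2 := by
      apply hco.dvd_of_dvd_mul_left
      rw [hrel]
      exact dvd_mul_right _ _
    apply Int.eq_zero_of_abs_lt_dvd hdvd
    have h3 : (y : ℤ) ^ 12 < (t : ℤ) ^ 2 := by
      have : (y : ℤ) ^ 12 = ((y : ℤ) ^ 6) ^ 2 := by ring
      rw [this]
      exact pow_lt_pow_left₀ hty (by positivity) two_ne_zero
    have h4 : (P1 : ℤ) ≤ (y : ℤ) ^ 12 := by exact_mod_cast b1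
    have h5 : (P2 : ℤ) ≤ (y : ℤ) ^ 12 := by exact_mod_cast b2
    have h6 : (0 : ℤ) ≤ P1 := Int.natCast_nonneg _
    have h7 : (0 : ℤ) ≤ P2 := Int.natCast_nonneg _
    rw [abs_lt]
    constructor <;> linarith
  have hQeq : (Q1 : ℤ) - Q2 = 0 := by
    rw [hPeq, mul_zero] at hrel
    have ht2 : (t : ℤ) ^ 2 ≠ 0 := by positivity
    exact (mul_eq_zero.1 hrel.symm).resolve_left ht2
  have hP : P1 = P2 := by have := sub_eq_zero.1 hPeq; exact_mod_cast this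
  have hQ : Q1 = Q2 := by have := sub_eq_zero.1 hQeq; exact_mod_cast this
  -- cross multiplication
  have p0 := h.sm.a0
  have p1 := h.sm.b0
  have p2 := h.sm.c0
  have p3 := h.sm.f0
  have p4 := h.sm.s0
  have p5 := h.sm.t0
  have p0' := h'.sm.a0
  have p1' := h'.sm.b0
  have p2' := h'.sm.c0
  have p3' := h'.sm.f0
  have p4' := h'.sm.s0
  have p5' := h'.sm.t0
  have hx : (x 4 * x 0 ^ 2) * (x' 5 * x' 1 ^ 2) = (x' 4 * x' 0 ^ 2) * (x 5 * x 1 ^ 2) := by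
    have h3 : P1 * Q2 = P2 * Q1 := by rw [hP, hQ]
    have h4 : ((x' 2 * x' 3) ^ 2 * (x 2 * x 3) ^ 2 * (x 4 * x' 4 * x 5 * x' 5)) *
        ((x 4 * x 0 ^ 2) * (x' 5 * x' 1 ^ 2)) ^ 2 =
        ((x' 2 * x' 3) ^ 2 * (x 2 * x 3) ^ 2 * (x 4 * x' 4 * x 5 * x' 5)) *
        ((x' 4 * x' 0 ^ 2) * (x 5 * x 1 ^ 2)) ^ 2 := by
      calc _ = P1 * Q2 := by rw [hP1, hQ2]; ring
        _ = P2 * Q1 := h3
        _ = _ := by rw [hP2, hQ1]; ring
    have h5 := Nat.eq_of_mul_eq_mul_left (by positivity) h4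
    exact Nat.pow_left_injective two_ne_zero h5
  have c1 : (x 4 * x 0 ^ 2).Coprime (x 5 * x 1 ^ 2) :=
    Nat.Coprime.mul_right (Nat.Coprime.mul_left h.sm.st (h.sm.at1.pow_left 2))
      (Nat.Coprime.mul_left (h.sm.bs.symm.pow_right 2) (Nat.Coprime.pow 2 2 h.sm.ab))
  have c1' : (x' 4 * x' 0 ^ 2).Coprime (x' 5 * x' 1 ^ 2) :=
    Nat.Coprime.mul_right (Nat.Coprime.mul_left h'.sm.st (h'.sm.at1.pow_left 2))
      (Nat.Coprime.mul_left (h'.sm.bs.symm.pow_right 2) (Nat.Coprime.pow 2 2 h'.sm.ab))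
  have k1 : x 4 * x 0 ^ 2 = x' 4 * x' 0 ^ 2 := by
    apply Nat.dvd_antisymm
    · apply c1.dvd_of_dvd_mul_right
      rw [← hx]
      exact dvd_mul_right _ _
    · apply c1'.dvd_of_dvd_mul_right
      rw [hx]
      exact dvd_mul_right _ _
  have k2 : x 5 * x 1 ^ 2 = x' 5 * x' 1 ^ 2 := by
    rw [k1] at hx
    exact (Nat.eq_of_mul_eq_mul_left (by positivity) hx).symm
  obtain ⟨m4, m0⟩ := sqf_uniq h.sm.sqs h'.sm.sqs p0 p0' k1
  obtain ⟨m5, m1⟩ := sqf_uniq h.sm.sqt h'.sm.sqt p1 p1' k2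
  have n1 : d * x 2 ^ 2 = d' * x' 2 ^ 2 := by
    have h3 := h.h1
    have h4 := h'.h1
    rw [← m0, ← m1, ← m4, ← m5, ← h3] at h4
    have h5 := Nat.add_right_cancel h4
    rw [mul_comm, ← h5, mul_comm]
  have n2 : e * x 3 ^ 2 = e' * x' 3 ^ 2 := by
    have h3 := h.h2
    have h4 := h'.h2
    rw [← m0, ← m1, ← m4, ← m5, ← h3] at h4
    rw [mul_comm, ← h4, mul_comm]
  obtain ⟨_, m2⟩ := sqf_uniq h.ds h'.ds p2 p2' n1
  obtain ⟨_, m3⟩ := sqf_uniq h.es h'.es p3 p3' n2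
  funext i
  fin_cases i
  · exact m0
  · exact m1
  · exact m2
  · exact m3
  · exact m4
  · exact m5

/-- the number attached to a triple -/
def nv (g W : ℕ) (x : Fin 6 → ℕ) (t s : ℕ) : ℕ :=
  (g * x 4 * s) * (x 5 * t) *
    ((g * W ^ 2 * x 0 ^ 2 * x 4 * s - x 1 ^ 2 * x 5 * t) / x 2 ^ 2) *
    ((g * W ^ 2 * x 0 ^ 2 * x 4 * s + x 1 ^ 2 * x 5 * t) / x 3 ^ 2)

lemma nv_eq {z0 y g W : ℕ} {x : Fin 6 → ℕ} {t s d e : ℕ} (h : Gd z0 y g W x t s d e) :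
    nv g W x t s = (g * x 4 * s) * (x 5 * t) * d * e := by
  unfold nv
  have h1 : g * W ^ 2 * x 0 ^ 2 * x 4 * s - x 1 ^ 2 * x 5 * t = x 2 ^ 2 * d := by
    rw [← h.h1, Nat.add_sub_cancel]
  rw [h1, ← h.h2, Nat.mul_div_cancel_left _ (Nat.pow_pos h.sm.c0),
    Nat.mul_div_cancel_left _ (Nat.pow_pos h.sm.f0)]

open Classical in
/-- **bounded multiplicity** -/
theorem mult_le {z0 y g W K : ℕ} (hy : 2 ≤ y) (Ω : Finset ((Fin 6 → ℕ) × ℕ × ℕ))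
    (hΩ : ∀ ω ∈ Ω, ∃ d e, Gd z0 y g W ω.1 ω.2.1 ω.2.2 d e)
    (hK : ∀ ω ∈ Ω, nv g W ω.1 ω.2.1 ω.2.2 < y ^ (K + 1)) :
    Ω.card ≤ 4 ^ K * (Ω.image (fun ω => nv g W ω.1 ω.2.1 ω.2.2)).card := by
  apply card_le_mul_card_image
  intro n hn
  rw [mem_image] at hn
  obtain ⟨ω0, hω0, rfl⟩ := hn
  set n0 := nv g W ω0.1 ω0.2.1 ω0.2.2 with hn0
  -- n0 is positive
  have hpos : ∀ ω ∈ Ω, 0 < nv g W ω.1 ω.2.1 ω.2.2 ∧ ω.2.2 ∣ nv g W ω.1 ω.2.1 ω.2.2 ∧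
      ω.2.1 ∣ nv g W ω.1 ω.2.1 ω.2.2 := by
    intro ω hω
    obtain ⟨d, e, h⟩ := hΩ ω hω
    rw [nv_eq h]
    have hg0 : 0 < g := Nat.pos_of_ne_zero h.sm.hg.ne_zero
    have hs0 : 0 < ω.2.2 := Nat.pos_of_ne_zero h.ss.ne_zero
    have ht0 : 0 < ω.2.1 := Nat.pos_of_ne_zero h.ts.ne_zero
    have hd0 : 0 < d := Nat.pos_of_ne_zero h.ds.ne_zero
    have he0 : 0 < e := Nat.pos_of_ne_zero h.es.ne_zero
    have p4 := h.sm.s0
    have p5 := h.sm.t0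
    refine ⟨by positivity, ⟨g * ω.1 4 * (ω.1 5 * ω.2.1) * d * e, by ring⟩,
      ⟨g * ω.1 4 * ω.2.2 * ω.1 5 * d * e, by ring⟩⟩
  set P := n0.primeFactors.filter (fun p => y < p) with hP
  have hPK : P.card ≤ K := by
    have h1 : ∏ p ∈ P, p ∣ n0 :=
      (prod_dvd_prod_of_subset _ _ _ (filter_subset _ _)).trans (Nat.prod_primeFactors_dvd n0)
    have h2 := Nat.le_of_dvd (hpos ω0 hω0).1 h1
    have h3 : y ^ P.card ≤ ∏ p ∈ P, p := by
      rw [← prod_const]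
      apply prod_le_prod' 
      intro p hp
      exact (mem_filter.1 hp).2.le
    have h4 := hK ω0 hω0
    have h5 : y ^ P.card < y ^ (K + 1) := by omega
    have := (Nat.pow_lt_pow_iff_right (by omega : 1 < y)).1 h5
    omega
  calc (Ω.filter (fun ω => nv g W ω.1 ω.2.1 ω.2.2 = n0)).card ≤
        (P.powerset ×ˢ P.powerset).card := by
        apply card_le_card_of_injOn (fun ω => (ω.2.2.primeFactors, ω.2.1.primeFactors))
        · intro ω hω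
          rw [mem_coe, mem_filter] at hω
          obtain ⟨h1, h2⟩ := hω
          obtain ⟨d, e, h⟩ := hΩ ω h1
          have h3 := hpos ω h1
          rw [h2] at h3
          rw [mem_coe, mem_product, mem_powerset, mem_powerset]
          have key : ∀ m : ℕ, m ∣ n0 → Rgh y m → m.primeFactors ⊆ P := by
            intro m hm hr p hp
            rw [Nat.mem_primeFactors] at hp
            rw [hP, mem_filter, Nat.mem_primeFactors]
            exact ⟨⟨hp.1, hp.2.1.trans hm, h3.1.ne'⟩, hr p hp.1 hp.2.1⟩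
          exact ⟨key _ h3.2.1 h.rs, key _ h3.2.2 h.rt⟩
        · intro ω hω ω' hω' heq
          rw [mem_coe, mem_filter] at hω hω'
          obtain ⟨h1, h2⟩ := hω
          obtain ⟨h1', h2'⟩ := hω'
          obtain ⟨d, e, h⟩ := hΩ ω h1
          obtain ⟨d', e', h'⟩ := hΩ ω' h1'
          simp only [Prod.mk.injEq] at heq
          have es : ω.2.2 = ω'.2.2 := by
            rw [← Nat.prod_primeFactors_of_squarefree h.ss,
              ← Nat.prod_primeFactors_of_squarefree h'.ss, heq.1]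
          have et : ω.2.1 = ω'.2.1 := by
            rw [← Nat.prod_primeFactors_of_squarefree h.ts,
              ← Nat.prod_primeFactors_of_squarefree h'.ts, heq.2]
          rw [← es, ← et] at h'
          have h3 := nv_eq h
          have h4 := nv_eq h'
          have h5 : nv g W ω'.1 ω.2.1 ω.2.2 = nv g W ω.1 ω.2.1 ω.2.2 := by
            rw [h2, es, et, h2']
          have h6 := uniq h h' (by rw [← h3, ← h4, h5])
          exact Prod.ext h6 (Prod.ext et es)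
    _ = 2 ^ P.card * 2 ^ P.card := by rw [card_product, card_powerset]
    _ = 4 ^ P.card := by rw [← mul_pow]; norm_num
    _ ≤ 4 ^ K := Nat.pow_le_pow_right (by norm_num) hPK

end Pool.Agent.V7H99.LG
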