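import Mathlib
import Pool.Agent.V7H99.CD.Ht

set_option autoImplicit false

/-! The sum over the small parameters. -/

namespace Pool.Agent.V7H99.LG
open Finset
open Pool.Agent.V7H99.CD (sum_sq_le)

/-- the numbers `1 + W i`, `1 ≤ i ≤ I` -/
def As (W I : ℕ) : Finset ℕ := (Icc 1 I).image (fun i => 1 + W * i)

lemma mem_As {W I a : ℕ} : a ∈ As W I ↔ ∃ i, 1 ≤ i ∧ i ≤ I ∧ 1 + W * i = a := by
  unfold As
  rw [mem_image]
  constructor
  · rintro ⟨i, hi, h⟩
    exact ⟨i, (mem_Icc.1 hi).1, (mem_Icc.1 hi).2, h⟩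
  · rintro ⟨i, h1, h2, h⟩
    exact ⟨i, mem_Icc.2 ⟨h1, h2⟩, h⟩

/-- the sum of the reciprocals -/
noncomputable def Hs (W I : ℕ) : ℝ := ∑ a ∈ As W I, 1 / (a : ℝ)

lemma Hs_eq {W : ℕ} (hW : 1 ≤ W) (I : ℕ) : Hs W I = ∑ i ∈ Icc 1 I, 1 / ((1 + W * i : ℕ) : ℝ) := by
  unfold Hs As
  rw [sum_image]
  intro i _ j _ h
  have h' : 1 + W * i = 1 + W * j := h
  have : W * i = W * j := by omega
  exact Nat.eq_of_mul_eq_mul_left (by omega) this

lemma Hs_nonneg (W I : ℕ) : 0 ≤ Hs W I := sum_nonneg fun _ _ => by positivity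

lemma Hs_low {W : ℕ} (hW : 1 ≤ W) (I : ℕ) : Real.log (I + 1) / (2 * W) ≤ Hs W I := by
  rw [Hs_eq hW]
  have h1 := log_add_one_le_harmonic I
  have h2 : ((harmonic I : ℚ) : ℝ) = ∑ i ∈ Icc 1 I, 1 / (i : ℝ) := by
    rw [harmonic_eq_sum_Icc]
    push_cast
    simp
  rw [h2] at h1
  push_cast at h1
  have hW0 : (0 : ℝ) < W := by exact_mod_cast hW
  calc Real.log (I + 1) / (2 * W) ≤ (∑ i ∈ Icc 1 I, 1 / (i : ℝ)) / (2 * W) :=
        div_le_div_of_nonneg_right h1 (by positivity)
    _ = ∑ i ∈ Icc 1 I, 1 / (2 * W * (i : ℝ)) := by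
        rw [sum_div]
        apply sum_congr rfl
        intro i _
        rw [div_div, mul_comm (i : ℝ)]
    _ ≤ _ := by
        apply sum_le_sum
        intro i hi
        have hi1 : (1 : ℝ) ≤ i := by exact_mod_cast (mem_Icc.1 hi).1
        have hW1 : (1 : ℝ) ≤ W := by exact_mod_cast hW
        apply one_div_le_one_div_of_le
        · push_cast; positivity
        · push_cast
          nlinarith

/-- multiples of `d` -/
lemma Hd_le {W I d : ℕ} (hW : 2 ≤ W) (hd : 1 ≤ d) (hdW : d.Coprime W) :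
    ∑ a ∈ (As W I).filter (fun a => d ∣ a), 1 / (a : ℝ) ≤ (1 + Hs W I) / d := by
  have hd0 : (0 : ℝ) < d := by exact_mod_cast hd
  -- rewrite as a sum over i
  have e1 : ∑ a ∈ (As W I).filter (fun a => d ∣ a), 1 / (a : ℝ) =
      ∑ i ∈ (Icc 1 I).filter (fun i => d ∣ 1 + W * i), 1 / ((1 + W * i : ℕ) : ℝ) := by
    have : (As W I).filter (fun a => d ∣ a) =
        ((Icc 1 I).filter (fun i => d ∣ 1 + W * i)).image (fun i => 1 + W * i) := by
      unfold As
      rw [filter_image]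
    rw [this, sum_image]
    intro i _ j _ h
    have h' : 1 + W * i = 1 + W * j := h
    have : W * i = W * j := by omega
    exact Nat.eq_of_mul_eq_mul_left (by omega) this
  rw [e1]
  set S := (Icc 1 I).filter (fun i => d ∣ 1 + W * i) with hS
  set φ : ℕ → ℕ := fun i => (1 + W * i) / d / W with hφ
  have hmod : ∀ i ∈ S, d * ((1 + W * i) / d) = 1 + W * i := fun i hi =>
    Nat.mul_div_cancel' (mem_filter.1 hi).2
  have hnz : ∀ i ∈ S, (1 + W * i) / d % W ≠ 0 := by
    intro i hi h0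
    have h1 : W ∣ 1 + W * i := by
      rw [← hmod i hi]
      exact (Nat.dvd_of_mod_eq_zero h0).mul_left _
    have h2 : W ∣ 1 := (Nat.dvd_add_left (dvd_mul_right W i)).1 h1
    have := Nat.le_of_dvd one_pos h2
    omega
  have hterm : ∀ i ∈ S, 1 / ((1 + W * i : ℕ) : ℝ) ≤ 1 / d * (1 / ((1 + W * φ i : ℕ) : ℝ)) := by
    intro i hi
    have h1 : 1 + W * φ i ≤ (1 + W * i) / d := by
      have h2 := Nat.div_add_mod ((1 + W * i) / d) W
      have h3 := hnz i hi
      show 1 + W * ((1 + W * i) / d / W) ≤ _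
      omega
    have h2 : (0 : ℝ) < ((1 + W * φ i : ℕ) : ℝ) := by exact_mod_cast (by omega : 0 < 1 + W * φ i)
    have h3 : ((1 + W * φ i : ℕ) : ℝ) ≤ (((1 + W * i) / d : ℕ) : ℝ) := by exact_mod_cast h1
    have h4 : ((1 + W * i : ℕ) : ℝ) = (d : ℝ) * (((1 + W * i) / d : ℕ) : ℝ) := by
      rw [← Nat.cast_mul, hmod i hi]
    rw [h4, one_div_mul_one_div]
    apply one_div_le_one_div_of_le (by positivity)
    exact mul_le_mul_of_nonneg_left h3 hd0.le
  have hinj : Set.InjOn φ S := by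
    intro i hi j hj hij
    have hi' : i ∈ S := hi
    have hj' : j ∈ S := hj
    have h1 := Nat.div_add_mod ((1 + W * i) / d) W
    have h2 := Nat.div_add_mod ((1 + W * j) / d) W
    have h3 : (1 + W * i) / d % W = (1 + W * j) / d % W := by
      have h4 : d * ((1 + W * i) / d) ≡ d * ((1 + W * j) / d) [MOD W] := by
        rw [hmod i hi', hmod j hj']
        exact (Nat.ModEq.add_left 1 (Nat.modEq_zero_iff_dvd.2 (dvd_mul_right W i))).trans
          (Nat.ModEq.add_left 1 (Nat.modEq_zero_iff_dvd.2 (dvd_mul_right W j))).symm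
      exact Nat.ModEq.cancel_left_of_coprime (by rw [Nat.gcd_comm]; exact hdW) h4
    have h5 : (1 + W * i) / d / W = (1 + W * j) / d / W := hij
    have h6 : (1 + W * i) / d = (1 + W * j) / d := by rw [← h1, ← h2, h3, h5]
    have h7 : 1 + W * i = 1 + W * j := by rw [← hmod i hi', ← hmod j hj', h6]
    have : W * i = W * j := by omega
    exact Nat.eq_of_mul_eq_mul_left (by omega) this
  calc ∑ i ∈ S, 1 / ((1 + W * i : ℕ) : ℝ) ≤ ∑ i ∈ S, 1 / d * (1 / ((1 + W * φ i : ℕ) : ℝ)) :=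
        sum_le_sum hterm
    _ = 1 / d * ∑ i ∈ S.image φ, 1 / ((1 + W * i : ℕ) : ℝ) := by
        rw [sum_image hinj, mul_sum]
    _ ≤ 1 / d * ∑ i ∈ insert 0 (Icc 1 I), 1 / ((1 + W * i : ℕ) : ℝ) := by
        apply mul_le_mul_of_nonneg_left _ (by positivity)
        apply sum_le_sum_of_subset_of_nonneg
        · intro j hj
          obtain ⟨i, hi, rfl⟩ := mem_image.1 hj
          rw [mem_insert, mem_Icc]
          have h1 : φ i ≤ I := by
            have h2 : i ≤ I := (mem_Icc.1 (mem_filter.1 hi).1).2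
            have h3 : (1 + W * i) / d ≤ 1 + W * i := Nat.div_le_self _ _
            have h4 : (1 + W * i) / d / W ≤ (1 + W * i) / W := Nat.div_le_div_right h3
            have h5 : (1 + W * i) / W = i := by
              rw [Nat.add_mul_div_left _ _ (by omega : 0 < W), Nat.div_eq_of_lt (by omega), zero_add]
            show (1 + W * i) / d / W ≤ I
            omega
          omega
        · intro _ _ _
          positivity
    _ = (1 + Hs W I) / d := by
        rw [sum_insert (by simp), Hs_eq (by omega)]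
        norm_num
        ring

/-- admissible sextuples with entries in the sets `T k` -/
def TG (Y : ℕ) (T : Fin 6 → Finset ℕ) : Finset (Fin 6 → ℕ) :=
  (Fintype.piFinset T).filter
    (fun x => ∀ p ∈ Icc 2 Y, p.Prime → ∀ i j : Fin 6,
      ¬ (∀ k : Fin 6, (if k = i then p else 1) * (if k = j then p else 1) ∣ x k))

open Classical in
lemma TG_sum {z0 W Y : ℕ} (hz : 4608 ≤ z0) (hWp : ∀ p, p.Prime → (p ∣ W ↔ p ≤ z0))
    (T : Fin 6 → Finset ℕ) (hT1 : ∀ k, ∀ a ∈ T k, a.Coprime W)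
    (hT2 : ∀ k, ∀ d : ℕ, 1 ≤ d → d.Coprime W →
      ∑ a ∈ (T k).filter (fun a => d ∣ a), 1 / (a : ℝ) ≤ 2 * (∑ a ∈ T k, 1 / (a : ℝ)) / d) :
    (∏ k, ∑ a ∈ T k, 1 / (a : ℝ)) / 2 ≤ ∑ x ∈ TG Y T, ∏ k, 1 / (x k : ℝ) := by
  set H : Fin 6 → ℝ := fun k => ∑ a ∈ T k, 1 / (a : ℝ) with hHd
  have hH0 : ∀ k, 0 ≤ H k := fun k => sum_nonneg fun _ _ => by positivity
  set HP := ∏ k, H k with hHP
  have hHP0 : 0 ≤ HP := prod_nonneg fun k _ => hH0 k
  set Pi := Fintype.piFinset T with hPi
  set w : (Fin 6 → ℕ) → ℝ := fun x => ∏ k, 1 / (x k : ℝ) with hw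
  have hw0 : ∀ x, 0 ≤ w x := fun x => prod_nonneg fun _ _ => by positivity
  have htot : ∑ x ∈ Pi, w x = HP := (prod_univ_sum T (fun _ a => 1 / (a : ℝ))).symm
  set S := (Ioc z0 Y).filter (fun p => p.Prime) with hS
  set D : ℕ → Fin 6 → Fin 6 → Fin 6 → ℕ := fun p i j k =>
    (if k = i then p else 1) * (if k = j then p else 1) with hD
  have hone : ∀ p ∈ S, ∀ i j : Fin 6, ∑ x ∈ Pi.filter (fun x => ∀ k, D p i j k ∣ x k), w x ≤
      64 * HP * (1 / (p : ℝ) ^ 2) := by
    intro p hp i j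
    rw [hS, mem_filter, mem_Ioc] at hp
    have hp0 : (0 : ℝ) < p := by exact_mod_cast hp.2.pos
    have hpW : p.Coprime W := (Nat.Prime.coprime_iff_not_dvd hp.2).2 fun h => by
      have := (hWp p hp.2).1 h
      omega
    have e1 : Pi.filter (fun x => ∀ k, D p i j k ∣ x k) =
        Fintype.piFinset (fun k => (T k).filter (fun a => D p i j k ∣ a)) := by
      ext x
      rw [mem_filter, hPi, Fintype.mem_piFinset, Fintype.mem_piFinset]
      constructor
      · rintro ⟨h1, h2⟩ k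
        exact mem_filter.2 ⟨h1 k, h2 k⟩
      · intro h
        exact ⟨fun k => (mem_filter.1 (h k)).1, fun k => (mem_filter.1 (h k)).2⟩
    rw [e1]
    have e2 := prod_univ_sum (fun k => (T k).filter (fun a => D p i j k ∣ a))
      (fun _ a => 1 / (a : ℝ))
    rw [hw]
    rw [← e2]
    have e3 : ∀ k, ∑ a ∈ (T k).filter (fun a => D p i j k ∣ a), 1 / (a : ℝ) ≤
        2 * H k * (1 / (D p i j k : ℝ)) := by
      intro k
      have hDk1 : 1 ≤ D p i j k := by
        rw [hD]
        have := hp.2.one_le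
        simp only
        split_ifs <;> nlinarith
      have hDkW : (D p i j k).Coprime W := by
        rw [hD]
        apply Nat.Coprime.mul_left <;> split_ifs
        · exact hpW
        · exact Nat.coprime_one_left _
        · exact hpW
        · exact Nat.coprime_one_left _
      refine (hT2 k _ hDk1 hDkW).trans (le_of_eq ?_)
      rw [mul_one_div]
    calc ∏ k, ∑ a ∈ (T k).filter (fun a => D p i j k ∣ a), 1 / (a : ℝ) ≤
          ∏ k : Fin 6, (2 * H k * (1 / (D p i j k : ℝ))) :=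
          prod_le_prod (fun k _ => sum_nonneg fun _ _ => by positivity) (fun k _ => e3 k)
      _ = 64 * HP * ∏ k : Fin 6, (1 / (D p i j k : ℝ)) := by
          rw [prod_mul_distrib, prod_mul_distrib, prod_const, card_univ, Fintype.card_fin, ← hHP]
          norm_num
      _ = 64 * HP * (1 / (p : ℝ) ^ 2) := by
          have e4 : ∏ k : Fin 6, (1 / (D p i j k : ℝ)) = 1 / (p : ℝ) ^ 2 := by
            rw [prod_div_distrib, prod_const_one]
            congr 1
            rw [← Nat.cast_prod]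
            have : ∏ k : Fin 6, D p i j k = p * p := by
              rw [hD]
              rw [prod_mul_distrib, prod_ite_eq', prod_ite_eq']
              simp
            rw [this]
            push_cast
            ring
          rw [e4]
  have hbad : ∑ x ∈ Pi.filter (fun x => ¬ (x ∈ TG Y T)), w x ≤ HP / 2 := by
    have hpt : ∀ x ∈ Pi.filter (fun x => ¬ (x ∈ TG Y T)), w x ≤
        ∑ p ∈ S, ∑ ij : Fin 6 × Fin 6, (if ∀ k, D p ij.1 ij.2 k ∣ x k then w x else 0) := by
      intro x hx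
      rw [mem_filter] at hx
      obtain ⟨hx1, hx2⟩ := hx
      have h1 : ∃ p ∈ Icc 2 Y, p.Prime ∧ ∃ i j : Fin 6, ∀ k : Fin 6,
          (if k = i then p else 1) * (if k = j then p else 1) ∣ x k := by
        by_contra hcon
        push Not at hcon
        apply hx2
        unfold TG
        rw [mem_filter]
        refine ⟨hx1, ?_⟩
        intro p hp hpp i j hall
        obtain ⟨k, hk⟩ := hcon p hp hpp i j
        exact hk (hall k)
      obtain ⟨p, hp, hpp, i, j, hij⟩ := h1
      have hpS : p ∈ S := by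
        rw [hS, mem_filter, mem_Ioc]
        refine ⟨⟨?_, (mem_Icc.1 hp).2⟩, hpp⟩
        by_contra hcon
        have hpW : p ∣ W := (hWp p hpp).2 (by omega)
        have h2 := hij i
        rw [if_pos rfl] at h2
        have h3 : p ∣ x i := (dvd_mul_right _ _).trans h2
        have h4 := hT1 i _ (Fintype.mem_piFinset.1 hx1 i)
        have h5 := Nat.dvd_gcd h3 hpW
        rw [h4] at h5
        exact hpp.one_lt.ne' (Nat.dvd_one.1 h5)
      have e1 : w x ≤ ∑ ij : Fin 6 × Fin 6, (if ∀ k, D p ij.1 ij.2 k ∣ x k then w x else 0) := by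
        have := single_le_sum
          (f := fun ij : Fin 6 × Fin 6 => if ∀ k, D p ij.1 ij.2 k ∣ x k then w x else 0)
          (s := univ) (fun _ _ => by
            show (0 : ℝ) ≤ _
            split_ifs <;> [exact hw0 x; exact le_rfl]) (mem_univ (i, j))
        simp only [if_pos (show ∀ k, D p i j k ∣ x k from hij)] at this
        exact this
      have e2 := single_le_sum
        (f := fun p => ∑ ij : Fin 6 × Fin 6, (if ∀ k, D p ij.1 ij.2 k ∣ x k then w x else 0))
        (s := S) (fun _ _ => sum_nonneg fun _ _ => by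
            split_ifs <;> [exact hw0 x; exact le_rfl]) hpS
      exact e1.trans e2
    calc _ ≤ ∑ x ∈ Pi.filter (fun x => ¬ (x ∈ TG Y T)),
          ∑ p ∈ S, ∑ ij : Fin 6 × Fin 6, (if ∀ k, D p ij.1 ij.2 k ∣ x k then w x else 0) :=
          sum_le_sum hpt
      _ ≤ ∑ x ∈ Pi, ∑ p ∈ S, ∑ ij : Fin 6 × Fin 6,
          (if ∀ k, D p ij.1 ij.2 k ∣ x k then w x else 0) := by
          apply sum_le_sum_of_subset_of_nonneg (filter_subset _ _)
          intro x _ _
          exact sum_nonneg fun _ _ => sum_nonneg fun _ _ => by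
            split_ifs <;> [exact hw0 x; exact le_rfl]
      _ = ∑ p ∈ S, ∑ ij : Fin 6 × Fin 6,
          ∑ x ∈ Pi.filter (fun x => ∀ k, D p ij.1 ij.2 k ∣ x k), w x := by
          rw [sum_comm]
          apply sum_congr rfl
          intro p _
          rw [sum_comm]
          apply sum_congr rfl
          intro ij _
          rw [sum_filter]
      _ ≤ ∑ p ∈ S, ∑ _ij : Fin 6 × Fin 6, 64 * HP * (1 / (p : ℝ) ^ 2) :=
          sum_le_sum fun p hp => sum_le_sum fun ij _ => hone p hp ij.1 ij.2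
      _ = 2304 * HP * ∑ p ∈ S, (1 / (p : ℝ) ^ 2) := by
          rw [mul_sum]
          apply sum_congr rfl
          intro p _
          rw [sum_const, card_univ, Fintype.card_prod, Fintype.card_fin, nsmul_eq_mul]
          push_cast
          ring
      _ ≤ 2304 * HP * (1 / z0) := by
          apply mul_le_mul_of_nonneg_left _ (by positivity)
          exact sum_sq_le z0 Y (by omega) S (filter_subset _ _)
      _ ≤ HP / 2 := by
          have h1 : (4608 : ℝ) ≤ z0 := by exact_mod_cast hz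
          have h2 : (1 : ℝ) / z0 ≤ 1 / 4608 := one_div_le_one_div_of_le (by norm_num) h1
          nlinarith
  have hsplit : ∑ x ∈ TG Y T, w x + ∑ x ∈ Pi.filter (fun x => ¬ (x ∈ TG Y T)), w x = HP := by
    rw [← htot, ← sum_filter_add_sum_filter_not Pi (fun x => x ∈ TG Y T)]
    congr 1
    apply sum_congr _ (fun _ _ => rfl)
    ext x
    rw [mem_filter]
    constructor
    · intro h
      exact ⟨(mem_filter.1 h).1, h⟩
    · exact fun h => h.2
  linarith

/-- consequences of admissibility -/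
lemma TG_cop {Y : ℕ} {T : Fin 6 → Finset ℕ} (hT : ∀ k, ∀ a ∈ T k, 0 < a ∧ a ≤ Y)
    {x : Fin 6 → ℕ} (hx : x ∈ TG Y T) (i j : Fin 6) (hij : i ≠ j) :
    (x i).Coprime (x j) := by
  obtain ⟨h1, h2⟩ := mem_filter.1 hx
  apply Nat.coprime_of_dvd
  intro p hp hi hj
  have h3 := hT i _ (Fintype.mem_piFinset.1 h1 i)
  have h4 : p ≤ x i := Nat.le_of_dvd h3.1 hi
  apply h2 p (mem_Icc.2 ⟨hp.two_le, h4.trans h3.2⟩) hp i j
  intro k
  by_cases hk : k = i
  · subst hk
    rw [if_pos rfl, if_neg hij, mul_one]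
    exact hi
  · rw [if_neg hk, one_mul]
    split_ifs with hk2
    · rw [hk2]; exact hj
    · exact one_dvd _

lemma TG_sqf {Y : ℕ} {T : Fin 6 → Finset ℕ} (hT : ∀ k, ∀ a ∈ T k, 0 < a ∧ a ≤ Y)
    {x : Fin 6 → ℕ} (hx : x ∈ TG Y T) (i : Fin 6) : Squarefree (x i) := by
  obtain ⟨h1, h2⟩ := mem_filter.1 hx
  rw [Nat.squarefree_iff_prime_squarefree]
  intro p hp hi
  have h3 := hT i _ (Fintype.mem_piFinset.1 h1 i)
  have h4 : p ≤ x i := Nat.le_of_dvd h3.1 ((dvd_mul_right _ _).trans hi)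
  apply h2 p (mem_Icc.2 ⟨hp.two_le, h4.trans h3.2⟩) hp i i
  intro k
  by_cases hk : k = i
  · subst hk
    rw [if_pos rfl]
    exact hi
  · rw [if_neg hk, one_mul]
    exact one_dvd _

/-- elements of `As` -/
lemma As_prop {W I a : ℕ} (ha : a ∈ As W I) : 0 < a ∧ a ≤ 1 + W * I ∧ a ≡ 1 [MOD W] := by
  obtain ⟨m, _, hmI, hm⟩ := mem_As.1 ha
  have h5 : W * m ≤ W * I := Nat.mul_le_mul_left _ hmI
  refine ⟨by omega, by omega, ?_⟩
  rw [← hm]
  exact Nat.ModEq.add_left 1 (Nat.modEq_zero_iff_dvd.2 (dvd_mul_right W m))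

lemma As_cop {W I a : ℕ} (ha : a ∈ As W I) : a.Coprime W := by
  have := (As_prop ha).2.2.gcd_eq
  rw [Nat.gcd_one_left] at this
  exact this

/-- the sets of small parameters: four (`B = true`) or six (`B = false`) free parameters -/
def Ts (B : Bool) (W I : ℕ) (k : Fin 6) : Finset ℕ :=
  if B = true ∧ 4 ≤ k.val then {1} else As W I

lemma Ts_prop {B : Bool} {W I a : ℕ} {k : Fin 6} (ha : a ∈ Ts B W I k) :
    0 < a ∧ a ≤ 1 + W * I ∧ a ≡ 1 [MOD W] := by
  unfold Ts at ha
  split_ifs at ha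
  · rw [mem_singleton] at ha
    subst ha
    exact ⟨one_pos, by omega, Nat.ModEq.refl _⟩
  · exact As_prop ha

lemma Ts_sum2 {B : Bool} {W I : ℕ} (hW : 2 ≤ W) (hH : 1 ≤ Hs W I) (k : Fin 6) (d : ℕ)
    (hd : 1 ≤ d) (hdW : d.Coprime W) :
    ∑ a ∈ (Ts B W I k).filter (fun a => d ∣ a), 1 / (a : ℝ) ≤
      2 * (∑ a ∈ Ts B W I k, 1 / (a : ℝ)) / d := by
  have hd0 : (0 : ℝ) < d := by exact_mod_cast hd
  unfold Ts
  split_ifs
  · rw [sum_singleton]
    by_cases h1 : d = 1
    · subst h1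
      rw [filter_true_of_mem (fun _ _ => one_dvd _), sum_singleton]
      norm_num
    · have : ({1} : Finset ℕ).filter (fun a => d ∣ a) = ∅ := by
        rw [filter_eq_empty_iff]
        intro a ha hda
        rw [mem_singleton] at ha
        subst ha
        exact h1 (Nat.dvd_one.1 hda)
      rw [this, sum_empty]
      positivity
  · refine (Hd_le hW hd hdW).trans ?_
    apply div_le_div_of_nonneg_right _ hd0.le
    have : ∑ a ∈ As W I, 1 / (a : ℝ) = Hs W I := rfl
    rw [this]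
    linarith

end Pool.Agent.V7H99.LG
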