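import Mathlib
import Pool.Agent.V7H99.LG.S4
import Pool.Agent.V7H99.LG.S5
import Pool.Agent.V7H99.LG.S7
import Pool.Agent.V7H99.LG.S8

set_option autoImplicit false

/-! The family attached to one sextuple of small parameters. -/

namespace Pool.Agent.V7H99.LG
open Finset
open Pool.Agent.V7H99.CD (Pd mem_Pd nu nu_le)

lemma floor_half {a : ℝ} (ha : 2 ≤ a) : a / 2 ≤ (⌊a⌋₊ : ℝ) := by
  have := Nat.lt_floor_add_one a
  linarith

lemma dvd_fact {z0 : ℕ} (p : ℕ) (hp : p.Prime) : p ∣ z0.factorial ↔ p ≤ z0 :=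
  Nat.Prime.dvd_factorial hp

/-- small parameters from an admissible sextuple -/
lemma sm_of_TG {z0 y g I : ℕ} {B : Bool} (hz : 2 ≤ z0) (hzy : z0 ≤ y) (hg : Squarefree g)
    (hgz : g ≤ z0) (hI : 1 + z0.factorial * I ≤ y) {x : Fin 6 → ℕ}
    (hx : x ∈ TG y (Ts B z0.factorial I)) :
    Sm z0 y g z0.factorial (x 0) (x 1) (x 2) (x 3) (x 4) (x 5) := by
  have hT : ∀ k, ∀ a ∈ Ts B z0.factorial I k, 0 < a ∧ a ≤ y := fun k a ha => by
    have := Ts_prop ha
    exact ⟨this.1, this.2.1.trans hI⟩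
  have m := fun i => Ts_prop (Fintype.mem_piFinset.1 (mem_filter.1 hx).1 i)
  have c := fun i j h => TG_cop hT hx i j h
  have hg0 : 0 < g := Nat.pos_of_ne_zero hg.ne_zero
  exact
  { hz := hz, hzy := hzy, hW0 := Nat.factorial_pos _, hW := dvd_fact, hg := hg
    hgW := Nat.dvd_factorial hg0 hgz
    ma := (m 0).2.2, mb := (m 1).2.2, mc := (m 2).2.2, mf := (m 3).2.2, ms := (m 4).2.2
    mt := (m 5).2.2, a0 := (m 0).1, b0 := (m 1).1, c0 := (m 2).1, f0 := (m 3).1, s0 := (m 4).1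
    t0 := (m 5).1, ay := (m 0).2.1.trans hI, byy := (m 1).2.1.trans hI
    cy := (m 2).2.1.trans hI, fy := (m 3).2.1.trans hI, sy := (m 4).2.1.trans hI
    ty := (m 5).2.1.trans hI
    ab := c 0 1 (by decide), ac := c 0 2 (by decide), af := c 0 3 (by decide)
    at1 := c 0 5 (by decide), bc := c 1 2 (by decide), bf := c 1 3 (by decide)
    bs := c 1 4 (by decide), cf := c 2 3 (by decide), cs := c 2 4 (by decide)
    ct := c 2 5 (by decide), fs := c 3 4 (by decide), ft := c 3 5 (by decide)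
    st := c 4 5 (by decide), sqs := TG_sqf hT hx 4, sqt := TG_sqf hT hx 5 }

/-- numbers in the class `±1` modulo `z0!` without prime factors in `(z0, y]` -/
lemma rgh_of {z0 y m : ℕ} (h1 : m.Coprime z0.factorial)
    (h2 : ∀ p ∈ Pd z0 y, ¬ p ∣ m) : Rgh y m := by
  intro p hp hpm
  by_contra hcon
  push Not at hcon
  by_cases hz : p ≤ z0
  · exact cop_not hp h1 hpm ((dvd_fact p hp).2 hz)
  · exact h2 p (mem_Pd.2 ⟨hp, by omega, hcon⟩) hpm

lemma sqf_of {z0 m : ℕ} (h1 : m.Coprime z0.factorial)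
    (h2 : ∀ p : ℕ, p.Prime → z0 < p → ¬ p ^ 2 ∣ m) : Squarefree m := by
  rw [Nat.squarefree_iff_prime_squarefree]
  intro p hp hpm
  by_cases hz : p ≤ z0
  · exact cop_not hp h1 ((dvd_mul_right _ _).trans hpm) ((dvd_fact p hp).2 hz)
  · exact h2 p hp (by omega) (by rw [pow_two]; exact hpm)

lemma cop_of_add {m W ρ : ℕ} (h : W ∣ m + ρ) (hρ : ρ.Coprime W) : m.Coprime W := by
  apply Nat.coprime_of_dvd
  intro p hp h1 h2
  have h3 := h2.trans h
  exact cop_not hp hρ ((Nat.dvd_add_right h1).1 h3) h2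

lemma alg_id {c g W a b d f s t SX L : ℝ} (hg : 0 < g) (hW : 0 < W) (ha : 0 < a) (hb : 0 < b)
    (hd : 0 < d) (hf : 0 < f) (hs : 0 < s) (ht : 0 < t) :
    c * (SX * (W * a * b * d * f) / 8) / (8 * (b ^ 2 * t * W) *
      (g * W ^ 2 * a ^ 2 * s * (d ^ 2 * f ^ 2 * W))) / L =
    c * SX / (64 * g * W ^ 3) * (1 / a * (1 / b) * (1 / d) * (1 / f) * (1 / s) * (1 / t)) / L := by
  congr 1
  field_simp
  ring

open Classical in
theorem one_param (I3 : Finset (Fin 3)) (h03 : 0 ∈ I3) : ∃ (C0 E : ℕ) (c : ℝ), 72 ≤ C0 ∧ 0 < c ∧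
    ∀ z0 g ρ : ℕ, C0 ≤ z0 → 4608 ≤ z0 →
    Squarefree g → g ≤ z0 → ρ.Coprime z0.factorial → ∃ y0 : ℕ, 64 ≤ y0 ∧ ∀ y : ℕ, y0 ≤ y → ∀ X : ℝ,
    (y : ℝ) ^ (4 * (2 * E + 36)) ≤ X → X < (y : ℝ) ^ (4 * (2 * E + 36) + 1) →
    ∀ x : Fin 6 → ℕ, Sm z0 y g z0.factorial (x 0) (x 1) (x 2) (x 3) (x 4) (x 5) →
    ∃ Ω : Finset (ℕ × ℕ),
    (∀ ω ∈ Ω, ∃ d e, Gd z0 y g z0.factorial x ω.1 ω.2 d e ∧
      (nv g z0.factorial x ω.1 ω.2 : ℝ) ≤ X ∧ ω.1 ≡ 1 [MOD z0.factorial] ∧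
      z0.factorial ∣ ω.2 + ρ ∧ (1 ∈ I3 → Rgh y d) ∧ (2 ∈ I3 → Rgh y e)) ∧
    c * Real.sqrt X / (64 * g * (z0.factorial : ℝ) ^ 3) * (∏ k, 1 / (x k : ℝ)) /
      Real.log y ^ (1 + I3.card) ≤ Ω.card := by
  obtain ⟨C01, E1, c1, hC01, hc1, hGN1⟩ := good_num 1 (by norm_num)
  have hI3 : I3.card ≤ 3 := by
    have := card_le_univ I3
    simpa using this
  obtain ⟨C02, E2, c2, hC02, hc2, hGN2⟩ := good_num I3.card hI3
  obtain ⟨E, hE⟩ : ∃ E, E = max E1 E2 := ⟨_, rfl⟩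
  have hE1 : E1 ≤ E := by omega
  have hE2 : E2 ≤ E := by omega
  refine ⟨max C01 C02, E, c1 * c2, hC01.trans (le_max_left _ _), by positivity, ?_⟩
  intro z0 g ρ hz0 hz46 hg hgz hρ
  have hz01 : C01 ≤ z0 := (le_max_left _ _).trans hz0
  have hz02 : C02 ≤ z0 := (le_max_right _ _).trans hz0
  set K2 := 2 * E + 36 with hK2
  obtain ⟨y11, hy11, hGN1⟩ := hGN1 (K2 + 3)
  obtain ⟨y12, hy12, hGN2⟩ := hGN2 (K2 + 3)
  obtain ⟨y1, hy1e⟩ : ∃ y1, y1 = max y11 y12 := ⟨_, rfl⟩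
  have hy1 : 64 ≤ y1 := by omega
  set W := z0.factorial with hWd
  have hW8 : 8 ≤ W := (by omega : 8 ≤ z0).trans (Nat.self_le_factorial z0)
  refine ⟨max y1 (2 * W), hy1.trans (le_max_left _ _), ?_⟩
  intro y hy X hX1 hX2 x sm
  have hyy1 : y1 ≤ y := (le_max_left _ _).trans hy
  have hyW : 2 * W ≤ y := (le_max_right _ _).trans hy
  have hzW : z0 ≤ W := Nat.self_le_factorial z0
  have hzy : z0 ≤ y := by omega
  have hg0 : 0 < g := Nat.pos_of_ne_zero hg.ne_zero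
  have hgy : g ≤ y := hgz.trans hzy
  have hWy : W ≤ y := by omega
  have hy64 : 64 ≤ y := hy1.trans hyy1
  have hyr : (64 : ℝ) ≤ y := by exact_mod_cast hy64
  have hy0 : (0 : ℝ) < y := by linarith
  have hyone : (1 : ℝ) ≤ y := by linarith
  have p0 := sm.a0
  have p1 := sm.b0
  have p2 := sm.c0
  have p3 := sm.f0
  have p4 := sm.s0
  have p5 := sm.t0
  have hW0 := sm.hW0
  -- A, B, q, w
  obtain ⟨A, hA⟩ : ∃ A, A = g * W ^ 2 * x 0 ^ 2 * x 4 := ⟨_, rfl⟩
  obtain ⟨B, hB⟩ : ∃ B, B = x 1 ^ 2 * x 5 := ⟨_, rfl⟩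
  obtain ⟨q, hq⟩ : ∃ q, q = x 2 ^ 2 * x 3 ^ 2 * W := ⟨_, rfl⟩
  obtain ⟨w, hw⟩ : ∃ w, w = W * x 0 * x 1 * x 2 * x 3 := ⟨_, rfl⟩
  have hA0 : 0 < A := by rw [hA]; positivity
  have hB0 : 0 < B := by rw [hB]; positivity
  have hq0 : 0 < q := by rw [hq]; positivity
  have hw0 : 0 < w := by rw [hw]; positivity
  have hAy : A ≤ y ^ 6 := by
    rw [hA]
    calc g * W ^ 2 * x 0 ^ 2 * x 4 ≤ y * y ^ 2 * y ^ 2 * y :=
          Nat.mul_le_mul (Nat.mul_le_mul (Nat.mul_le_mul hgy (Nat.pow_le_pow_left hWy 2))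
            (Nat.pow_le_pow_left sm.ay 2)) sm.sy
      _ = y ^ 6 := by ring
  have hBy : B ≤ y ^ 3 := by
    rw [hB]
    calc x 1 ^ 2 * x 5 ≤ y ^ 2 * y := Nat.mul_le_mul (Nat.pow_le_pow_left sm.byy 2) sm.ty
      _ = y ^ 3 := by ring
  have hqy : q ≤ y ^ 5 := by
    rw [hq]
    calc x 2 ^ 2 * x 3 ^ 2 * W ≤ y ^ 2 * y ^ 2 * y :=
          Nat.mul_le_mul (Nat.mul_le_mul (Nat.pow_le_pow_left sm.cy 2)
            (Nat.pow_le_pow_left sm.fy 2)) hWy
      _ = y ^ 5 := by ring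
  have hwy : w ≤ y ^ 5 := by
    rw [hw]
    calc W * x 0 * x 1 * x 2 * x 3 ≤ y * y * y * y * y :=
          Nat.mul_le_mul (Nat.mul_le_mul (Nat.mul_le_mul (Nat.mul_le_mul hWy sm.ay) sm.byy)
            sm.cy) sm.fy
      _ = y ^ 5 := by ring
  have hw8 : 8 ≤ w := by
    rw [hw]
    calc 8 = 8 * 1 * 1 * 1 * 1 := by norm_num
      _ ≤ W * x 0 * x 1 * x 2 * x 3 :=
          Nat.mul_le_mul (Nat.mul_le_mul (Nat.mul_le_mul (Nat.mul_le_mul hW8 p0) p1) p2) p3
  have hAr : (0 : ℝ) < A := by exact_mod_cast hA0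
  have hBr : (0 : ℝ) < B := by exact_mod_cast hB0
  have hqr : (0 : ℝ) < q := by exact_mod_cast hq0
  have hwr : (8 : ℝ) ≤ w := by exact_mod_cast hw8
  have hWr : (0 : ℝ) < W := by exact_mod_cast hW0
  have hAyr : (A : ℝ) ≤ (y : ℝ) ^ 6 := by exact_mod_cast hAy
  have hByr : (B : ℝ) ≤ (y : ℝ) ^ 3 := by exact_mod_cast hBy
  have hqyr : (q : ℝ) ≤ (y : ℝ) ^ 5 := by exact_mod_cast hqy
  have hwyr : (w : ℝ) ≤ (y : ℝ) ^ 5 := by exact_mod_cast hwy
  have hWyr : (W : ℝ) ≤ y := by exact_mod_cast hWy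
  have hWyr2 : 2 * (W : ℝ) ≤ y := by exact_mod_cast hyW
  -- U
  have hX0 : 0 ≤ X := le_trans (by positivity) hX1
  set U := Real.sqrt (Real.sqrt X * w / 8) with hU
  have hU0 : 0 ≤ U := Real.sqrt_nonneg _
  have hU2 : U ^ 2 = Real.sqrt X * w / 8 := Real.sq_sqrt (by positivity)
  have hU4 : U ^ 4 = X * (w : ℝ) ^ 2 / 64 := by
    have h1 : U ^ 4 = (U ^ 2) ^ 2 := by ring
    rw [h1, hU2]
    have h2 : (Real.sqrt X) ^ 2 = X := Real.sq_sqrt hX0
    calc (Real.sqrt X * w / 8) ^ 2 = (Real.sqrt X) ^ 2 * (w : ℝ) ^ 2 / 64 := by ring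
      _ = _ := by rw [h2]
  have hsX1 : (y : ℝ) ^ (2 * K2) ≤ Real.sqrt X := by
    apply Real.le_sqrt_of_sq_le
    rw [← pow_mul]
    have : 2 * K2 * 2 = 4 * K2 := by ring
    rw [this]
    exact hX1
  have hsX2 : Real.sqrt X ≤ (y : ℝ) ^ (2 * K2 + 1) := by
    rw [Real.sqrt_le_left (by positivity), ← pow_mul]
    refine hX2.le.trans ?_
    exact pow_le_pow_right₀ hyone (by omega)
  have hUlow : (y : ℝ) ^ K2 ≤ U := by
    rw [hU]
    apply Real.le_sqrt_of_sq_le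
    rw [← pow_mul, mul_comm K2 2]
    have h1 : 0 ≤ Real.sqrt X := Real.sqrt_nonneg _
    nlinarith
  have hUup : U ≤ (y : ℝ) ^ (K2 + 3) := by
    rw [hU, Real.sqrt_le_left (by positivity), ← pow_mul]
    calc Real.sqrt X * w / 8 ≤ (y : ℝ) ^ (2 * K2 + 1) * (y : ℝ) ^ 5 / 8 := by gcongr
      _ ≤ (y : ℝ) ^ (2 * K2 + 1) * (y : ℝ) ^ 5 / 1 := by
          apply div_le_div_of_nonneg_left (by positivity) (by norm_num) (by norm_num)
      _ = (y : ℝ) ^ ((K2 + 3) * 2) := by rw [div_one, ← pow_add]; congr 1; ring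
  have hUpos : 0 < U := lt_of_lt_of_le (by positivity) hUlow
  -- powers of y below U
  have pw : ∀ m : ℕ, m ≤ K2 → (y : ℝ) ^ m ≤ U := fun m hm =>
    (pow_le_pow_right₀ hyone hm).trans hUlow
  -- V'
  set V' := ⌊U / (2 * B * W)⌋₊ with hV'
  set V := ⌊U / (A * q)⌋₊ with hV
  have hBW : 2 * (B : ℝ) * W ≤ (y : ℝ) ^ 4 := by
    calc 2 * (B : ℝ) * W = (B : ℝ) * (2 * W) := by ring
      _ ≤ (y : ℝ) ^ 3 * y := by gcongr
      _ = _ := by ring
  have hAq : (A : ℝ) * q ≤ (y : ℝ) ^ 11 := by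
    calc (A : ℝ) * q ≤ (y : ℝ) ^ 6 * (y : ℝ) ^ 5 := by gcongr
      _ = _ := by ring
  have hr1 : (y : ℝ) ^ (K2 - 4) ≤ U / (2 * B * W) := by
    rw [le_div_iff₀ (by positivity)]
    calc (y : ℝ) ^ (K2 - 4) * (2 * B * W) ≤ (y : ℝ) ^ (K2 - 4) * (y : ℝ) ^ 4 := by gcongr
      _ = (y : ℝ) ^ K2 := by rw [← pow_add, Nat.sub_add_cancel (by omega)]
      _ ≤ U := hUlow
  have hr2 : (y : ℝ) ^ (K2 - 11) ≤ U / (A * q) := by
    rw [le_div_iff₀ (by positivity)]
    calc (y : ℝ) ^ (K2 - 11) * (A * q) ≤ (y : ℝ) ^ (K2 - 11) * (y : ℝ) ^ 11 := by gcongr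
      _ = (y : ℝ) ^ K2 := by rw [← pow_add, Nat.sub_add_cancel (by omega)]
      _ ≤ U := hUlow
  have hbig : ∀ m : ℕ, (64 : ℝ) ≤ (y : ℝ) ^ (m + 1) := fun m =>
    calc (64 : ℝ) ≤ y := hyr
      _ = (y : ℝ) ^ 1 := (pow_one _).symm
      _ ≤ _ := pow_le_pow_right₀ hyone (by omega)
  have hV'h : U / (2 * B * W) / 2 ≤ (V' : ℝ) := by
    apply floor_half
    have := hbig (K2 - 5)
    rw [show K2 - 5 + 1 = K2 - 4 by omega] at this
    linarith
  have hVh : U / (A * q) / 2 ≤ (V : ℝ) := by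
    apply floor_half
    have := hbig (K2 - 12)
    rw [show K2 - 12 + 1 = K2 - 11 by omega] at this
    linarith
  have hhalf : ∀ m : ℕ, (y : ℝ) ^ m ≤ (y : ℝ) ^ (m + 1) / 2 := fun m => by
    rw [le_div_iff₀ (by norm_num), pow_succ]
    apply mul_le_mul_of_nonneg_left (by linarith) (by positivity)
  have hV'y : y ^ (K2 - 5) ≤ V' := by
    have h1 := hhalf (K2 - 5)
    rw [show K2 - 5 + 1 = K2 - 4 by omega] at h1
    have h2 : ((y ^ (K2 - 5) : ℕ) : ℝ) ≤ V' := by push_cast; linarith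
    exact_mod_cast h2
  have hVy : y ^ (K2 - 12) ≤ V := by
    have h1 := hhalf (K2 - 12)
    rw [show K2 - 12 + 1 = K2 - 11 by omega] at h1
    have h2 : ((y ^ (K2 - 12) : ℕ) : ℝ) ≤ V := by push_cast; linarith
    exact_mod_cast h2
  have hV'le : (V' : ℝ) ≤ U / (2 * B * W) := Nat.floor_le (by positivity)
  have hVle : (V : ℝ) ≤ U / (A * q) := Nat.floor_le (by positivity)
  -- R
  set R := y ^ (E + 20) with hR
  have hR2 : ∀ m : ℕ, (m : ℝ) ≤ 4 * U → m < (R + 1) ^ 2 := by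
    intro m hm
    have h1 : (m : ℝ) ≤ (y : ℝ) ^ (K2 + 4) := by
      calc (m : ℝ) ≤ 4 * U := hm
        _ ≤ y * (y : ℝ) ^ (K2 + 3) := by
            apply mul_le_mul (by linarith) hUup hU0 hy0.le
        _ = _ := by ring
    have h2 : m ≤ y ^ (K2 + 4) := by exact_mod_cast h1
    have h3 : y ^ (K2 + 4) = R ^ 2 := by
      rw [hR, ← pow_mul]; congr 1; omega
    have h4 : R ^ 2 < (R + 1) ^ 2 := Nat.pow_lt_pow_left (by omega) (by norm_num)
    omega
  have hy1' : 1 ≤ y := by omega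
  have hRV' : R * y ≤ V' := by
    refine le_trans ?_ hV'y
    rw [hR, ← pow_succ]
    exact Nat.pow_le_pow_right hy1' (by omega)
  have hRV : R * y ≤ V := by
    refine le_trans ?_ hVy
    rw [hR, ← pow_succ]
    exact Nat.pow_le_pow_right hy1' (by omega)
  have hEV' : y ^ (E + 3) ≤ V' := (Nat.pow_le_pow_right hy1' (by omega)).trans hV'y
  have hEV : y ^ (E + 3) ≤ V := (Nat.pow_le_pow_right hy1' (by omega)).trans hVy
  -- the t's
  set τ := 1 + W * y ^ 6 with hτ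
  have hBt : ∀ j, j ≤ V' → (B : ℝ) * ((τ + W * j : ℕ) : ℝ) ≤ U := by
    intro j hj
    have h1 : (B : ℝ) * τ ≤ U / 2 := by
      rw [hτ]
      push_cast
      have h2 : (B : ℝ) * (1 + W * (y : ℝ) ^ 6) ≤ (y : ℝ) ^ 3 * ((y : ℝ) ^ 7) := by
        apply mul_le_mul hByr _ (by positivity) (by positivity)
        have h3 : (1 : ℝ) ≤ (y : ℝ) ^ 6 * W := by
          have h4 : (1 : ℝ) ≤ (y : ℝ) ^ 6 := one_le_pow₀ hyone
          have h5 : (1 : ℝ) ≤ W := by exact_mod_cast hW0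
          nlinarith
        calc 1 + W * (y : ℝ) ^ 6 ≤ (y : ℝ) ^ 6 * (2 * W) := by linarith
          _ ≤ (y : ℝ) ^ 6 * y := by gcongr
          _ = _ := by ring
      have h4 := hhalf 10
      have h5 := pw 11 (by omega)
      have h6 : (y : ℝ) ^ 3 * (y : ℝ) ^ 7 = (y : ℝ) ^ 10 := by ring
      rw [h6] at h2
      norm_num at h4
      linarith
    have h2 : (B : ℝ) * (W * j) ≤ U / 2 := by
      have h3 : (j : ℝ) ≤ U / (2 * B * W) := le_trans (by exact_mod_cast hj) hV'le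
      calc (B : ℝ) * (W * j) ≤ B * (W * (U / (2 * B * W))) := by gcongr
        _ = U / 2 := by field_simp
    push_cast
    have h3 : (B : ℝ) * (τ + W * j) = B * τ + B * (W * j) := by ring
    rw [h3]
    linarith
  have hB1 : (1 : ℝ) ≤ B := by exact_mod_cast hB0
  have htU : ∀ j, j ≤ V' → ((τ + W * j : ℕ) : ℝ) ≤ U := by
    intro j hj
    have h1 := hBt j hj
    have h2 : (0 : ℝ) ≤ ((τ + W * j : ℕ) : ℝ) := Nat.cast_nonneg _
    nlinarith
  have hcopτ : ∀ j, (τ + W * j).Coprime W := by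
    intro j
    apply cop_of_mod
    have h1 : τ + W * j = 1 + W * (y ^ 6 + j) := by rw [hτ]; ring
    rw [h1]
    exact Nat.ModEq.add_left 1 (Nat.modEq_zero_iff_dvd.2 (dvd_mul_right _ _))
  have hmodτ : ∀ j, τ + W * j ≡ 1 [MOD W] := by
    intro j
    have h1 : τ + W * j = 1 + W * (y ^ 6 + j) := by rw [hτ]; ring
    rw [h1]
    exact Nat.ModEq.add_left 1 (Nat.modEq_zero_iff_dvd.2 (dvd_mul_right _ _))
  have hOk1 : Ok z0 (fun _ => τ) (fun _ => W) := by
    intro i p hp hpz hpW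
    exfalso
    have := (sm.hW p hp).1 hpW
    omega
  have cnt1 := hGN1 z0 y V' R hz01 hzy (by omega) ((Nat.pow_le_pow_right hy1' (by omega)).trans hEV')
    hRV' {0} (by simp) (fun _ => τ) (fun _ => W) hOk1
    (fun _ => by rw [hτ]; omega)
    (fun _ k hk => hR2 _ ((htU k hk).trans (by linarith))) ∅ (by simp) (by simp)
  set J := (Icc 1 V').filter (fun k => (∀ p ∈ Pd z0 y, ¬ hitI z0 {0} (fun _ => τ) (fun _ => W) p k) ∧
        (∀ p : ℕ, p.Prime → z0 < p → ∀ i : Fin 3, ¬ p ^ 2 ∣ τ + W * k) ∧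
        ∀ p ∈ (∅ : Finset ℕ), ¬ p ∣ τ + W * k) with hJ
  have hJprop : ∀ j ∈ J, Rgh y (τ + W * j) ∧ Squarefree (τ + W * j) ∧ j ≤ V' := by
    intro j hj
    rw [hJ, mem_filter, mem_Icc] at hj
    obtain ⟨⟨_, hj2⟩, h1, h2, _⟩ := hj
    refine ⟨rgh_of (hcopτ j) ?_, sqf_of (hcopτ j) (fun p hp hz => h2 p hp hz 0), hj2⟩
    intro p hp hd
    exact h1 p hp ⟨(mem_Pd.1 hp).2.1, 0, mem_singleton_self _, hd⟩
  -- the s's
  set S := ⌊U / A⌋₊ + 1 with hS
  have hS1 : U < A * S := by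
    have h1 := Nat.lt_floor_add_one (U / A)
    rw [div_lt_iff₀ hAr] at h1
    rw [hS]
    push_cast
    linarith
  have hS2 : (A : ℝ) * S ≤ U + A := by
    have h1 : (⌊U / A⌋₊ : ℝ) ≤ U / A := Nat.floor_le (by positivity)
    rw [le_div_iff₀ hAr] at h1
    rw [hS]
    push_cast
    linarith
  have cAW : ∀ m : ℕ, (x 0).Coprime m → (x 4).Coprime m → m.Coprime W → A.Coprime m := by
    intro m h1 h2 h3
    rw [hA]
    exact Nat.Coprime.mul_left (Nat.Coprime.mul_left (Nat.Coprime.mul_left (sm.gcop h3).symm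
      (h3.symm.pow_left 2)) (h1.pow_left 2)) h2
  have ccW := cop_of_mod sm.mc
  have cfW := cop_of_mod sm.mf
  have hAc : A.Coprime (x 2) := cAW _ sm.ac sm.cs.symm ccW
  have hAf : A.Coprime (x 3) := cAW _ sm.af sm.fs.symm cfW
  have hkap : ∀ t, ∃ κ, S ≤ κ ∧ κ < S + x 2 ^ 2 * x 3 ^ 2 * W ∧ κ ≡ (W - 1) * ρ [MOD W] ∧
      A * κ ≡ B * t [MOD x 2 ^ 2] ∧ x 3 ^ 2 ∣ A * κ + B * t := fun t =>
    exists_kappa hAc hAf sm.cf ccW cfW p2 p3 hW0 t ((W - 1) * ρ) S
  choose kap hk1 hk2 hk3 hk4 hk5 using hkap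
  have hbase : ∀ j ∈ J, Base z0 y W A B (x 2) (x 3) (τ + W * j) (kap (τ + W * j)) := by
    intro j hj
    obtain ⟨h1, h2, h3⟩ := hJprop j hj
    have hB' : B = x 1 ^ 2 * x 5 := hB
    refine
    { hz := by omega
      hW := dvd_fact
      hA := ?_
      hc := fun p hp hd => (Nat.le_of_dvd p2 hd).trans sm.cy
      hf := fun p hp hd => (Nat.le_of_dvd p3 hd).trans sm.fy
      hAB := ?_
      hAc := hAc
      hAf := hAf
      hBc := ?_
      hBf := ?_
      hcf := sm.cf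
      hcW := ccW
      hfW := cfW
      hc0 := p2
      hf0 := p3
      ht := h1
      k1 := hk4 _
      k2 := hk5 _
      pos := ?_ }
    · intro p hp hd
      rw [hA] at hd
      rcases (Nat.Prime.dvd_mul hp).1 hd with hd | hd
      · rcases (Nat.Prime.dvd_mul hp).1 hd with hd | hd
        · rcases (Nat.Prime.dvd_mul hp).1 hd with hd | hd
          · exact (Nat.le_of_dvd hg0 hd).trans hgy
          · exact (Nat.le_of_dvd hW0 (hp.dvd_of_dvd_pow hd)).trans hWy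
        · exact (Nat.le_of_dvd p0 (hp.dvd_of_dvd_pow hd)).trans sm.ay
      · exact (Nat.le_of_dvd p4 hd).trans sm.sy
    · rw [hB]
      apply cAW
      · exact Nat.Coprime.mul_right (sm.ab.pow_right 2) sm.at1
      · exact Nat.Coprime.mul_right (sm.bs.symm.pow_right 2) sm.st
      · exact Nat.Coprime.mul_left ((cop_of_mod sm.mb).pow_left 2) (cop_of_mod sm.mt)
    · rw [hB]
      exact Nat.Coprime.mul_left (sm.bc.pow_left 2) sm.ct.symm
    · rw [hB]
      exact Nat.Coprime.mul_left (sm.bf.pow_left 2) sm.ft.symm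
    · have h4 := hBt j h3
      have h5 : (A : ℝ) * S ≤ A * kap (τ + W * j) := by
        apply mul_le_mul_of_nonneg_left _ hAr.le
        exact_mod_cast hk1 _
      have h6 : (B : ℝ) * ((τ + W * j : ℕ) : ℝ) < A * kap (τ + W * j) := by linarith
      exact_mod_cast h6
  -- the upper bound for u
  have hu3 : ∀ t k, k ≤ V → ((A * (kap t + q * k) : ℕ) : ℝ) ≤ 3 * U := by
    intro t k hk
    have h1 : (kap t : ℝ) ≤ S + q := by
      have := hk2 t
      rw [← hq] at this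
      exact_mod_cast this.le
    have h2 : (A : ℝ) * (q * k) ≤ U := by
      have h3 : (k : ℝ) ≤ U / (A * q) := le_trans (by exact_mod_cast hk) hVle
      calc (A : ℝ) * (q * k) ≤ A * (q * (U / (A * q))) := by gcongr
        _ = U := by field_simp
    have h3 : (A : ℝ) * q + A ≤ U := by
      have h4 := pw 12 (by omega)
      have h5 := hhalf 11
      norm_num at h5
      have h6 : (A : ℝ) ≤ (y : ℝ) ^ 11 := hAyr.trans (pow_le_pow_right₀ hyone (by norm_num))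
      linarith
    have h4 : (A : ℝ) * kap t ≤ A * (S + q) := mul_le_mul_of_nonneg_left h1 hAr.le
    push_cast
    have h5 : (A : ℝ) * (kap t + q * k) = A * kap t + A * (q * k) := by ring
    have h6 : (A : ℝ) * (S + q) = A * S + A * q := by ring
    rw [h5]
    linarith
  set KK : ℕ → Finset ℕ := fun j => (Icc 1 V).filter (fun k =>
      (∀ p ∈ Pd z0 y, ¬ hitI z0 I3 (al A B (x 2) (x 3) (τ + W * j) (kap (τ + W * j)))
        (be W A (x 2) (x 3)) p k) ∧
      (∀ p : ℕ, p.Prime → z0 < p → ∀ i, ¬ p ^ 2 ∣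
        al A B (x 2) (x 3) (τ + W * j) (kap (τ + W * j)) i + be W A (x 2) (x 3) i * k) ∧
      ∀ p ∈ (τ + W * j).primeFactors, ¬ p ∣
        al A B (x 2) (x 3) (τ + W * j) (kap (τ + W * j)) 0 + be W A (x 2) (x 3) 0 * k) with hKK
  have cnt2 : ∀ j ∈ J, c2 * V / Real.log y ^ I3.card ≤ ((KK j).card : ℝ) := by
    intro j hj
    obtain ⟨h1, h2, h3⟩ := hJprop j hj
    have hb := hbase j hj
    have ht0 : τ + W * j ≠ 0 := by rw [hτ]; omega
    apply hGN2 z0 y V R hz02 hzy (by omega) ((Nat.pow_le_pow_right hy1' (by omega)).trans hEV)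
      hRV I3 le_rfl _ _ hb.ok hb.al_pos
    · intro i k hk
      apply hR2
      have h4 := hb.le hA0 i k
      rw [al_zero, be_zero, ← hq] at h4
      have h5 : ((al A B (x 2) (x 3) (τ + W * j) (kap (τ + W * j)) i +
          be W A (x 2) (x 3) i * k : ℕ) : ℝ) ≤
          ((A * (kap (τ + W * j) + q * k) + B * (τ + W * j) : ℕ) : ℝ) := by exact_mod_cast h4
      have h6 := hu3 (τ + W * j) k hk
      have h7 := hBt j h3
      have h8 : ((A * (kap (τ + W * j) + q * k) + B * (τ + W * j) : ℕ) : ℝ) =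
          ((A * (kap (τ + W * j) + q * k) : ℕ) : ℝ) + (B : ℝ) * ((τ + W * j : ℕ) : ℝ) := by
        rw [Nat.cast_add, Nat.cast_mul B]
      rw [h8] at h5
      linarith
    · intro p hp
      rw [Nat.mem_primeFactors] at hp
      exact ⟨hp.1, h1 p hp.1 hp.2.1⟩
    · -- the number of the prime factors of t
      have h4 : ∏ p ∈ (τ + W * j).primeFactors, p ≤ τ + W * j :=
        Nat.le_of_dvd (by omega) (Nat.prod_primeFactors_dvd _)
      have h5 : y ^ (τ + W * j).primeFactors.card ≤ ∏ p ∈ (τ + W * j).primeFactors, p := by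
        rw [← prod_const]
        apply prod_le_prod'
        intro p hp
        rw [Nat.mem_primeFactors] at hp
        exact (h1 p hp.1 hp.2.1).le
      have h6 : ((τ + W * j : ℕ) : ℝ) ≤ ((y ^ (K2 + 3) : ℕ) : ℝ) := by
        push_cast
        have := (htU j h3).trans hUup
        push_cast at this
        exact this
      have h7 : τ + W * j ≤ y ^ (K2 + 3) := by exact_mod_cast h6
      have h8 : y ^ (τ + W * j).primeFactors.card ≤ y ^ (K2 + 3) := by omega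
      exact (Nat.pow_le_pow_iff_right (by omega : 1 < y)).1 h8
  -- the set
  refine ⟨(J.sigma (fun j => KK j)).image (fun jk => (τ + W * jk.1, kap (τ + W * jk.1) + q * jk.2)),
    ?_, ?_⟩
  · intro ω hω
    rw [mem_image] at hω
    obtain ⟨⟨j, k⟩, hjk, rfl⟩ := hω
    rw [mem_sigma] at hjk
    obtain ⟨hj, hk⟩ := hjk
    simp only at hj hk ⊢
    obtain ⟨h1, h2, h3⟩ := hJprop j hj
    have hb := hbase j hj
    rw [hKK] at hk
    simp only [mem_filter, mem_Icc] at hk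
    obtain ⟨⟨hk0, hkV⟩, g1, g2, g3⟩ := hk
    set t := τ + W * j with ht
    set κ := kap t with hκ
    have e0 : al A B (x 2) (x 3) t κ 0 + be W A (x 2) (x 3) 0 * k = κ + q * k := by
      rw [al_zero, be_zero, ← hq]
    have r1 := hb.one' k
    have r2 := hb.two' k
    rw [e0] at r1 r2 g3
    set d := al A B (x 2) (x 3) t κ 1 + be W A (x 2) (x 3) 1 * k with hd
    set e := al A B (x 2) (x 3) t κ 2 + be W A (x 2) (x 3) 2 * k with he
    set s := κ + q * k with hs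
    have hsW : W ∣ s + ρ := by
      have h4 : s + ρ ≡ (W - 1) * ρ + ρ [MOD W] := by
        apply Nat.ModEq.add_right
        have h5 : q * k ≡ 0 [MOD W] := by
          rw [Nat.modEq_zero_iff_dvd, hq]
          exact (dvd_mul_left W _).mul_right _
        exact (Nat.ModEq.add (hk3 t) h5)
      have h6 : (W - 1) * ρ + ρ = W * ρ := by
        obtain ⟨W', hW'⟩ : ∃ W', W = W' + 1 := ⟨W - 1, by omega⟩
        rw [hW', Nat.add_sub_cancel]
        ring
      rw [h6] at h4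
      exact Nat.modEq_zero_iff_dvd.1 (h4.trans (Nat.modEq_zero_iff_dvd.2 (dvd_mul_right _ _)))
    have hscop := cop_of_add hsW hρ
    have hsr : Rgh y s := rgh_of hscop (fun p hp hdv =>
      g1 p hp ⟨(mem_Pd.1 hp).2.1, 0, h03, by rw [e0]; exact hdv⟩)
    have hssq : Squarefree s := sqf_of hscop (fun p hp hz hdv => g2 p hp hz 0 (by rw [e0]; exact hdv))
    have hst : s.Coprime t := by
      apply Nat.coprime_of_dvd
      intro p hp hps hpt
      exact g3 p (Nat.mem_primeFactors.2 ⟨hp, hpt, by rw [ht, hτ]; omega⟩) hps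
    have q1 : x 2 ^ 2 * d + x 1 ^ 2 * x 5 * t = g * W ^ 2 * x 0 ^ 2 * x 4 * s := by
      rw [← hA, ← hB]; exact r1
    have q2 : x 3 ^ 2 * e = g * W ^ 2 * x 0 ^ 2 * x 4 * s + x 1 ^ 2 * x 5 * t := by
      rw [← hA, ← hB]; exact r2
    -- d, e coprime to W
    have huv := sm.uv hsr h1 hst
    have hu2 : 2 ∣ g * W ^ 2 * x 0 ^ 2 * x 4 * s := by
      have : W ∣ g * W ^ 2 * x 0 ^ 2 * x 4 * s := ⟨g * W * x 0 ^ 2 * x 4 * s, by ring⟩
      exact sm.two_dvd.trans this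
    obtain ⟨du, dv, eu, ev, de⟩ := four_cop huv hu2 q1 q2
    have hWu : W ∣ g * W ^ 2 * x 0 ^ 2 * x 4 * s := ⟨g * W * x 0 ^ 2 * x 4 * s, by ring⟩
    have hdW : d.Coprime W := Nat.Coprime.coprime_dvd_right hWu du
    have heW : e.Coprime W := Nat.Coprime.coprime_dvd_right hWu eu
    have hdsq : Squarefree d := sqf_of hdW (fun p hp hz => g2 p hp hz 1)
    have hesq : Squarefree e := sqf_of heW (fun p hp hz => g2 p hp hz 2)
    have hgd : Gd z0 y g W x t s d e :=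
      { sm := sm, rs := hsr, rt := h1, st := hst, ss := hssq, ts := h2, ds := hdsq, es := hesq
        ty := by
          rw [ht, hτ]
          have : y ^ 6 ≤ W * y ^ 6 := Nat.le_mul_of_pos_left _ hW0
          omega
        h1 := q1, h2 := q2 }
    refine ⟨d, e, hgd, ?_, hmodτ j, hsW, fun hi => rgh_of hdW (fun p hp hdv =>
      g1 p hp ⟨(mem_Pd.1 hp).2.1, 1, hi, hdv⟩), fun hi => rgh_of heW (fun p hp hdv =>
      g1 p hp ⟨(mem_Pd.1 hp).2.1, 2, hi, hdv⟩)⟩
    rw [nv_eq hgd]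
    have hid := ident g W (x 0) (x 1) (x 2) (x 3) (x 4) (x 5) s t d e
    rw [← hw, ← hA, ← hB] at hid
    have q1' : x 2 ^ 2 * d + B * t = A * s := r1
    have q2' : x 3 ^ 2 * e = A * s + B * t := r2
    apply size_le hw0 q1' q2' hid X U hX0 hU0 hU4
    · exact hu3 t k hkV
    · have := hBt j h3
      rw [← ht] at this
      rw [Nat.cast_mul]
      exact this
  · -- the count
    have hinj : Set.InjOn (fun jk : (_ : ℕ) × ℕ => (τ + W * jk.1, kap (τ + W * jk.1) + q * jk.2))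
        (J.sigma (fun j => KK j)) := by
      rintro ⟨j, k⟩ _ ⟨j', k'⟩ _ h
      simp only [Prod.mk.injEq] at h
      obtain ⟨h1, h2⟩ := h
      have h3 : W * j = W * j' := by omega
      have h4 : j = j' := Nat.eq_of_mul_eq_mul_left hW0 h3
      subst h4
      have h5 : q * k = q * k' := by omega
      have h6 : k = k' := Nat.eq_of_mul_eq_mul_left hq0 h5
      subst h6
      rfl
    rw [card_image_of_injOn hinj, card_sigma]
    push_cast
    have hL : 0 < Real.log y := Real.log_pos (by linarith)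
    have hLI : 0 < Real.log y ^ I3.card := pow_pos hL _
    have hcV : 0 ≤ c2 * V / Real.log y ^ I3.card := by positivity
    rw [pow_one] at cnt1
    have h1 : (J.card : ℝ) * (c2 * V / Real.log y ^ I3.card) ≤ ∑ j ∈ J, ((KK j).card : ℝ) := by
      rw [← nsmul_eq_mul, ← sum_const]
      apply sum_le_sum
      intro j hj
      exact cnt2 j hj
    have h2 : c1 * V' / Real.log y * (c2 * V / Real.log y ^ I3.card) ≤
        ∑ j ∈ J, ((KK j).card : ℝ) :=
      (mul_le_mul_of_nonneg_right cnt1 hcV).trans h1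
    have h3 : c1 * (U / (2 * B * W) / 2) / Real.log y *
        (c2 * (U / (A * q) / 2) / Real.log y ^ I3.card) =
        c1 * c2 * Real.sqrt X / (64 * g * (W : ℝ) ^ 3) * (∏ k, 1 / (x k : ℝ)) /
          Real.log y ^ (1 + I3.card) := by
      have h4 : c1 * (U / (2 * B * W) / 2) / Real.log y *
          (c2 * (U / (A * q) / 2) / Real.log y ^ I3.card) =
          c1 * c2 * U ^ 2 / (8 * (B * W) * (A * q)) / Real.log y ^ (1 + I3.card) := by
        rw [pow_add, pow_one]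
        field_simp
        ring
      rw [h4, hU2, hA, hB, hq, hw, Fin.prod_univ_six]
      push_cast
      exact alg_id (by exact_mod_cast hg0) hWr (by exact_mod_cast p0) (by exact_mod_cast p1)
        (by exact_mod_cast p2) (by exact_mod_cast p3) (by exact_mod_cast p4) (by exact_mod_cast p5)
    refine le_trans ?_ h2
    rw [← h3]
    gcongr

end Pool.Agent.V7H99.LG
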