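import Mathlib
import Pool.Agent.V7H99.LG.S9

set_option autoImplicit false

/-! The lower bound for the number of congruent numbers. -/

namespace Pool.Agent.V7H99.LG
open Finset
open Pool.Agent.V7H99.CD (Cong)

/-- the numbers counted -/
def Tg (a M : ℕ) (P : ℕ → Prop) (X : ℝ) : Set ℕ :=
  {n : ℕ | (n : ℝ) ≤ X ∧ Squarefree n ∧ n ≡ a [MOD M] ∧ Cong n ∧
    ∃ k, n = Nat.gcd a M * k ∧ Odd k ∧ P k}

lemma exists_rho (a M W : ℕ) (hM : 0 < M) (hW : 0 < W) :
    ∃ ρ, ρ.Coprime W ∧ Nat.gcd a M * ρ ≡ a [MOD M] := by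
  classical
  obtain ⟨G, a', M', hG, hco, h1, h2⟩ := Nat.exists_coprime' (m := a) (n := M)
    (Nat.gcd_pos_of_pos_right a hM)
  have hgcd : Nat.gcd a M = G := by
    rw [h1, h2, Nat.gcd_mul_right, hco, one_mul]
  set r := ∏ p ∈ W.primeFactors.filter (fun p => ¬ p ∣ M'), p with hr
  have hcr : Nat.Coprime M' r := by
    rw [hr]
    apply Nat.Coprime.prod_right
    intro p hp
    rw [mem_filter] at hp
    exact ((Nat.Prime.coprime_iff_not_dvd (Nat.prime_of_mem_primeFactors hp.1)).2 hp.2).symm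
  obtain ⟨t, ht1, ht2⟩ := Nat.chineseRemainder hcr a' 1
  refine ⟨t, ?_, ?_⟩
  · apply Nat.coprime_of_dvd
    intro p hp hpt hpW
    by_cases hpM : p ∣ M'
    · have h3 : p ∣ a' := ((ht1.of_dvd hpM).dvd_iff dvd_rfl).1 hpt
      exact cop_not hp hco h3 hpM
    · have h1 : p ∣ r := by
        rw [hr]
        apply dvd_prod_of_mem (fun p => p)
        rw [mem_filter, Nat.mem_primeFactors]
        exact ⟨⟨hp, hpW, by omega⟩, hpM⟩
      have h3 : p ∣ 1 := ((ht2.of_dvd h1).dvd_iff dvd_rfl).1 hpt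
      exact hp.one_lt.ne' (Nat.dvd_one.1 h3)
  · rw [hgcd]
    have h3 : G * t ≡ G * a' [MOD G * M'] := Nat.ModEq.mul_left' G ht1
    have e1 : G * M' = M := by rw [h2, mul_comm]
    have e2 : G * a' = a := by rw [h1, mul_comm]
    rw [e1, e2] at h3
    exact h3

lemma Tg_fin (g M : ℕ) (P : ℕ → Prop) (X : ℝ) : (Tg g M P X).Finite := by
  apply (Set.finite_Iic ⌊X⌋₊).subset
  intro n hn
  exact Nat.le_floor hn.1

lemma alg2 {c g W SX L : ℝ} (m r e : ℕ) (hm : m = r + e) (hg : 0 < g) (hW : 0 < W) (hL : 0 < L) :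
    c / (128 * g * W ^ 3 * (4 * W) ^ m) * SX * L ^ e =
      c * SX / (64 * g * W ^ 3) / L ^ r * ((L / (4 * W)) ^ m / 2) := by
  subst hm
  rw [div_pow, pow_add L]
  field_simp
  ring

lemma alg3 {c S L F b : ℝ} (e : ℕ) (hF : 0 < F) (hb : 0 < b) :
    c / (F * b ^ e) * S * (b * L) ^ e = (c * S * L ^ e) / F := by
  rw [mul_pow]
  field_simp

lemma Ts_prod (B : Bool) (W I m : ℕ) (hm : m = if B = true then 4 else 6) :
    ∏ k, ∑ a ∈ Ts B W I k, 1 / (a : ℝ) = Hs W I ^ m := by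
  have h : ∑ a ∈ As W I, 1 / (a : ℝ) = Hs W I := rfl
  cases B
  · have e : ∀ k, Ts false W I k = As W I := fun k => by simp [Ts]
    simp only [e, h, prod_const, card_univ, Fintype.card_fin]
    rw [hm]
    simp
  · rw [Fin.prod_univ_six]
    have e0 : Ts true W I 0 = As W I := by simp [Ts]
    have e1 : Ts true W I 1 = As W I := by simp [Ts]
    have e2 : Ts true W I 2 = As W I := by simp [Ts]
    have e3 : Ts true W I 3 = As W I := by simp [Ts]
    have e4 : Ts true W I 4 = {1} := by simp [Ts]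
    have e5 : Ts true W I 5 = {1} := by simp [Ts]
    rw [e0, e1, e2, e3, e4, e5, h, hm]
    simp
    ring

open Classical in
theorem main_gen (I3 : Finset (Fin 3)) (h03 : 0 ∈ I3) (B : Bool) (m e : ℕ)
    (hm : m = if B = true then 4 else 6) (hme : m = (1 + I3.card) + e)
    (a M : ℕ) (hM : 0 < M) (hg : Squarefree (Nat.gcd a M)) :
    ∃ c : ℝ, 0 < c ∧ ∃ R : ℕ, 0 < R ∧ ∃ X0 : ℝ,
    1 ≤ X0 ∧ ∀ X : ℝ, X0 ≤ X →
      c * Real.sqrt X * Real.log X ^ e ≤ ((Tg a M (fun k => B = true → 1 ∈ I3 → 2 ∈ I3 →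
        ∀ p : ℕ, p.Prime → p ∣ k → X ^ (1 / (R : ℝ)) < p) X).ncard : ℝ) := by
  obtain ⟨C0, E, c, hC0, hc, hOne⟩ := one_param I3 h03
  obtain ⟨K, hK⟩ : ∃ K, K = 4 * (2 * E + 36) := ⟨_, rfl⟩
  simp only [← hK] at hOne
  obtain ⟨g, hga⟩ : ∃ g, g = Nat.gcd a M := ⟨_, rfl⟩
  rw [← hga] at hg
  set z0 := max (max C0 4608) (max g M) with hz0
  have hz1 : C0 ≤ z0 := (le_max_left _ _).trans (le_max_left _ _)
  have hz2 : 4608 ≤ z0 := (le_max_right _ _).trans (le_max_left _ _)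
  have hz3 : g ≤ z0 := (le_max_left _ _).trans (le_max_right _ _)
  have hz4 : M ≤ z0 := (le_max_right _ _).trans (le_max_right _ _)
  obtain ⟨ρ, hρ, hρa⟩ := exists_rho a M z0.factorial hM (Nat.factorial_pos _)
  rw [← hga] at hρa
  obtain ⟨y0, hy064, hOne⟩ := hOne z0 g ρ hz1 hz2 hg hz3 hρ
  set W := z0.factorial with hW
  have hW0 : 0 < W := Nat.factorial_pos _
  have hWz : z0 ≤ W := Nat.self_le_factorial z0
  have hMW : M ∣ W := Nat.dvd_factorial hM hz4
  have hg0 : 0 < g := Nat.pos_of_ne_zero hg.ne_zero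
  obtain ⟨m1, hm1⟩ := exists_nat_ge (Real.exp (4 * W))
  set y1 := max (max y0 (2 ^ K)) (max (W ^ 2) m1) with hy1
  have hgr : (0 : ℝ) < g := by exact_mod_cast hg0
  have hWr : (0 : ℝ) < W := by exact_mod_cast hW0
  have hWr1 : (1 : ℝ) ≤ W := by exact_mod_cast hW0
  set c3 : ℝ := c / (128 * g * (W : ℝ) ^ 3 * (4 * W) ^ m) with hc3
  have hc30 : 0 < c3 := by positivity
  have hK0 : 0 < K := by omega
  refine ⟨c3 / (4 ^ K * (K + 1) ^ e), by positivity, K, hK0, ((y1 : ℝ) + 1) ^ K,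
    one_le_pow₀ (by linarith [(Nat.cast_nonneg y1 : (0 : ℝ) ≤ y1)]), fun X hX => ?_⟩
  have hX0 : 0 ≤ X := le_trans (by positivity) hX
  have hX1 : 1 ≤ X := le_trans (one_le_pow₀ (by linarith [(Nat.cast_nonneg y1 : (0 : ℝ) ≤ y1)])) hX
  have hKr : (0 : ℝ) < K := by exact_mod_cast hK0
  set ξ := X ^ (1 / (K : ℝ)) with hξ
  have hξ0 : 0 ≤ ξ := Real.rpow_nonneg hX0 _
  have hξK : ξ ^ K = X := by
    rw [hξ, ← Real.rpow_natCast, ← Real.rpow_mul hX0]
    rw [one_div, inv_mul_cancel₀ hKr.ne', Real.rpow_one]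
  set y := ⌊ξ⌋₊ with hy
  have hyξ : (y : ℝ) ≤ ξ := Nat.floor_le hξ0
  have hξy : ξ < y + 1 := Nat.lt_floor_add_one ξ
  have hy1y : y1 ≤ y := by
    rw [hy]
    apply Nat.le_floor
    have h1 : ((y1 : ℝ) + 1) ≤ ξ := by
      by_contra hcon
      push Not at hcon
      have := pow_lt_pow_left₀ hcon hξ0 hK0.ne'
      rw [hξK] at this
      linarith
    linarith
  have hyy0 : y0 ≤ y := ((le_max_left _ _).trans (le_max_left _ _)).trans hy1y
  have hy2K : 2 ^ K ≤ y := ((le_max_right _ _).trans (le_max_left _ _)).trans hy1y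
  have hyW2 : W ^ 2 ≤ y := ((le_max_left _ _).trans (le_max_right _ _)).trans hy1y
  have hym1 : m1 ≤ y := ((le_max_right _ _).trans (le_max_right _ _)).trans hy1y
  have hy64 : 64 ≤ y := hy064.trans hyy0
  have hyr : (64 : ℝ) ≤ y := by exact_mod_cast hy64
  have hy0' : (0 : ℝ) < y := by linarith
  have hXlow : (y : ℝ) ^ K ≤ X := by
    rw [← hξK]
    exact pow_le_pow_left₀ hy0'.le hyξ K
  have hXup : X < (y : ℝ) ^ (K + 1) := by
    calc X = ξ ^ K := hξK.symm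
      _ < ((y : ℝ) + 1) ^ K := pow_lt_pow_left₀ hξy hξ0 hK0.ne'
      _ ≤ (2 * (y : ℝ)) ^ K := pow_le_pow_left₀ (by positivity) (by linarith) K
      _ = 2 ^ K * (y : ℝ) ^ K := mul_pow _ _ _
      _ ≤ y * (y : ℝ) ^ K := by
          apply mul_le_mul_of_nonneg_right _ (by positivity)
          exact_mod_cast hy2K
      _ = _ := by ring
  set I := (y - 1) / W with hI
  have hIy : 1 + W * I ≤ y := by
    have h : W * I ≤ y - 1 := Nat.mul_div_le (y - 1) W
    omega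
  have hIW : y ≤ W * (I + 1) := by
    have := Nat.lt_mul_div_succ (y - 1) hW0
    have h2 : y - 1 < W * (I + 1) := this
    omega
  have hzy : z0 ≤ y := by
    have h1 : W * 1 ≤ W ^ 2 := by rw [pow_two]; exact Nat.mul_le_mul_left _ hW0
    omega
  -- logs
  have hL : 0 < Real.log y := Real.log_pos (by linarith)
  have hLW : 4 * (W : ℝ) ≤ Real.log y := by
    rw [Real.le_log_iff_exp_le hy0']
    exact hm1.trans (by exact_mod_cast hym1)
  have hH1 : Real.log y / (4 * W) ≤ Hs W I := by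
    refine le_trans ?_ (Hs_low hW0 I)
    have h1 : Real.log y ≤ Real.log W + Real.log ((I : ℝ) + 1) := by
      rw [← Real.log_mul hWr.ne' (by positivity)]
      apply Real.log_le_log hy0'
      exact_mod_cast hIW
    have h2 : 2 * Real.log W ≤ Real.log y := by
      have h3 : Real.log ((W : ℝ) ^ 2) ≤ Real.log y :=
        Real.log_le_log (by positivity) (by exact_mod_cast hyW2)
      rw [Real.log_pow] at h3
      exact_mod_cast h3
    have h3 : Real.log y / 2 ≤ Real.log ((I : ℝ) + 1) := by linarith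
    have e : Real.log y / (4 * W) = (Real.log y / 2) / (2 * W) := by
      field_simp
      ring
    rw [e]
    exact div_le_div_of_nonneg_right h3 (by positivity)
  have hH2 : 1 ≤ Hs W I := by
    refine le_trans ?_ hH1
    rw [le_div_iff₀ (by positivity), one_mul]
    exact hLW
  -- the family
  set TT := TG y (Ts B W I) with hTT
  have hsm : ∀ x ∈ TT, Sm z0 y g W (x 0) (x 1) (x 2) (x 3) (x 4) (x 5) := fun x hx =>
    sm_of_TG (by omega) hzy hg hz3 hIy hx
  have hfam := fun x (hx : x ∈ TT) => hOne y hyy0 X hXlow hXup x (hsm x hx)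
  choose! Ωx hΩ1 hΩ2 using hfam
  set Ω : Finset ((Fin 6 → ℕ) × ℕ × ℕ) :=
    (TT.sigma (fun x => Ωx x)).image (fun xt => (xt.1, xt.2)) with hΩ
  have hΩmem : ∀ ω ∈ Ω, ω.1 ∈ TT ∧ ω.2 ∈ Ωx ω.1 := by
    intro ω hω
    rw [hΩ, mem_image] at hω
    obtain ⟨⟨x, ts⟩, h1, rfl⟩ := hω
    rw [mem_sigma] at h1
    exact h1
  have hΩcard : (Ω.card : ℝ) = ∑ x ∈ TT, ((Ωx x).card : ℝ) := by
    rw [hΩ, card_image_of_injOn, card_sigma]
    · push_cast
      rfl
    · rintro ⟨x, ts⟩ _ ⟨x', ts'⟩ _ h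
      simp only [Prod.mk.injEq] at h
      obtain ⟨h1, h2⟩ := h
      subst h1
      rw [h2]
  have hsum : c3 * Real.sqrt X * Real.log y ^ e ≤ (Ω.card : ℝ) := by
    rw [hΩcard]
    have h1 : ∑ x ∈ TT, c * Real.sqrt X / (64 * g * (W : ℝ) ^ 3) *
        (∏ k, 1 / (x k : ℝ)) / Real.log y ^ (1 + I3.card) ≤ ∑ x ∈ TT, ((Ωx x).card : ℝ) :=
      sum_le_sum fun x hx => hΩ2 x hx
    refine le_trans ?_ h1
    have h2 : ∑ x ∈ TT, c * Real.sqrt X / (64 * g * (W : ℝ) ^ 3) *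
        (∏ k, 1 / (x k : ℝ)) / Real.log y ^ (1 + I3.card) =
        c * Real.sqrt X / (64 * g * (W : ℝ) ^ 3) / Real.log y ^ (1 + I3.card) *
          ∑ x ∈ TT, ∏ k, 1 / (x k : ℝ) := by
      rw [mul_sum]
      apply sum_congr rfl
      intro x _
      ring
    rw [h2]
    have h3 := TG_sum (Y := y) hz2 (dvd_fact (z0 := z0)) (Ts B W I)
      (fun k a ha => cop_of_mod (Ts_prop ha).2.2) (fun k d hd hdW => Ts_sum2 (by omega) hH2 k d hd hdW)
    rw [Ts_prod B W I m hm] at h3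
    have h4 : (Real.log y / (4 * W)) ^ m ≤ Hs W I ^ m :=
      pow_le_pow_left₀ (by positivity) hH1 m
    have h5 : (Real.log y / (4 * W)) ^ m / 2 ≤ ∑ x ∈ TT, ∏ k, 1 / (x k : ℝ) := by linarith
    have hs0 : 0 ≤ Real.sqrt X := Real.sqrt_nonneg _
    calc c3 * Real.sqrt X * Real.log y ^ e =
          c * Real.sqrt X / (64 * g * (W : ℝ) ^ 3) / Real.log y ^ (1 + I3.card) *
          ((Real.log y / (4 * W)) ^ m / 2) := by
          rw [hc3]
          exact alg2 m _ e hme hgr hWr hL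
      _ ≤ _ := mul_le_mul_of_nonneg_left h5 (by positivity)
  -- multiplicity
  have hmult := mult_le (z0 := z0) (y := y) (g := g) (W := W) (K := K) (by omega) Ω
    (fun ω hω => by
      obtain ⟨h1, h2⟩ := hΩmem ω hω
      obtain ⟨d, e, h3, _⟩ := hΩ1 ω.1 h1 ω.2 h2
      exact ⟨d, e, h3⟩)
    (fun ω hω => by
      obtain ⟨h1, h2⟩ := hΩmem ω hω
      obtain ⟨d, e, _, h3, _⟩ := hΩ1 ω.1 h1 ω.2 h2
      have h4 := lt_of_le_of_lt h3 hXup
      exact_mod_cast h4)
  set Pk : ℕ → Prop := fun k => B = true → 1 ∈ I3 → 2 ∈ I3 →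
        ∀ p : ℕ, p.Prime → p ∣ k → ξ < p with hPk
  have himg : ((Ω.image (fun ω => nv g W ω.1 ω.2.1 ω.2.2)).card : ℝ) ≤
      ((Tg a M Pk X).ncard : ℝ) := by
    have h1 : ((Ω.image (fun ω => nv g W ω.1 ω.2.1 ω.2.2) : Finset ℕ) : Set ℕ) ⊆ Tg a M Pk X := by
      intro n hn
      rw [mem_coe, mem_image] at hn
      obtain ⟨ω, hω, rfl⟩ := hn
      obtain ⟨h1, h2⟩ := hΩmem ω hω
      obtain ⟨d, e', h3, h4, h5, h6, h7, h8⟩ := hΩ1 ω.1 h1 ω.2 h2
      have hd0 : 0 < d := Nat.pos_of_ne_zero h3.ds.ne_zero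
      have he0 : 0 < e' := Nat.pos_of_ne_zero h3.es.ne_zero
      have hs0 : 0 < ω.2.2 := Nat.pos_of_ne_zero h3.ss.ne_zero
      have ht0 : 0 < ω.2.1 := Nat.pos_of_ne_zero h3.ts.ne_zero
      have hcl := h3.sm.cls h5 h6 h3.h1 h3.h2
      refine ⟨h4, ?_, ?_, ?_, ω.1 4 * ω.2.2 * (ω.1 5 * ω.2.1) * d * e', ?_, ?_, ?_⟩
      · rw [nv_eq h3]
        exact h3.sm.sqf h3.rs h3.rt h3.st h3.ss h3.ts h3.ds h3.es h3.h1 h3.h2
      · rw [nv_eq h3]
        have h9 := (Nat.ModEq.mul_left g (hcl.of_dvd hMW)).trans hρa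
        have e9 : g * ω.1 4 * ω.2.2 * (ω.1 5 * ω.2.1) * d * e' =
            g * (ω.1 4 * ω.2.2 * (ω.1 5 * ω.2.1) * d * e') := by ring
        rw [e9]
        exact h9
      · rw [nv_eq h3]
        exact h3.sm.cong hs0 ht0 hd0 he0 h3.h1 h3.h2
      · rw [nv_eq h3, ← hga]
        ring
      · have h2W : 2 ∣ W := h3.sm.two_dvd
        rw [← Nat.not_even_iff_odd, even_iff_two_dvd]
        intro h9
        exact cop_not Nat.prime_two hρ (((hcl.of_dvd h2W).dvd_iff dvd_rfl).1 h9) h2W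
      · rw [hPk]
        intro hB hi1 hi2 p hp hpk
        subst hB
        have x4 : ω.1 4 = 1 := by
          have h9 := Fintype.mem_piFinset.1 (mem_filter.1 h1).1 4
          simpa [Ts] using h9
        have x5 : ω.1 5 = 1 := by
          have h9 := Fintype.mem_piFinset.1 (mem_filter.1 h1).1 5
          simpa [Ts] using h9
        rw [x4, x5, one_mul, one_mul] at hpk
        have key : y < p := by
          rcases (Nat.Prime.dvd_mul hp).1 hpk with hpk | hpk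
          · rcases (Nat.Prime.dvd_mul hp).1 hpk with hpk | hpk
            · rcases (Nat.Prime.dvd_mul hp).1 hpk with hpk | hpk
              · exact h3.rs p hp hpk
              · exact h3.rt p hp hpk
            · exact h7 hi1 p hp hpk
          · exact h8 hi2 p hp hpk
        refine lt_of_lt_of_le hξy ?_
        exact_mod_cast key
    have h2 := Set.ncard_le_ncard h1 (Tg_fin a M Pk X)
    rw [Set.ncard_coe_finset] at h2
    exact_mod_cast h2
  -- conclusion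
  have hlogX : Real.log X ≤ (K + 1) * Real.log y := by
    have h1 := Real.log_le_log (by linarith) hXup.le
    rw [Real.log_pow] at h1
    push_cast at h1
    exact h1
  have hlogX0 : 0 ≤ Real.log X := Real.log_nonneg hX1
  have hfin : c3 * Real.sqrt X * Real.log y ^ e ≤ 4 ^ K * ((Tg a M Pk X).ncard : ℝ) := by
    have h1 : (Ω.card : ℝ) ≤ 4 ^ K * ((Ω.image (fun ω => nv g W ω.1 ω.2.1 ω.2.2)).card : ℝ) := by
      exact_mod_cast hmult
    have h2 : (4 : ℝ) ^ K * ((Ω.image (fun ω => nv g W ω.1 ω.2.1 ω.2.2)).card : ℝ) ≤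
        4 ^ K * ((Tg a M Pk X).ncard : ℝ) := mul_le_mul_of_nonneg_left himg (by positivity)
    linarith
  have h4 : Real.log X ^ e ≤ ((K + 1) * Real.log y) ^ e := pow_le_pow_left₀ hlogX0 hlogX e
  have hs0 : 0 ≤ Real.sqrt X := Real.sqrt_nonneg _
  have h4K : (0 : ℝ) < 4 ^ K := by positivity
  have hK1 : (0 : ℝ) < K + 1 := by positivity
  calc c3 / (4 ^ K * (K + 1) ^ e) * Real.sqrt X * Real.log X ^ e ≤
        c3 / (4 ^ K * (K + 1) ^ e) * Real.sqrt X * ((K + 1) * Real.log y) ^ e :=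
        mul_le_mul_of_nonneg_left h4 (by positivity)
    _ = (c3 * Real.sqrt X * Real.log y ^ e) / 4 ^ K := alg3 e h4K hK1
    _ ≤ (4 ^ K * ((Tg a M Pk X).ncard : ℝ)) / 4 ^ K := div_le_div_of_nonneg_right hfin h4K.le
    _ = _ := by rw [mul_comm, mul_div_assoc, div_self h4K.ne', mul_one]

end Pool.Agent.V7H99.LG
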