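import Mathlib
import Pool.Agent.V7H99.LG.S10

set_option autoImplicit false

/-! Final forms. -/

namespace Pool.Agent.V7H99.LG
open Finset
open Pool.Agent.V7H99.CD (Cong)

lemma len_le {m R : ℕ} {X : ℝ} (hX : 1 ≤ X) (hR : 0 < R) (hm0 : m ≠ 0) (hmX : (m : ℝ) ≤ X)
    (h : ∀ p : ℕ, p.Prime → p ∣ m → X ^ (1 / (R : ℝ)) < (p : ℝ)) :
    m.primeFactorsList.length ≤ R := by
  by_contra hcon
  push Not at hcon
  set ξ := X ^ (1 / (R : ℝ)) with hξ
  have hξ1 : 1 ≤ ξ := Real.one_le_rpow hX (by positivity)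
  have hξR : ξ ^ R = X := by
    have hR0 : (0 : ℝ) < R := by exact_mod_cast hR
    rw [hξ, ← Real.rpow_natCast, ← Real.rpow_mul (by linarith)]
    rw [one_div, inv_mul_cancel₀ hR0.ne', Real.rpow_one]
  have key : ∀ l : List ℕ, l ≠ [] → (∀ p ∈ l, ξ < (p : ℝ)) → ξ ^ l.length < ((l.prod : ℕ) : ℝ) := by
    intro l
    induction l with
    | nil => intro h0; exact absurd rfl h0
    | cons p l ih =>
      intro _ hl
      have hp := hl p (List.mem_cons_self)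
      rw [List.length_cons, List.prod_cons, Nat.cast_mul, pow_succ, mul_comm]
      by_cases h0 : l = []
      · subst h0
        simp only [List.length_nil, pow_zero, mul_one, List.prod_nil, Nat.cast_one]
        exact hp
      · have h1 := ih h0 (fun q hq => hl q (List.mem_cons_of_mem _ hq))
        have h2 : 0 < ξ ^ l.length := by positivity
        exact mul_lt_mul'' hp h1 (by linarith) h2.le
  have hne : m.primeFactorsList ≠ [] := by
    intro h0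
    rw [h0] at hcon
    simp at hcon
  have h1 := key m.primeFactorsList hne (fun p hp => by
    rw [Nat.mem_primeFactorsList hm0] at hp
    exact h p hp.1 hp.2)
  rw [Nat.prod_primeFactorsList hm0] at h1
  have h2 : ξ ^ R ≤ ξ ^ m.primeFactorsList.length := pow_le_pow_right₀ hξ1 hcon.le
  rw [hξR] at h2
  linarith

/-- many congruent numbers in a class -/
theorem many (a M : ℕ) (hM : 0 < M) (hg : Squarefree (Nat.gcd a M)) :
    ∃ c : ℝ, 0 < c ∧ ∃ X0 : ℝ, ∀ X : ℝ, X0 ≤ X →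
      c * Real.sqrt X * Real.log X ^ 4 ≤
        ({n : ℕ | (n : ℝ) ≤ X ∧ Squarefree n ∧ n ≡ a [MOD M] ∧ Cong n ∧
          ∃ k, n = Nat.gcd a M * k ∧ Odd k}.ncard : ℝ) := by
  obtain ⟨c, hc, R, _, X0, _, h⟩ := main_gen {0} (by simp) false 6 4 (by simp) (by simp) a M hM hg
  refine ⟨c, hc, X0, fun X hX => (h X hX).trans ?_⟩
  have hfin : {n : ℕ | (n : ℝ) ≤ X ∧ Squarefree n ∧ n ≡ a [MOD M] ∧ Cong n ∧
          ∃ k, n = Nat.gcd a M * k ∧ Odd k}.Finite := by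
    apply (Set.finite_Iic ⌊X⌋₊).subset
    intro n hn
    exact Nat.le_floor hn.1
  apply Nat.cast_le.2
  apply Set.ncard_le_ncard _ hfin
  rintro n ⟨h1, h2, h3, h4, k, h5, h6, _⟩
  exact ⟨h1, h2, h3, h4, k, h5, h6⟩

/-- many almost prime congruent numbers in a class -/
theorem many_ap (a M : ℕ) (hM : 0 < M) (hg : Squarefree (Nat.gcd a M)) :
    ∃ c : ℝ, 0 < c ∧ ∃ R : ℕ, 1 ≤ R ∧ ∃ X0 : ℝ, ∀ X : ℝ, X0 ≤ X →
      c * Real.sqrt X ≤
        ({n : ℕ | (n : ℝ) ≤ X ∧ Squarefree n ∧ n ≡ a [MOD M] ∧ Cong n ∧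
          ∃ k, n = Nat.gcd a M * k ∧ Odd k ∧ k.primeFactorsList.length ≤ R ∧
            ∀ p : ℕ, p.Prime → p ∣ k → X ^ (1 / (R : ℝ)) < (p : ℝ)}.ncard : ℝ) := by
  obtain ⟨c, hc, R, hR, X0, hX01, h⟩ := main_gen univ (by simp) true 4 0 (by simp) (by simp) a M hM hg
  refine ⟨c, hc, R, hR, X0, fun X hX => ?_⟩
  have h0 := h X hX
  rw [pow_zero, mul_one] at h0
  refine h0.trans ?_
  have hfin : {n : ℕ | (n : ℝ) ≤ X ∧ Squarefree n ∧ n ≡ a [MOD M] ∧ Cong n ∧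
          ∃ k, n = Nat.gcd a M * k ∧ Odd k ∧ k.primeFactorsList.length ≤ R ∧
            ∀ p : ℕ, p.Prime → p ∣ k → X ^ (1 / (R : ℝ)) < (p : ℝ)}.Finite := by
    apply (Set.finite_Iic ⌊X⌋₊).subset
    intro n hn
    exact Nat.le_floor hn.1
  apply Nat.cast_le.2
  apply Set.ncard_le_ncard _ hfin
  rintro n ⟨h1, h2, h3, h4, k, h5, h6, h7⟩
  have h8 := h7 rfl (mem_univ _) (mem_univ _)
  refine ⟨h1, h2, h3, h4, k, h5, h6, ?_, h8⟩
  have hk0 : k ≠ 0 := by
    rintro rfl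
    simp at h6
  apply len_le (hX01.trans hX) hR hk0 _ h8
  refine le_trans ?_ h1
  have hg0 : 0 < Nat.gcd a M := Nat.gcd_pos_of_pos_right a hM
  rw [h5]
  exact_mod_cast Nat.le_mul_of_pos_left k hg0

end Pool.Agent.V7H99.LG
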